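import Mathlib
import Pool.Agent.Bl169.LogMax

/-!
Vertical means of the truncated logarithm of an entire function: subharmonicity and the maximum principle.
-/

set_option autoImplicit false
set_option maxHeartbeats 1000000

open Complex Filter Topology Metric Set MeasureTheory

namespace Pool.Agent.V7H88.NF

/-- the mean over a circle -/
noncomputable def cm (u : ℂ → ℝ) (c : ℂ) (r : ℝ) : ℝ :=
  (2 * Real.pi)⁻¹ * ∫ θ in (0:ℝ)..(2 * Real.pi), u (c + r * Complex.exp ((θ : ℂ) * I))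

/-- the truncated logarithm -/
noncomputable def um (f : ℂ → ℂ) (m : ℝ) (z : ℂ) : ℝ := Real.log (max ‖f z‖ (Real.exp (-m)))

/-- its integral over a vertical segment -/
noncomputable def Um (f : ℂ → ℂ) (m h : ℝ) (z : ℂ) : ℝ := ∫ y in (0:ℝ)..h, um f m (z + y * I)

variable {f : ℂ → ℂ} {m h : ℝ}

lemma mx_pos (f : ℂ → ℂ) (m : ℝ) (z : ℂ) : 0 < max ‖f z‖ (Real.exp (-m)) :=
  lt_max_of_lt_right (Real.exp_pos _)

lemma um_cont (hf : Continuous f) (m : ℝ) : Continuous (um f m) := by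
  unfold um
  exact (hf.norm.max continuous_const).log fun z => (mx_pos f m z).ne'

lemma um_ge (f : ℂ → ℂ) (m : ℝ) (z : ℂ) : -m ≤ um f m z := by
  unfold um
  have h1 := Real.log_le_log (Real.exp_pos (-m)) (le_max_right ‖f z‖ (Real.exp (-m)))
  rwa [Real.log_exp] at h1

lemma um_le {z : ℂ} {M : ℝ} (hM : 0 < M) (h1 : ‖f z‖ ≤ M) (h2 : -Real.log M ≤ m) : um f m z ≤ Real.log M := by
  unfold um
  apply Real.log_le_log (mx_pos f m z)
  apply max_le h1
  rw [← Real.exp_log hM]
  exact Real.exp_le_exp.2 (by linarith)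

lemma um_ge_log (f : ℂ → ℂ) (m : ℝ) {z : ℂ} (hz : f z ≠ 0) : Real.log ‖f z‖ ≤ um f m z :=
  Real.log_le_log (norm_pos_iff.2 hz) (le_max_left _ _)

lemma cm_mono {u v : ℂ → ℝ} (hu : Continuous u) (hv : Continuous v) {c : ℂ} {r : ℝ}
    (h : ∀ θ : ℝ, u (c + r * Complex.exp ((θ : ℂ) * I)) ≤ v (c + r * Complex.exp ((θ : ℂ) * I))) :
    cm u c r ≤ cm v c r := by
  have hpi := Real.pi_pos
  unfold cm
  apply mul_le_mul_of_nonneg_left _ (by positivity)
  refine intervalIntegral.integral_mono_on (by linarith) ?_ ?_ fun θ _ => h θ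
  · exact Continuous.intervalIntegrable (by fun_prop) _ _
  · exact Continuous.intervalIntegrable (by fun_prop) _ _

lemma cm_const (x : ℝ) (c : ℂ) (r : ℝ) : cm (fun _ => x) c r = x := by
  have hpi := Real.pi_pos
  unfold cm
  rw [intervalIntegral.integral_const, smul_eq_mul]
  field_simp
  ring

lemma um_cm (hf : Differentiable ℂ f) (m : ℝ) (c : ℂ) (r : ℝ) : um f m c ≤ cm (um f m) c r := by
  have hc := um_cont hf.continuous m
  rcases le_or_gt ‖f c‖ (Real.exp (-m)) with h | h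
  · have h1 : um f m c = -m := by
      unfold um
      rw [max_eq_right h, Real.log_exp]
    rw [h1, ← cm_const (-m) c r]
    exact cm_mono continuous_const hc fun θ => um_ge _ _ _
  · have h0 : f c ≠ 0 := by
      rw [← norm_pos_iff]
      exact (Real.exp_pos _).trans h
    have h1 : um f m c = Real.log ‖f c‖ := by
      unfold um
      rw [max_eq_left h.le]
    have hd : Differentiable ℂ (fun z => f (c + r * z)) := hf.comp (by fun_prop)
    have h2 := Pool.Agent.Bl169.log_norm_le (fun z => f (c + r * z)) (fun z => hd.analyticAt z)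
      (fun z => max ‖f (c + r * z)‖ (Real.exp (-m))) (hd.continuous.norm.max continuous_const)
      (fun z => mx_pos f m _) (fun z => le_max_left _ _) (by simpa using h0)
    simp only [mul_zero, add_zero] at h2
    rw [h1]
    refine h2.trans (le_of_eq ?_)
    rw [Real.circleAverage, cm, smul_eq_mul]
    congr 1
    refine intervalIntegral.integral_congr fun θ _ => ?_
    simp [circleMap, um]

lemma Um_cont (hf : Continuous f) (m h : ℝ) : Continuous (Um f m h) := by
  unfold Um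
  apply intervalIntegral.continuous_parametric_intervalIntegral_of_continuous'
  have h1 := um_cont hf m
  unfold Function.uncurry
  fun_prop

lemma swap_cont {g : ℝ → ℝ → ℝ} (hg : Continuous (Function.uncurry g)) {a b c d : ℝ} (hab : a ≤ b) (hcd : c ≤ d) :
    ∫ x in a..b, ∫ y in c..d, g x y = ∫ y in c..d, ∫ x in a..b, g x y := by
  simp only [intervalIntegral.integral_of_le hab, intervalIntegral.integral_of_le hcd]
  apply integral_integral_swap
  rw [Measure.prod_restrict]
  have h1 : IntegrableOn (Function.uncurry g) (Icc a b ×ˢ Icc c d) (volume.prod volume) := by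
    rw [← Measure.volume_eq_prod]
    exact hg.continuousOn.integrableOn_compact (isCompact_Icc.prod isCompact_Icc)
  exact h1.mono_set (Set.prod_mono Ioc_subset_Icc_self Ioc_subset_Icc_self)

lemma Um_cm (hf : Differentiable ℂ f) (m : ℝ) {h : ℝ} (hh : 0 ≤ h) (c : ℂ) (r : ℝ) :
    Um f m h c ≤ cm (Um f m h) c r := by
  have hpi := Real.pi_pos
  have hc := um_cont hf.continuous m
  have h2 : cm (Um f m h) c r = ∫ y in (0:ℝ)..h, cm (um f m) (c + y * I) r := by
    unfold cm Um
    rw [swap_cont (g := fun θ y => um f m (c + r * Complex.exp ((θ : ℂ) * I) + y * I)) (by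
      unfold Function.uncurry
      fun_prop) (by linarith) hh, intervalIntegral.integral_const_mul]
    congr 1
    refine intervalIntegral.integral_congr fun y _ => ?_
    refine intervalIntegral.integral_congr fun θ _ => ?_
    show um f m (c + r * Complex.exp ((θ : ℂ) * I) + y * I) = um f m (c + y * I + r * Complex.exp ((θ : ℂ) * I))
    congr 1
    ring
  rw [h2]
  unfold Um
  refine intervalIntegral.integral_mono_on hh ?_ ?_ fun y _ => um_cm hf m _ r
  · exact Continuous.intervalIntegrable (by fun_prop) _ _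
  · apply Continuous.intervalIntegrable
    unfold cm
    refine continuous_const.mul ?_
    apply intervalIntegral.continuous_parametric_intervalIntegral_of_continuous'
    unfold Function.uncurry
    fun_prop

lemma cm_sq (c : ℂ) (r : ℝ) : cm (fun z => ‖z‖ ^ 2) c r = ‖c‖ ^ 2 + r ^ 2 := by
  have hpi := Real.pi_pos
  have h1 : ∀ θ : ℝ, ‖c + r * Complex.exp ((θ : ℂ) * I)‖ ^ 2 =
      ‖c‖ ^ 2 + r ^ 2 + 2 * r * c.re * Real.cos θ + 2 * r * c.im * Real.sin θ := by
    intro θ
    rw [Complex.sq_norm, Complex.sq_norm, Complex.normSq_apply, Complex.normSq_apply]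
    have e1 : (c + r * Complex.exp ((θ : ℂ) * I)).re = c.re + r * Real.cos θ := by
      rw [Complex.add_re, Complex.re_ofReal_mul, Complex.exp_ofReal_mul_I_re]
    have e2 : (c + r * Complex.exp ((θ : ℂ) * I)).im = c.im + r * Real.sin θ := by
      rw [Complex.add_im, Complex.im_ofReal_mul, Complex.exp_ofReal_mul_I_im]
    rw [e1, e2]
    have := Real.sin_sq_add_cos_sq θ
    have e3 : r ^ 2 = r ^ 2 * (Real.sin θ ^ 2 + Real.cos θ ^ 2) := by rw [this, mul_one]
    rw [e3]
    ring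
  unfold cm
  simp only [h1]
  rw [intervalIntegral.integral_add, intervalIntegral.integral_add, intervalIntegral.integral_const,
    intervalIntegral.integral_const_mul, intervalIntegral.integral_const_mul, integral_cos, integral_sin]
  · simp
    field_simp
  all_goals exact Continuous.intervalIntegrable (by fun_prop) _ _

/-- the maximum of `Um + ε |z|²` over a rectangle is attained on the boundary -/
lemma max_front (hf : Differentiable ℂ f) (m : ℝ) (hh : 0 ≤ h) {ε x₁ x₂ y₁ y₂ : ℝ} (hε : 0 < ε) (hx : x₁ ≤ x₂)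
    (hy : y₁ ≤ y₂) : ∃ z₀ : ℂ, z₀.re ∈ Icc x₁ x₂ ∧ z₀.im ∈ Icc y₁ y₂ ∧
      (z₀.re = x₁ ∨ z₀.re = x₂ ∨ z₀.im = y₁ ∨ z₀.im = y₂) ∧
      ∀ z : ℂ, z.re ∈ Icc x₁ x₂ → z.im ∈ Icc y₁ y₂ → Um f m h z + ε * ‖z‖ ^ 2 ≤ Um f m h z₀ + ε * ‖z₀‖ ^ 2 := by
  have hUc := Um_cont hf.continuous m h
  have hVc : Continuous (fun z : ℂ => Um f m h z + ε * ‖z‖ ^ 2) := by fun_prop
  have hcomp : IsCompact (Icc x₁ x₂ ×ℂ Icc y₁ y₂) := isCompact_Icc.reProdIm isCompact_Icc
  obtain ⟨z₀, hz₀, hmax⟩ := hcomp.exists_isMaxOn ⟨⟨x₁, y₁⟩, by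
    rw [mem_reProdIm]
    exact ⟨⟨le_rfl, hx⟩, ⟨le_rfl, hy⟩⟩⟩ hVc.continuousOn
  rw [mem_reProdIm] at hz₀
  have hmax' : ∀ z : ℂ, z.re ∈ Icc x₁ x₂ → z.im ∈ Icc y₁ y₂ →
      Um f m h z + ε * ‖z‖ ^ 2 ≤ Um f m h z₀ + ε * ‖z₀‖ ^ 2 := by
    intro z h1 h2
    exact hmax (show z ∈ Icc x₁ x₂ ×ℂ Icc y₁ y₂ by rw [mem_reProdIm]; exact ⟨h1, h2⟩)
  refine ⟨z₀, hz₀.1, hz₀.2, ?_, hmax'⟩
  by_contra hcon
  push Not at hcon
  obtain ⟨hc1, hc2, hc3, hc4⟩ := hcon
  have h1 : x₁ < z₀.re := lt_of_le_of_ne hz₀.1.1 (Ne.symm hc1)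
  have h2 : z₀.re < x₂ := lt_of_le_of_ne hz₀.1.2 hc2
  have h3 : y₁ < z₀.im := lt_of_le_of_ne hz₀.2.1 (Ne.symm hc3)
  have h4 : z₀.im < y₂ := lt_of_le_of_ne hz₀.2.2 hc4
  obtain ⟨r, hr0, hr1, hr2, hr3, hr4⟩ : ∃ r : ℝ, 0 < r ∧ r ≤ z₀.re - x₁ ∧ r ≤ x₂ - z₀.re ∧ r ≤ z₀.im - y₁ ∧
      r ≤ y₂ - z₀.im := by
    refine ⟨min (min (z₀.re - x₁) (x₂ - z₀.re)) (min (z₀.im - y₁) (y₂ - z₀.im)), ?_, ?_, ?_, ?_, ?_⟩
    · exact lt_min (lt_min (by linarith) (by linarith)) (lt_min (by linarith) (by linarith))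
    · exact (min_le_left _ _).trans (min_le_left _ _)
    · exact (min_le_left _ _).trans (min_le_right _ _)
    · exact (min_le_right _ _).trans (min_le_left _ _)
    · exact (min_le_right _ _).trans (min_le_right _ _)
  have hpi := Real.pi_pos
  have hV : cm (fun z : ℂ => Um f m h z + ε * ‖z‖ ^ 2) z₀ r = cm (Um f m h) z₀ r + ε * (‖z₀‖ ^ 2 + r ^ 2) := by
    rw [← cm_sq z₀ r]
    unfold cm
    rw [intervalIntegral.integral_add, intervalIntegral.integral_const_mul]
    · ring
    all_goals exact Continuous.intervalIntegrable (by fun_prop) _ _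
  have hle : cm (fun z : ℂ => Um f m h z + ε * ‖z‖ ^ 2) z₀ r ≤ Um f m h z₀ + ε * ‖z₀‖ ^ 2 := by
    have e1 : Um f m h z₀ + ε * ‖z₀‖ ^ 2 = (2 * Real.pi)⁻¹ *
        ∫ θ in (0:ℝ)..(2 * Real.pi), (Um f m h z₀ + ε * ‖z₀‖ ^ 2) := by
      rw [intervalIntegral.integral_const, smul_eq_mul]
      field_simp
      ring
    rw [e1]
    unfold cm
    apply mul_le_mul_of_nonneg_left _ (by positivity)
    refine intervalIntegral.integral_mono_on (by linarith) ?_ ?_ fun θ _ => ?_
    · exact Continuous.intervalIntegrable (by fun_prop) _ _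
    · exact Continuous.intervalIntegrable (by fun_prop) _ _
    · have hc := Real.abs_cos_le_one θ
      have hs := Real.abs_sin_le_one θ
      have hc' := abs_le.1 hc
      have hs' := abs_le.1 hs
      apply hmax'
      · rw [Complex.add_re, Complex.re_ofReal_mul, Complex.exp_ofReal_mul_I_re]
        constructor <;> nlinarith
      · rw [Complex.add_im, Complex.im_ofReal_mul, Complex.exp_ofReal_mul_I_im]
        constructor <;> nlinarith
  have h5 := Um_cm hf m hh z₀ r
  rw [hV] at hle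
  have h6 : 0 < ε * r ^ 2 := by positivity
  linarith

end Pool.Agent.V7H88.NF
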