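import Mathlib
import Pool.Agent.V7H88.NF.A

/-!
The Neumann principle for vertical means.
-/

set_option autoImplicit false
set_option maxHeartbeats 1000000

open Complex Filter Topology Metric Set MeasureTheory

namespace Pool.Agent.V7H88.NF

variable {f : ℂ → ℂ} {m h : ℝ}

lemma um_lip (f : ℂ → ℂ) (m : ℝ) (z w : ℂ) : um f m z - um f m w ≤ Real.exp m * ‖f z - f w‖ := by
  unfold um
  set A := max ‖f z‖ (Real.exp (-m)) with hA
  set B := max ‖f w‖ (Real.exp (-m)) with hB
  have hA0 : 0 < A := mx_pos f m z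
  have hB0 : 0 < B := mx_pos f m w
  have hBm : Real.exp (-m) ≤ B := le_max_right _ _
  have hAB : A ≤ B + ‖f z - f w‖ := by
    apply max_le
    · have h1 : ‖f z‖ ≤ ‖f w‖ + ‖f z - f w‖ := by
        have := norm_add_le (f w) (f z - f w)
        rwa [add_sub_cancel] at this
      exact h1.trans (by linarith [le_max_left ‖f w‖ (Real.exp (-m))])
    · linarith [norm_nonneg (f z - f w)]
  rw [← Real.log_div hA0.ne' hB0.ne']
  refine (Real.log_le_sub_one_of_pos (by positivity)).trans ?_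
  have h2 : A / B - 1 = (A - B) / B := by field_simp
  rw [h2, div_le_iff₀ hB0]
  have h3 : 1 ≤ Real.exp m * B := by
    calc (1:ℝ) = Real.exp m * Real.exp (-m) := by rw [← Real.exp_add, add_neg_cancel, Real.exp_zero]
      _ ≤ Real.exp m * B := mul_le_mul_of_nonneg_left hBm (Real.exp_pos _).le
  calc A - B ≤ 1 * ‖f z - f w‖ := by linarith
    _ ≤ (Real.exp m * B) * ‖f z - f w‖ := mul_le_mul_of_nonneg_right h3 (norm_nonneg _)
    _ = Real.exp m * ‖f z - f w‖ * B := by ring

lemma log_deriv (hf : Differentiable ℂ f) {w : ℂ} (hw : f w ≠ 0) :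
    HasDerivAt (fun x : ℝ => Real.log ‖f (w + x)‖) (logDeriv f w).re 0 := by
  have h1 : HasDerivAt f (deriv f w) (w + ((0:ℝ) : ℂ)) := by
    simpa using (hf w).hasDerivAt
  have h2 : HasDerivAt (fun x : ℝ => w + (x : ℂ)) 1 (0:ℝ) := by
    simpa using (Complex.ofRealCLM.hasDerivAt (x := (0:ℝ))).const_add w
  have h3 : HasDerivAt (fun x : ℝ => f (w + x)) (deriv f w) 0 := by
    have h := h1.comp (0:ℝ) h2
    rw [mul_one] at h
    exact h
  have h4 := h3.norm_sq
  have h5 : ‖f (w + ((0:ℝ) : ℂ))‖ ^ 2 ≠ 0 := by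
    have : ‖f w‖ ≠ 0 := norm_ne_zero_iff.2 hw
    simpa using this
  have h6 := (h4.log h5).const_mul (1 / 2 : ℝ)
  have e1 : (fun x : ℝ => Real.log ‖f (w + x)‖) = fun x : ℝ => 1 / 2 * Real.log (‖f (w + x)‖ ^ 2) := by
    funext x
    rw [Real.log_pow]
    push_cast
    ring
  rw [e1]
  refine h6.congr_deriv ?_
  simp only [Complex.ofReal_zero, add_zero]
  rw [Complex.inner, logDeriv_apply, Complex.div_re, Complex.normSq_eq_norm_sq]
  have h7 : ‖f w‖ ^ 2 ≠ 0 := by
    have : ‖f w‖ ≠ 0 := norm_ne_zero_iff.2 hw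
    positivity
  simp only [Complex.mul_re, Complex.conj_re, Complex.conj_im]
  field_simp
  ring

/-- at a maximum on the left edge the horizontal derivative is nonpositive in the mean -/
lemma left_excl (hf : Differentiable ℂ f) (hh : 0 ≤ h) {y₀ a : ℝ} (ha : 0 < a)
    (hmax : ∀ x ∈ Icc 0 a, Um f m h (x + y₀ * I) ≤ Um f m h (y₀ * I)) :
    ∫ y in Ioc 0 h ∩ {y : ℝ | Real.exp (-m) < ‖f ((y₀ + y : ℝ) * I)‖}, (logDeriv f ((y₀ + y : ℝ) * I)).re ≤ 0 := by
  have hc := um_cont hf.continuous m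
  set A : Set ℝ := {y : ℝ | Real.exp (-m) < ‖f ((y₀ + y : ℝ) * I)‖} with hA
  have hAm : MeasurableSet A := by
    apply measurableSet_lt measurable_const
    have : Continuous (fun y : ℝ => ‖f ((y₀ + y : ℝ) * I)‖) := by
      have := hf.continuous
      fun_prop
    exact this.measurable
  set x : ℕ → ℝ := fun n => a / (n + 1) with hx
  have hx0 : ∀ n, 0 < x n := fun n => by simp only [hx]; positivity
  have hxa : ∀ n, x n ≤ a := fun n => by
    simp only [hx]
    rw [div_le_iff₀ (by positivity)]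
    have : (0:ℝ) ≤ n := Nat.cast_nonneg n
    nlinarith
  have hxl : Tendsto x atTop (𝓝[≠] 0) := by
    rw [tendsto_nhdsWithin_iff]
    refine ⟨?_, Eventually.of_forall fun n => (hx0 n).ne'⟩
    have h1 := tendsto_one_div_add_atTop_nhds_zero_nat (𝕜 := ℝ)
    have h2 := h1.const_mul a
    rw [mul_zero] at h2
    refine h2.congr fun n => ?_
    simp only [hx]
    ring
  set ψ : ℕ → ℝ → ℝ := fun n y => (um f m ((y₀ + y : ℝ) * I + x n) - um f m ((y₀ + y : ℝ) * I)) / x n with hψ
  have hψc : ∀ n, Continuous (ψ n) := fun n => by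
    simp only [hψ]
    fun_prop
  -- the integrals are nonpositive
  have h1 : ∀ n, ∫ y in Ioc 0 h ∩ A, ψ n y ≤ 0 := by
    intro n
    have h2 : ∫ y in Ioc 0 h, ψ n y ≤ 0 := by
      have h3 := hmax (x n) ⟨(hx0 n).le, hxa n⟩
      unfold Um at h3
      have h4 : ∫ y in Ioc 0 h, ψ n y = ((∫ y in (0:ℝ)..h, um f m ((x n : ℂ) + y₀ * I + y * I)) -
          ∫ y in (0:ℝ)..h, um f m (y₀ * I + y * I)) / x n := by
        rw [← intervalIntegral.integral_sub, ← intervalIntegral.integral_div,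
          ← intervalIntegral.integral_of_le hh]
        · refine intervalIntegral.integral_congr fun y _ => ?_
          have e1 : (x n : ℂ) + y₀ * I + y * I = (y₀ + y : ℝ) * I + x n := by push_cast; ring
          have e2 : (y₀ : ℂ) * I + y * I = (y₀ + y : ℝ) * I := by push_cast; ring
          simp only [hψ]
          rw [e1, e2]
        all_goals exact Continuous.intervalIntegrable (by fun_prop) _ _
      rw [h4]
      apply div_nonpos_of_nonpos_of_nonneg _ (hx0 n).le
      linarith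
    have h5 : IntegrableOn (ψ n) (Ioc 0 h) := (hψc n).integrableOn_Ioc
    have h6 : (∫ y in Ioc 0 h ∩ A, ψ n y) + (∫ y in Ioc 0 h \ A, ψ n y) = ∫ y in Ioc 0 h, ψ n y :=
      integral_inter_add_sdiff hAm h5
    have h7 : 0 ≤ ∫ y in Ioc 0 h \ A, ψ n y := by
      refine setIntegral_nonneg (measurableSet_Ioc.diff hAm) fun y hy => ?_
      have h8 : ¬ (Real.exp (-m) < ‖f ((y₀ + y : ℝ) * I)‖) := hy.2
      push Not at h8
      have h9 : um f m ((y₀ + y : ℝ) * I) = -m := by
        unfold um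
        rw [max_eq_right h8, Real.log_exp]
      simp only [hψ]
      rw [h9]
      apply div_nonneg _ (hx0 n).le
      linarith [um_ge f m ((y₀ + y : ℝ) * I + x n)]
    linarith
  -- the bound
  have hcomp : IsCompact (Icc 0 a ×ℂ Icc y₀ (y₀ + h)) := isCompact_Icc.reProdIm isCompact_Icc
  have hdc : Continuous (deriv f) := hf.deriv.continuous
  obtain ⟨B, hB⟩ := hcomp.exists_bound_of_continuousOn hdc.continuousOn
  have hconv : Convex ℝ (Icc 0 a ×ℂ Icc y₀ (y₀ + h)) := by
    have h1 : Convex ℝ (Complex.reLm ⁻¹' Icc 0 a) := (convex_Icc 0 a).linear_preimage Complex.reLm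
    have h2 : Convex ℝ (Complex.imLm ⁻¹' Icc y₀ (y₀ + h)) := (convex_Icc y₀ (y₀ + h)).linear_preimage Complex.imLm
    exact h1.inter h2
  have hlip : ∀ n, ∀ y ∈ Ioc 0 h, |ψ n y| ≤ Real.exp m * B := by
    intro n y hy
    have hz : ((y₀ + y : ℝ) * I : ℂ) ∈ Icc 0 a ×ℂ Icc y₀ (y₀ + h) := by
      rw [mem_reProdIm]
      simp only [Complex.re_ofReal_mul, Complex.I_re, mul_zero, Complex.im_ofReal_mul, Complex.I_im, mul_one]
      exact ⟨⟨le_rfl, ha.le⟩, ⟨by linarith [hy.1], by linarith [hy.2]⟩⟩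
    have hw : ((y₀ + y : ℝ) * I + x n : ℂ) ∈ Icc 0 a ×ℂ Icc y₀ (y₀ + h) := by
      rw [mem_reProdIm]
      simp only [Complex.add_re, Complex.add_im, Complex.re_ofReal_mul, Complex.I_re, mul_zero,
        Complex.im_ofReal_mul, Complex.I_im, mul_one, Complex.ofReal_re, Complex.ofReal_im, zero_add, add_zero]
      exact ⟨⟨(hx0 n).le, hxa n⟩, ⟨by linarith [hy.1], by linarith [hy.2]⟩⟩
    have h2 := hconv.norm_image_sub_le_of_norm_deriv_le (f := f) (fun z _ => hf z) hB hz hw
    have h3 : ‖((y₀ + y : ℝ) * I + x n : ℂ) - (y₀ + y : ℝ) * I‖ = x n := by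
      rw [add_sub_cancel_left, Complex.norm_real, Real.norm_of_nonneg (hx0 n).le]
    rw [h3] at h2
    have h4 := um_lip f m ((y₀ + y : ℝ) * I + x n) ((y₀ + y : ℝ) * I)
    have h5 := um_lip f m ((y₀ + y : ℝ) * I) ((y₀ + y : ℝ) * I + x n)
    rw [norm_sub_rev] at h5
    have h6 : Real.exp m * ‖f ((y₀ + y : ℝ) * I + x n) - f ((y₀ + y : ℝ) * I)‖ ≤ Real.exp m * B * x n := by
      calc _ ≤ Real.exp m * (B * x n) := mul_le_mul_of_nonneg_left h2 (Real.exp_pos _).le
        _ = _ := by ring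
    simp only [hψ]
    rw [abs_div, abs_of_pos (hx0 n), div_le_iff₀ (hx0 n), abs_le]
    constructor <;> linarith
  -- the limit
  have hlim : Tendsto (fun n => ∫ y in Ioc 0 h ∩ A, ψ n y) atTop
      (𝓝 (∫ y in Ioc 0 h ∩ A, (logDeriv f ((y₀ + y : ℝ) * I)).re)) := by
    refine tendsto_integral_of_dominated_convergence (fun _ => Real.exp m * B) ?_ ?_ ?_ ?_
    · exact fun n => (hψc n).aestronglyMeasurable
    · have : IntegrableOn (fun _ : ℝ => Real.exp m * B) (Ioc 0 h) := by
        rw [integrableOn_const_iff]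
        right
        simp
      exact this.mono_set inter_subset_left
    · intro n
      rw [ae_restrict_iff' (measurableSet_Ioc.inter hAm)]
      exact Eventually.of_forall fun y hy => hlip n y hy.1
    · rw [ae_restrict_iff' (measurableSet_Ioc.inter hAm)]
      refine Eventually.of_forall fun y hy => ?_
      have hyA : Real.exp (-m) < ‖f ((y₀ + y : ℝ) * I)‖ := hy.2
      set w : ℂ := (y₀ + y : ℝ) * I with hw
      have hw0 : f w ≠ 0 := by
        rw [← norm_pos_iff]
        exact (Real.exp_pos _).trans hyA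
      have h2 := log_deriv hf hw0
      rw [hasDerivAt_iff_tendsto_slope] at h2
      have h3 := h2.comp hxl
      refine h3.congr' ?_
      have h4 : ∀ᶠ t : ℝ in 𝓝[≠] 0, Real.exp (-m) < ‖f (w + t)‖ := by
        have h5 : ContinuousAt (fun t : ℝ => ‖f (w + t)‖) 0 := by
          have := hf.continuous
          fun_prop
        have h6 : ∀ᶠ t : ℝ in 𝓝 0, Real.exp (-m) < ‖f (w + t)‖ := by
          apply h5.eventually_const_lt
          simpa using hyA
        exact h6.filter_mono nhdsWithin_le_nhds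
      filter_upwards [hxl.eventually h4] with n hn
      simp only [Function.comp, slope_def_field, hψ, Complex.ofReal_zero, add_zero, sub_zero]
      unfold um
      rw [max_eq_left hn.le, max_eq_left hyA.le]
  exact le_of_tendsto' hlim h1

lemma small_set {f : ℂ → ℂ} (hf : Continuous f) {a b : ℝ} (hfin : {y : ℝ | y ∈ Icc a b ∧ f (y * I) = 0}.Finite)
    {ε : ℝ} (hε : 0 < ε) : ∃ m₁ : ℝ, ∀ m : ℝ, m₁ ≤ m →
      volume {y : ℝ | y ∈ Icc a b ∧ ‖f (y * I)‖ ≤ Real.exp (-m)} ≤ ENNReal.ofReal ε := by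
  set S : ℕ → Set ℝ := fun n => {y : ℝ | y ∈ Icc a b ∧ ‖f (y * I)‖ ≤ Real.exp (-(n : ℝ))} with hS
  have hSm : ∀ n, MeasurableSet (S n) := by
    intro n
    have h0 : Continuous (fun y : ℝ => ‖f (y * I)‖) := by fun_prop
    exact measurableSet_Icc.inter (measurableSet_le h0.measurable measurable_const)
  have hanti : Antitone S := by
    intro n k hnk y hy
    refine ⟨hy.1, hy.2.trans (Real.exp_le_exp.2 ?_)⟩
    have : (n : ℝ) ≤ k := Nat.cast_le.2 hnk
    linarith
  have hfinm : ∃ n, volume (S n) ≠ ⊤ := by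
    refine ⟨0, ?_⟩
    have h1 : volume (S 0) ≤ volume (Icc a b) := measure_mono fun y hy => hy.1
    refine ne_top_of_le_ne_top ?_ h1
    rw [Real.volume_Icc]
    exact ENNReal.ofReal_ne_top
  have h1 := tendsto_measure_iInter_atTop (μ := volume) (fun n => (hSm n).nullMeasurableSet) hanti hfinm
  have h2 : ⋂ n, S n ⊆ {y : ℝ | y ∈ Icc a b ∧ f (y * I) = 0} := by
    intro y hy
    rw [mem_iInter] at hy
    refine ⟨(hy 0).1, ?_⟩
    rw [← norm_le_zero_iff]
    have h3 : Tendsto (fun n : ℕ => Real.exp (-(n : ℝ))) atTop (𝓝 0) :=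
      Real.tendsto_exp_neg_atTop_nhds_zero.comp tendsto_natCast_atTop_atTop
    exact ge_of_tendsto' h3 fun n => (hy n).2
  have h3 : volume (⋂ n, S n) = 0 := measure_mono_null h2 (hfin.measure_zero volume)
  rw [h3] at h1
  have h4 : ∀ᶠ n in atTop, volume (S n) < ENNReal.ofReal ε := by
    apply h1.eventually_lt_const
    exact ENNReal.ofReal_pos.2 hε
  obtain ⟨n, hn⟩ := h4.exists
  refine ⟨n, fun m hm => le_trans (measure_mono ?_) hn.le⟩
  intro y hy
  exact ⟨hy.1, hy.2.trans (Real.exp_le_exp.2 (by linarith))⟩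

lemma Um_le_const {M : ℝ} (hf : Continuous f) (hM : 0 < M) (hm : -Real.log M ≤ m) (hh : 0 ≤ h) {z : ℂ}
    (hb : ∀ y ∈ Icc 0 h, ‖f (z + y * I)‖ ≤ M) : Um f m h z ≤ h * Real.log M := by
  unfold Um
  have h1 : h * Real.log M = ∫ y in (0:ℝ)..h, Real.log M := by
    rw [intervalIntegral.integral_const, smul_eq_mul, sub_zero]
  rw [h1]
  refine intervalIntegral.integral_mono_on hh ?_ intervalIntegrable_const fun y hy => um_le hM (hb y hy) hm
  exact Continuous.intervalIntegrable (by have := um_cont hf m; fun_prop) _ _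

/-- **the Neumann principle for vertical means** -/
theorem neumann_avg (hf : Differentiable ℂ f) {a H : ℝ} (ha : 0 < a) (hH : 0 ≤ H) (hh : 0 < h) {k : ℝ → ℝ}
    (hk : Continuous k)
    (hkf : ∀ y ∈ Icc (-H) (H + h), f (y * I) ≠ 0 → k y = (logDeriv f (y * I)).re)
    (hfin : {y : ℝ | y ∈ Icc (-H) (H + h) ∧ f (y * I) = 0}.Finite)
    {κ : ℝ} (hκ : 0 < κ) (hpos : ∀ s ∈ Icc (-H) H, κ ≤ ∫ y in (0:ℝ)..h, k (s + y)) {M : ℝ} (hM : 0 < M)
    (hR : ∀ z : ℂ, z.re = a → z.im ∈ Icc (-H) (H + h) → ‖f z‖ ≤ M)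
    (hE : ∀ z : ℂ, z.re ∈ Icc 0 a → (z.im ∈ Icc (-H) (-H + h) ∨ z.im ∈ Icc H (H + h)) → ‖f z‖ ≤ M) :
    ∃ m₀ : ℝ, ∀ m : ℝ, m₀ ≤ m → ∀ z : ℂ, z.re ∈ Icc 0 a → z.im ∈ Icc (-H) H → Um f m h z ≤ h * Real.log M := by
  obtain ⟨B, hB⟩ := (isCompact_Icc (a := -H) (b := H + h)).exists_bound_of_continuousOn hk.continuousOn
  have hB0 : 0 ≤ |B| := abs_nonneg B
  obtain ⟨m₁, hm₁⟩ := small_set hf.continuous hfin (ε := κ / (2 * (|B| + 1))) (by positivity)
  refine ⟨max m₁ (-Real.log M), fun m hm z hz1 hz2 => ?_⟩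
  have hmm₁ : m₁ ≤ m := (le_max_left _ _).trans hm
  have hmM : -Real.log M ≤ m := (le_max_right _ _).trans hm
  by_contra hcon
  push Not at hcon
  set g : ℝ := Um f m h z - h * Real.log M with hg
  have hg0 : 0 < g := by linarith
  set ε : ℝ := g / (2 * (a ^ 2 + H ^ 2 + 1)) with hε
  have hε0 : 0 < ε := by positivity
  have hεg : ε * (a ^ 2 + H ^ 2) < g := by
    have : ε * (2 * (a ^ 2 + H ^ 2 + 1)) = g := by rw [hε]; field_simp
    nlinarith [sq_nonneg a, sq_nonneg H]
  obtain ⟨z₀, hz01, hz02, hcase, hmax⟩ := max_front hf m hh.le hε0 ha.le (by linarith : -H ≤ H)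
  have hn0 : ‖z₀‖ ^ 2 ≤ a ^ 2 + H ^ 2 := by
    rw [Complex.sq_norm, Complex.normSq_apply]
    have h1 := hz01.1
    have h2 := hz01.2
    have h3 := hz02.1
    have h4 := hz02.2
    nlinarith
  have hzz := hmax z hz1 hz2
  have hz0pos : 0 ≤ ε * ‖z‖ ^ 2 := by positivity
  have hlt : h * Real.log M < Um f m h z₀ := by
    have : ε * ‖z₀‖ ^ 2 ≤ ε * (a ^ 2 + H ^ 2) := mul_le_mul_of_nonneg_left hn0 hε0.le
    linarith
  rcases hcase with h1 | h1 | h1 | h1
  · -- left edge
    set y₀ := z₀.im with hy₀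
    have hz₀e : z₀ = (y₀ : ℂ) * I := by
      apply Complex.ext <;> simp [h1, hy₀]
    have h2 := left_excl (f := f) (m := m) hf hh.le (y₀ := y₀) ha (fun x hx => by
      have h3 := hmax ((x : ℂ) + y₀ * I) (by simpa using hx) (by simpa using hz02)
      have h4 : ‖z₀‖ ^ 2 ≤ ‖(x : ℂ) + y₀ * I‖ ^ 2 := by
        rw [hz₀e, Complex.sq_norm, Complex.sq_norm, Complex.normSq_apply, Complex.normSq_apply]
        simp
        nlinarith [mul_self_nonneg x]
      have h5 : ε * ‖z₀‖ ^ 2 ≤ ε * ‖(x : ℂ) + y₀ * I‖ ^ 2 := mul_le_mul_of_nonneg_left h4 hε0.le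
      have h6 : Um f m h (y₀ * I) = Um f m h z₀ := congrArg _ hz₀e.symm
      linarith)
    set A : Set ℝ := {y : ℝ | Real.exp (-m) < ‖f ((y₀ + y : ℝ) * I)‖} with hA
    have hAm : MeasurableSet A := by
      apply measurableSet_lt measurable_const
      have : Continuous (fun y : ℝ => ‖f ((y₀ + y : ℝ) * I)‖) := by
        have := hf.continuous
        fun_prop
      exact this.measurable
    have h3 : ∫ y in Ioc 0 h ∩ A, (logDeriv f ((y₀ + y : ℝ) * I)).re = ∫ y in Ioc 0 h ∩ A, k (y₀ + y) := by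
      refine setIntegral_congr_fun (measurableSet_Ioc.inter hAm) fun y hy => ?_
      have h4 : f ((y₀ + y : ℝ) * I) ≠ 0 := by
        rw [← norm_pos_iff]
        exact (Real.exp_pos _).trans hy.2
      exact (hkf (y₀ + y) ⟨by linarith [hz02.1, hy.1.1], by linarith [hz02.2, hy.1.2]⟩ h4).symm
    rw [h3] at h2
    have hkc : Continuous (fun y => k (y₀ + y)) := by fun_prop
    have h5 : (∫ y in Ioc 0 h ∩ A, k (y₀ + y)) + (∫ y in Ioc 0 h \ A, k (y₀ + y)) = ∫ y in Ioc 0 h, k (y₀ + y) :=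
      integral_inter_add_sdiff hAm hkc.integrableOn_Ioc
    have h6 := hpos y₀ hz02
    rw [intervalIntegral.integral_of_le hh.le] at h6
    have h7 : volume (Ioc 0 h \ A) ≤ ENNReal.ofReal (κ / (2 * (|B| + 1))) := by
      have h8 := hm₁ m hmm₁
      have h9 : Ioc 0 h \ A ⊆ (fun y => y + y₀) ⁻¹' {y : ℝ | y ∈ Icc (-H) (H + h) ∧ ‖f (y * I)‖ ≤ Real.exp (-m)} := by
        intro y hy
        refine ⟨⟨by linarith [hz02.1, hy.1.1], by linarith [hz02.2, hy.1.2]⟩, ?_⟩
        have h10 : ¬ (Real.exp (-m) < ‖f ((y₀ + y : ℝ) * I)‖) := hy.2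
        show ‖f ((y + y₀ : ℝ) * I)‖ ≤ Real.exp (-m)
        rw [add_comm y y₀]
        exact not_lt.1 h10
      refine (measure_mono h9).trans ?_
      rw [measure_preimage_add_right]
      exact h8
    have h8 : ∫ y in Ioc 0 h \ A, k (y₀ + y) ≤ |B| * (κ / (2 * (|B| + 1))) := by
      have h9 := norm_setIntegral_le_of_norm_le_const (μ := volume) (s := Ioc 0 h \ A) (f := fun y => k (y₀ + y))
        (C := |B|) (lt_of_le_of_lt h7 ENNReal.ofReal_lt_top) (fun y hy => (hB (y₀ + y)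
          ⟨by linarith [hz02.1, hy.1.1], by linarith [hz02.2, hy.1.2]⟩).trans (le_abs_self B))
      refine (le_abs_self _).trans (h9.trans ?_)
      apply mul_le_mul_of_nonneg_left _ hB0
      rw [measureReal_def]
      exact ENNReal.toReal_le_of_le_ofReal (by positivity) h7
    have h9 : |B| * (κ / (2 * (|B| + 1))) < κ := by
      rw [← mul_div_assoc, div_lt_iff₀ (by positivity)]
      nlinarith
    linarith
  · have := Um_le_const (m := m) hf.continuous hM hmM hh.le (z := z₀) (fun y hy => hR _ (by simpa using h1) (by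
      simp
      constructor <;> linarith [hz02.1, hz02.2, hy.1, hy.2]))
    linarith
  · have := Um_le_const (m := m) hf.continuous hM hmM hh.le (z := z₀) (fun y hy => hE _ (by simpa using hz01) (by
      left
      simp
      constructor <;> linarith [hy.1, hy.2]))
    linarith
  · have := Um_le_const (m := m) hf.continuous hM hmM hh.le (z := z₀) (fun y hy => hE _ (by simpa using hz01) (by
      right
      simp
      constructor <;> linarith [hy.1, hy.2]))
    linarith

end Pool.Agent.V7H88.NF
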