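import Mathlib
import Pool.Agent.V7H88.NF.A2

/-!
The reflected principle and the Dirichlet principle.
-/

set_option autoImplicit false
set_option maxHeartbeats 1000000

open Complex Filter Topology Metric Set MeasureTheory
open scoped ComplexConjugate

namespace Pool.Agent.V7H88.NF

variable {f : ℂ → ℂ} {m h : ℝ}

/-- the reflected function -/
noncomputable def refl (f : ℂ → ℂ) (z : ℂ) : ℂ := conj (f (-conj z))

lemma refl_deriv (hf : Differentiable ℂ f) (z : ℂ) : HasDerivAt (refl f) (-conj (deriv f (-conj z))) z := by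
  have h1 : HasDerivAt (fun w => f (-w)) (-(deriv f (-conj z))) (conj z) := by
    have h2 : HasDerivAt f (deriv f (-conj z)) (-conj z) := (hf _).hasDerivAt
    have h3 := h2.comp (conj z) (hasDerivAt_neg (conj z))
    rw [mul_neg, mul_one] at h3
    exact h3
  have h4 := h1.conj_conj
  rw [Complex.conj_conj] at h4
  refine (h4.congr_deriv (by simp)).congr_of_eventuallyEq (Eventually.of_forall fun w => ?_)
  simp [refl]

lemma refl_diff (hf : Differentiable ℂ f) : Differentiable ℂ (refl f) := fun z => (refl_deriv hf z).differentiableAt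

lemma refl_norm (f : ℂ → ℂ) (z : ℂ) : ‖refl f z‖ = ‖f (-conj z)‖ := RCLike.norm_conj _

lemma refl_axis (f : ℂ → ℂ) (y : ℝ) : refl f (y * I) = conj (f (y * I)) := by
  unfold refl
  simp

lemma refl_log (hf : Differentiable ℂ f) (y : ℝ) : (logDeriv (refl f) (y * I)).re = -(logDeriv f (y * I)).re := by
  have e : -(conj ((y : ℂ) * I)) = (y : ℂ) * I := by simp
  rw [logDeriv_apply, logDeriv_apply, (refl_deriv hf _).deriv, refl_axis, e, neg_div, Complex.neg_re, ← map_div₀,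
    Complex.conj_re]

lemma refl_Um (f : ℂ → ℂ) (m h : ℝ) (z : ℂ) : Um (refl f) m h z = Um f m h (-conj z) := by
  unfold Um
  refine intervalIntegral.integral_congr fun y _ => ?_
  show um (refl f) m (z + y * I) = um f m (-conj z + y * I)
  unfold um
  rw [refl_norm]
  congr 4
  simp
  ring

/-- **the Neumann principle on the left of a line** -/
theorem neumann_left (hf : Differentiable ℂ f) {a H : ℝ} (ha : 0 < a) (hH : 0 ≤ H) (hh : 0 < h) {k : ℝ → ℝ}
    (hk : Continuous k)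
    (hkf : ∀ y ∈ Icc (-H) (H + h), f (y * I) ≠ 0 → k y = (logDeriv f (y * I)).re)
    (hfin : {y : ℝ | y ∈ Icc (-H) (H + h) ∧ f (y * I) = 0}.Finite)
    {κ : ℝ} (hκ : 0 < κ) (hneg : ∀ s ∈ Icc (-H) H, ∫ y in (0:ℝ)..h, k (s + y) ≤ -κ) {M : ℝ} (hM : 0 < M)
    (hR : ∀ z : ℂ, z.re = -a → z.im ∈ Icc (-H) (H + h) → ‖f z‖ ≤ M)
    (hE : ∀ z : ℂ, z.re ∈ Icc (-a) 0 → (z.im ∈ Icc (-H) (-H + h) ∨ z.im ∈ Icc H (H + h)) → ‖f z‖ ≤ M) :
    ∃ m₀ : ℝ, ∀ m : ℝ, m₀ ≤ m → ∀ z : ℂ, z.re ∈ Icc (-a) 0 → z.im ∈ Icc (-H) H → Um f m h z ≤ h * Real.log M := by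
  have hz0 : ∀ y : ℝ, refl f (y * I) = 0 ↔ f (y * I) = 0 := fun y => by
    rw [refl_axis, map_eq_zero]
  obtain ⟨m₀, hm₀⟩ := neumann_avg (refl_diff hf) (h := h) ha hH hh (k := fun y => -k y) hk.neg (by
    intro y hy hne
    rw [refl_log hf, ← hkf y hy (fun h0 => hne ((hz0 y).2 h0))]) (by
    simpa only [hz0] using hfin) hκ (by
    intro s hs
    rw [intervalIntegral.integral_neg]
    linarith [hneg s hs]) hM (by
    intro z h1 h2
    rw [refl_norm]
    exact hR _ (by simpa using h1) (by simpa using h2)) (by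
    intro z h1 h2
    rw [refl_norm]
    exact hE _ (by simp; exact ⟨h1.2, h1.1⟩) (by simpa using h2))
  refine ⟨m₀, fun m hm z h1 h2 => ?_⟩
  have h3 := hm₀ m hm (-conj z) (by simp; exact ⟨h1.2, by linarith [h1.1]⟩) (by simpa using h2)
  rw [refl_Um] at h3
  simpa using h3

/-- the Dirichlet principle -/
theorem dir_avg (hf : Differentiable ℂ f) (hh : 0 ≤ h) {x₁ x₂ y₁ y₂ N : ℝ} (hx : x₁ ≤ x₂) (hy : y₁ ≤ y₂)
    (hb : ∀ z : ℂ, z.re ∈ Icc x₁ x₂ → z.im ∈ Icc y₁ y₂ → (z.re = x₁ ∨ z.re = x₂ ∨ z.im = y₁ ∨ z.im = y₂) →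
      Um f m h z ≤ N) : ∀ z : ℂ, z.re ∈ Icc x₁ x₂ → z.im ∈ Icc y₁ y₂ → Um f m h z ≤ N := by
  intro z hz1 hz2
  by_contra hcon
  push Not at hcon
  set B : ℝ := x₁ ^ 2 + x₂ ^ 2 + y₁ ^ 2 + y₂ ^ 2 + 1 with hB
  have hB0 : 0 < B := by positivity
  set g : ℝ := Um f m h z - N with hg
  have hg0 : 0 < g := by linarith
  have hε0 : 0 < g / (2 * B) := by positivity
  obtain ⟨z₀, hz01, hz02, hcase, hmax⟩ := max_front hf m hh hε0 hx hy
  have hn0 : ‖z₀‖ ^ 2 ≤ B := by
    rw [Complex.sq_norm, Complex.normSq_apply]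
    have h1 : z₀.re * z₀.re ≤ x₁ ^ 2 + x₂ ^ 2 := by
      rcases le_total 0 z₀.re with h | h
      · nlinarith [hz01.2, sq_nonneg x₁]
      · nlinarith [hz01.1, sq_nonneg x₂]
    have h2 : z₀.im * z₀.im ≤ y₁ ^ 2 + y₂ ^ 2 := by
      rcases le_total 0 z₀.im with h | h
      · nlinarith [hz02.2, sq_nonneg y₁]
      · nlinarith [hz02.1, sq_nonneg y₂]
    linarith
  have h3 := hmax z hz1 hz2
  have h4 := hb z₀ hz01 hz02 hcase
  have h5 : g / (2 * B) * ‖z₀‖ ^ 2 ≤ g / (2 * B) * B := mul_le_mul_of_nonneg_left hn0 hε0.le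
  have h6 : g / (2 * B) * B = g / 2 := by field_simp
  have h7 : 0 ≤ g / (2 * B) * ‖z‖ ^ 2 := by positivity
  linarith

lemma Um_anti (hf : Continuous f) {m m' : ℝ} (hm : m ≤ m') (hh : 0 ≤ h) (z : ℂ) : Um f m' h z ≤ Um f m h z := by
  have h1 := um_cont hf m
  have h2 := um_cont hf m'
  unfold Um
  refine intervalIntegral.integral_mono_on hh (Continuous.intervalIntegrable (by fun_prop) _ _)
    (Continuous.intervalIntegrable (by fun_prop) _ _) fun y _ => ?_
  apply Real.log_le_log (mx_pos _ _ _)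
  exact max_le_max le_rfl (Real.exp_le_exp.2 (by linarith))

end Pool.Agent.V7H88.NF
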