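import Mathlib
import Pool.Agent.V7H88.NF.A3
import Pool.Agent.V7H88.NM.C
import Pool.Agent.V7H83.CZ.J

/-!
Facts about the L-functions, uniform in the conductor.
-/

set_option autoImplicit false
set_option maxHeartbeats 1000000

open Complex Filter Topology Metric Set MeasureTheory

namespace Pool.Agent.V7H88.NF

open Pool.Agent.V7H83.CZ Pool.Agent.V7H89.GL Pool.Agent.W169.HF H353.E H353.F

/-- minus the real part of the logarithmic derivative -/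
noncomputable def Dl (L : ℂ → ℂ) (σ t : ℝ) : ℝ := -(logDeriv L ⟨σ, t⟩).re

variable {m : ℕ} {θ : ℝ}

lemma norm_le_exp_posLog (x : ℝ) : x ≤ Real.exp (Real.posLog x) := by
  rcases le_or_gt x 0 with h | h
  · exact h.trans (Real.exp_pos _).le
  · have h1 : Real.log x ≤ Real.posLog x := le_max_right _ _
    calc x = Real.exp (Real.log x) := (Real.exp_log h).symm
      _ ≤ _ := Real.exp_le_exp.2 h1

/-- the basic facts -/
theorem factsM (hm : 1 ≤ m) (hθ0 : 0 ≤ θ) (hθ : θ < 1 / 2) : ∃ A : ℝ, 1 ≤ A ∧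
    ∀ (L : ℂ → ℂ) (Q : ℝ → ℝ), Mem θ m L Q → Differentiable ℂ L ∧ (∀ T : ℝ, 1 ≤ Q T) ∧
      (∀ (T : ℝ) (s : ℂ), 1 / 2 ≤ s.re →
        ‖L (s + T * I)‖ ≤ Real.exp (A + Real.log (Q T) + m * Real.log (‖s‖ + 1))) ∧
      (∀ s : ℂ, 2 ≤ s.re → ‖L s‖ ≤ A ∧ A⁻¹ ≤ ‖L s‖) ∧
      (∀ T v : ℝ, Real.log (Q (T + v)) ≤ Real.log (Q T) + m * |v|) := by
  obtain ⟨A, hA, HF⟩ := factsMem hm hθ0 hθ
  obtain ⟨B, hB, HB⟩ := base2 hm hθ0 hθ
  refine ⟨max A B, le_max_of_le_left hA, ?_⟩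
  rintro L Q ⟨N, μ, α, ε, Λ, hD, rfl, rfl⟩
  obtain ⟨h1, h2, h3, h4, h5⟩ := HF _ _ ⟨N, μ, α, ε, Λ, hD, rfl, rfl⟩
  refine ⟨h1, h2, fun T s hs => ?_, fun s hs => ?_, h5⟩
  · refine (norm_le_exp_posLog _).trans (Real.exp_le_exp.2 ((h3 T s hs).trans ?_))
    linarith [le_max_left A B]
  · obtain ⟨h6, h7⟩ := HB N μ α ε Λ hD s (by linarith)
    refine ⟨h6.trans (le_max_right _ _), le_trans ?_ h7⟩
    exact inv_anti₀ (by linarith) (le_max_right _ _)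

/-- the bound near the edge of the strip -/
theorem edgeM (hm : 1 ≤ m) (hθ0 : 0 ≤ θ) (hθ : θ < 1 / 2) {κ V : ℝ} (hκ : 0 < κ) (hV : 0 ≤ V) :
    ∃ Q0 : ℝ, 1 < Q0 ∧ ∀ (L : ℂ → ℂ) (Q : ℝ → ℝ), Mem θ m L Q → ∀ T : ℝ, Q0 ≤ Q T →
      ∀ s : ℂ, 1 + κ ≤ s.re → |s.im - T| ≤ V → ‖L s‖ ≤ Q T ^ κ := by
  have hm' : (1 : ℝ) ≤ m := by exact_mod_cast hm
  obtain ⟨K, hK, HB⟩ := base hm hθ0 hθ
  obtain ⟨A, hA, HA⟩ := factsM hm hθ0 hθ
  obtain ⟨κ1, hκ1d⟩ : ∃ κ1 : ℝ, κ1 = min (κ / 2) 1 := ⟨_, rfl⟩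
  have hκ1 : 0 < κ1 := by rw [hκ1d]; exact lt_min (by positivity) one_pos
  have hκ1a : κ1 ≤ κ / 2 := by rw [hκ1d]; exact min_le_left _ _
  have hκ1b : κ1 ≤ 1 := by rw [hκ1d]; exact min_le_right _ _
  obtain ⟨R4, ℓc, hR4, HP⟩ := prof_all K (1 + θ) (1 / 2) κ1 κ1 (V + 2) hK (by linarith)
    (by linarith) (by norm_num) (by linarith) hκ1 hκ1b hκ1 (by linarith)
  obtain ⟨c, hc⟩ : ∃ c : ℝ, c = 15 * (m : ℝ) := ⟨_, rfl⟩
  have hc0 : 0 < c := by rw [hc]; positivity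
  obtain ⟨K2, hK2⟩ : ∃ K2 : ℝ, K2 = K * (1 + (4 + V ^ 2)) := ⟨_, rfl⟩
  have hK20 : 0 < K2 := by rw [hK2]; positivity
  refine ⟨Real.exp (max (max (2 * |ℓc| + c) (A / κ)) (max c (max ((c + 2 * K2) / (κ / 2)) 1))), ?_, ?_⟩
  · apply Real.one_lt_exp_iff.2
    have := (le_max_right ((c + 2 * K2) / (κ / 2)) 1).trans ((le_max_right c _).trans
      (le_max_right (max (2 * |ℓc| + c) (A / κ)) _))
    linarith
  rintro L Q hMem T hT s hs1 hs2
  obtain ⟨-, hQ1, -, hfar, -⟩ := HA L Q hMem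
  obtain ⟨N, μ, α, w, Λ, D, rfl, rfl⟩ := hMem
  have hN := D.d.one_le
  obtain ⟨hCl, hne, HU⟩ := HB N μ α w Λ D
  obtain ⟨hud, hgam, hl1, hl2, hc1, hfne⟩ := HU T
  obtain ⟨ℓ, hℓd⟩ : ∃ ℓ : ℝ, ℓ = el N μ T := ⟨_, rfl⟩
  rw [← hℓd] at hud hgam hl1 hl2
  have hG := hud.hG
  obtain ⟨L, hL⟩ : ∃ L : ℝ, L = Real.log (cq N μ T) := ⟨_, rfl⟩
  have hcnd0 : 0 < cq N μ T := by linarith
  have hLge : max (max (2 * |ℓc| + c) (A / κ)) (max c (max ((c + 2 * K2) / (κ / 2)) 1)) ≤ L := by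
    have := Real.log_le_log (Real.exp_pos _) hT
    rwa [Real.log_exp, ← hL] at this
  have hLa : 2 * |ℓc| + c ≤ L := ((le_max_left _ _).trans (le_max_left _ _)).trans hLge
  have hLb : A / κ ≤ L := ((le_max_right _ _).trans (le_max_left _ _)).trans hLge
  have hLc : c ≤ L := ((le_max_left _ _).trans (le_max_right _ _)).trans hLge
  have hLd : (c + 2 * K2) / (κ / 2) ≤ L :=
    ((le_max_left _ _).trans ((le_max_right _ _).trans (le_max_right _ _))).trans hLge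
  have hLe : 1 ≤ L := ((le_max_right _ _).trans ((le_max_right _ _).trans (le_max_right _ _))).trans hLge
  rw [← hL, ← hc] at hl1 hl2
  have hpow : cq N μ T ^ κ = Real.exp (L * κ) := by rw [Real.rpow_def_of_pos hcnd0, ← hL]
  rw [hpow]
  rcases le_or_gt 2 s.re with h2 | h2
  · refine (hfar s h2).1.trans ?_
    rw [div_le_iff₀ hκ] at hLb
    have := Real.add_one_le_exp (L * κ)
    linarith
  · have hℓc : ℓc ≤ ℓ := by linarith [le_abs_self ℓc]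
    have hpf := HP ℓ (GG θ N μ T) (ff N Λ T) hℓc hud (fun u hu _ => hfne u hu)
    obtain ⟨u, hu⟩ : ∃ u : ℂ, u = s - (1 / 2 + T * I) := ⟨_, rfl⟩
    have hure : u.re = s.re - 1 / 2 := by rw [hu]; simp
    have huim : u.im = s.im - T := by rw [hu]; simp
    have hs2' := abs_le.1 hs2
    have h3 := hpf.upp u (by rw [hure, abs_le]; constructor <;> linarith) (by rw [huim]; linarith)
    rw [abs_of_nonneg (by rw [hure]; linarith : 0 ≤ u.re), max_eq_left (by rw [hure]; linarith)] at h3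
    obtain ⟨hg1, -⟩ := hgam u (by rw [hure]; linarith)
    have h4 := LL_norm hG hg1 h3
    have e : (1 / 2 + T * I + u : ℂ) = s := by rw [hu]; ring
    rw [e] at h4
    refine h4.trans (Real.exp_le_exp.2 ?_)
    have hun : ‖u‖ ^ 2 ≤ 4 + V ^ 2 := by
      rw [Complex.sq_norm, Complex.normSq_apply]
      have h5 : u.re * u.re ≤ 4 := by rw [hure]; nlinarith
      have h6 : u.im * u.im ≤ V ^ 2 := by
        rw [huim, ← abs_mul_abs_self, sq]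
        exact mul_le_mul hs2 hs2 (abs_nonneg _) hV
      linarith
    have h5 : K * (1 + ‖u‖ ^ 2) ≤ K2 := by
      rw [hK2]
      exact mul_le_mul_of_nonneg_left (by linarith) (by linarith)
    have hℓ0 : 0 ≤ ℓ := by linarith
    have h6 : κ1 * ℓ ≤ κ / 2 * L := by
      calc κ1 * ℓ ≤ κ / 2 * ℓ := mul_le_mul_of_nonneg_right hκ1a hℓ0
        _ ≤ κ / 2 * L := mul_le_mul_of_nonneg_left (by linarith) (by linarith)
    rw [div_le_iff₀ (by positivity)] at hLd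
    linarith

/-- the continuous version of the logarithmic derivative on a line -/
lemma k_line {L : ℂ → ℂ} (hd : Differentiable ℂ L) (h2 : ∀ s : ℂ, 2 ≤ s.re → L s ≠ 0) (σ₀ : ℝ) {a b : ℝ}
    (hab : a ≤ b) : ∃ k : ℝ → ℝ, Continuous k ∧
      (∀ y ∈ Icc a b, L ⟨σ₀, y⟩ ≠ 0 → k y = (logDeriv L ⟨σ₀, y⟩).re) ∧
      {y : ℝ | y ∈ Icc a b ∧ L ⟨σ₀, y⟩ = 0}.Finite := by
  set r : ℝ := |σ₀ - 2| + (b - a) + 1 with hr
  have hr0 : 0 < r := by positivity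
  obtain ⟨B, hB⟩ := (isCompact_closedBall (⟨2, a⟩ : ℂ) (r + 1)).exists_bound_of_continuousOn
    hd.continuous.continuousOn
  refine NM.k_exists (c := ⟨2, a⟩) (r := r) (R := r + 1) (M := max B 1) hr0 (by linarith) (le_max_right _ _)
    (fun z _ => hd.analyticAt z) (h2 _ (by show (2:ℝ) ≤ 2; exact le_rfl))
    (fun z hz => (hB z hz).trans (le_max_left _ _)) hab ?_
  intro y hy
  rw [mem_closedBall, dist_eq_norm]
  refine (Complex.norm_le_abs_re_add_abs_im _).trans ?_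
  have e1 : ((⟨σ₀, y⟩ : ℂ) - ⟨2, a⟩).re = σ₀ - 2 := rfl
  have e2 : ((⟨σ₀, y⟩ : ℂ) - ⟨2, a⟩).im = y - a := rfl
  rw [e1, e2]
  have h3 : |y - a| ≤ b - a := by rw [abs_le]; constructor <;> linarith [hy.1, hy.2]
  linarith

/-- the integral of `Dl` through the continuous version -/
lemma D_int {L : ℂ → ℂ} {k : ℝ → ℝ} (hk : Continuous k) {σ₀ a b : ℝ}
    (hkf : ∀ y ∈ Icc a b, L ⟨σ₀, y⟩ ≠ 0 → k y = (logDeriv L ⟨σ₀, y⟩).re)
    (hfin : {y : ℝ | y ∈ Icc a b ∧ L ⟨σ₀, y⟩ = 0}.Finite) {s h : ℝ} (hh : 0 ≤ h) (h1 : a ≤ s) (h2 : s + h ≤ b) :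
    IntervalIntegrable (Dl L σ₀) volume s (s + h) ∧
      ∫ t in s..(s + h), Dl L σ₀ t = -∫ y in (0:ℝ)..h, k (s + y) := by
  have hae : ∀ᵐ y ∂(volume : Measure ℝ), y ∈ Ioc s (s + h) → -k y = Dl L σ₀ y := by
    have h3 : ∀ᵐ y ∂(volume : Measure ℝ), y ∉ {y : ℝ | y ∈ Icc a b ∧ L ⟨σ₀, y⟩ = 0} :=
      (compl_mem_ae_iff.2 (hfin.measure_zero volume))
    filter_upwards [h3] with y hy hyI
    have hyab : y ∈ Icc a b := ⟨by linarith [hyI.1], by linarith [hyI.2]⟩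
    rw [Dl, hkf y hyab fun h0 => hy ⟨hyab, h0⟩]
  have hae' : ∀ᵐ y ∂(volume : Measure ℝ), y ∈ Set.uIoc s (s + h) → -k y = Dl L σ₀ y := by
    rw [Set.uIoc_of_le (by linarith)]
    exact hae
  constructor
  · have h4 : IntervalIntegrable (fun y => -k y) volume s (s + h) := hk.neg.intervalIntegrable _ _
    refine h4.congr_ae ?_
    rw [Filter.EventuallyEq, ae_restrict_iff' measurableSet_uIoc]
    exact hae'
  · rw [← intervalIntegral.integral_congr_ae hae', intervalIntegral.integral_neg,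
      intervalIntegral.integral_comp_add_left (fun y => k y) s, add_zero]

end Pool.Agent.V7H88.NF
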