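import Mathlib
import Pool.Agent.V7H88.NF.B

/-!
The averaged law.
-/

set_option autoImplicit false
set_option maxHeartbeats 1000000

open Complex Filter Topology Metric Set MeasureTheory

namespace Pool.Agent.V7H88.NF

open Pool.Agent.V7H83.CZ Pool.Agent.V7H89.GL Pool.Agent.W169.HF H353.E H353.F

/-- the localized function -/
noncomputable def Fg (L : ℂ → ℂ) (σ₀ T α K : ℝ) (z : ℂ) : ℂ :=
  L (⟨σ₀, T⟩ + z) * cexp ((α : ℂ) * z + (K : ℂ) * z ^ 2)

lemma Fg_diff {L : ℂ → ℂ} (hd : Differentiable ℂ L) (σ₀ T α K : ℝ) : Differentiable ℂ (Fg L σ₀ T α K) := by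
  unfold Fg
  exact (hd.comp (by fun_prop)).mul (by fun_prop)

lemma Fg_norm (L : ℂ → ℂ) (σ₀ T α K : ℝ) (z : ℂ) :
    ‖Fg L σ₀ T α K z‖ = ‖L (⟨σ₀, T⟩ + z)‖ * Real.exp (α * z.re + K * (z.re ^ 2 - z.im ^ 2)) := by
  unfold Fg
  rw [norm_mul, Complex.norm_exp]
  congr 2
  rw [Complex.add_re, Complex.re_ofReal_mul, Complex.re_ofReal_mul, pow_two, Complex.mul_re]
  ring

lemma axis_eq (σ₀ T y : ℝ) : (⟨σ₀, T⟩ : ℂ) + y * I = ⟨σ₀, T + y⟩ := by
  apply Complex.ext <;> simp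

lemma Fg_zero (L : ℂ → ℂ) (σ₀ T α K y : ℝ) : Fg L σ₀ T α K (y * I) = 0 ↔ L ⟨σ₀, T + y⟩ = 0 := by
  unfold Fg
  rw [axis_eq, mul_eq_zero]
  simp [Complex.exp_ne_zero]

lemma Fg_log {L : ℂ → ℂ} (hd : Differentiable ℂ L) (σ₀ T α K y : ℝ) (hne : L ⟨σ₀, T + y⟩ ≠ 0) :
    (logDeriv (Fg L σ₀ T α K) (y * I)).re = (logDeriv L ⟨σ₀, T + y⟩).re + α := by
  have h1 : HasDerivAt (fun z : ℂ => L (⟨σ₀, T⟩ + z)) (deriv L ⟨σ₀, T + y⟩) (y * I) := by
    have h2 : HasDerivAt L (deriv L ⟨σ₀, T + y⟩) ((⟨σ₀, T⟩ : ℂ) + y * I) := by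
      rw [axis_eq]
      exact (hd _).hasDerivAt
    exact HasDerivAt.comp_const_add _ _ h2
  have h3 : HasDerivAt (fun z : ℂ => cexp ((α : ℂ) * z + (K : ℂ) * z ^ 2))
      (cexp ((α : ℂ) * (y * I) + (K : ℂ) * (y * I) ^ 2) * ((α : ℂ) + (K : ℂ) * (2 * (y * I)))) (y * I) := by
    have h4 : HasDerivAt (fun z : ℂ => (α : ℂ) * z + (K : ℂ) * z ^ 2) ((α : ℂ) + (K : ℂ) * (2 * (y * I))) (y * I) := by
      have h5 : HasDerivAt (fun z : ℂ => (α : ℂ) * z) (α : ℂ) (y * I) := by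
        simpa using (hasDerivAt_id ((y : ℂ) * I)).const_mul (α : ℂ)
      have h6 : HasDerivAt (fun z : ℂ => (K : ℂ) * z ^ 2) ((K : ℂ) * (2 * (y * I))) (y * I) := by
        simpa using (hasDerivAt_pow 2 ((y : ℂ) * I)).const_mul (K : ℂ)
      exact h5.add h6
    exact h4.cexp
  have h7 : HasDerivAt (Fg L σ₀ T α K) _ (y * I) := h1.mul h3
  rw [logDeriv_apply, h7.deriv]
  unfold Fg
  rw [axis_eq, logDeriv_apply]
  have hE : cexp ((α : ℂ) * (y * I) + (K : ℂ) * (y * I) ^ 2) ≠ 0 := Complex.exp_ne_zero _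
  have e : (deriv L ⟨σ₀, T + y⟩ * cexp ((α : ℂ) * (y * I) + (K : ℂ) * (y * I) ^ 2) +
      L ⟨σ₀, T + y⟩ * (cexp ((α : ℂ) * (y * I) + (K : ℂ) * (y * I) ^ 2) * ((α : ℂ) + (K : ℂ) * (2 * (y * I))))) /
      (L ⟨σ₀, T + y⟩ * cexp ((α : ℂ) * (y * I) + (K : ℂ) * (y * I) ^ 2)) =
      deriv L ⟨σ₀, T + y⟩ / L ⟨σ₀, T + y⟩ + ((α : ℂ) + (K : ℂ) * (2 * (y * I))) := by
    field_simp
  rw [e, Complex.add_re, Complex.add_re, Complex.ofReal_re]
  have e2 : ((K : ℂ) * (2 * (y * I))).re = 0 := by simp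
  rw [e2, add_zero]

lemma Fg_um (L : ℂ → ℂ) (σ₀ T α K : ℝ) (z : ℂ) {m m' : ℝ}
    (hm : m + (α * z.re + K * (z.re ^ 2 - z.im ^ 2)) ≤ m') :
    um L m' (⟨σ₀, T⟩ + z) + (α * z.re + K * (z.re ^ 2 - z.im ^ 2)) ≤ um (Fg L σ₀ T α K) m z := by
  set E := α * z.re + K * (z.re ^ 2 - z.im ^ 2) with hE
  unfold um
  rw [Fg_norm, ← hE]
  set x := ‖L (⟨σ₀, T⟩ + z)‖ with hx
  have h1 : Real.log (max x (Real.exp (-m'))) + E = Real.log (max x (Real.exp (-m')) * Real.exp E) := by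
    rw [Real.log_mul (lt_max_of_lt_right (Real.exp_pos _)).ne' (Real.exp_pos _).ne', Real.log_exp]
  rw [h1]
  apply Real.log_le_log (by
    have : 0 < max x (Real.exp (-m')) := lt_max_of_lt_right (Real.exp_pos _)
    positivity)
  rw [max_mul_of_nonneg _ _ (Real.exp_pos _).le]
  apply max_le_max le_rfl
  rw [← Real.exp_add]
  exact Real.exp_le_exp.2 (by linarith)

/-- from the localized function to the function -/
lemma Fg_Um {L : ℂ → ℂ} (hd : Differentiable ℂ L) {σ₀ T α K m m' h C : ℝ} (hh : 0 ≤ h) (z : ℂ)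
    (hm : ∀ y ∈ Icc 0 h, m + (α * z.re + K * (z.re ^ 2 - (z.im + y) ^ 2)) ≤ m')
    (hC : ∀ y ∈ Icc 0 h, C ≤ α * z.re + K * (z.re ^ 2 - (z.im + y) ^ 2)) :
    Um L m' h (⟨σ₀, T⟩ + z) + h * C ≤ Um (Fg L σ₀ T α K) m h z := by
  have h1 := um_cont hd.continuous m'
  have h2 := um_cont (Fg_diff hd σ₀ T α K).continuous m
  have e1 : h * C = ∫ y in (0:ℝ)..h, C := by
    rw [intervalIntegral.integral_const, smul_eq_mul, sub_zero]
  unfold Um
  rw [e1, ← intervalIntegral.integral_add (Continuous.intervalIntegrable (by fun_prop) _ _)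
    intervalIntegrable_const]
  refine intervalIntegral.integral_mono_on hh (Continuous.intervalIntegrable (by fun_prop) _ _)
    (Continuous.intervalIntegrable (by fun_prop) _ _) fun y hy => ?_
  have h3 := Fg_um L σ₀ T α K (z + y * I) (m := m) (m' := m') (by simpa using hm y hy)
  have h4 := hC y hy
  have e2 : (⟨σ₀, T⟩ : ℂ) + z + y * I = ⟨σ₀, T⟩ + (z + y * I) := by ring
  rw [e2]
  have e3 : (z + (y : ℂ) * I).re = z.re := by simp
  have e4 : (z + (y : ℂ) * I).im = z.im + y := by simp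
  rw [e3, e4] at h3
  linarith

variable {m : ℕ} {θ : ℝ}

/-- **the averaged law**: if the mean of `Dl` over all windows of length `h` near `T` on one line is at most
`q log Q`, then the mean of `log |L|` over the windows on the lines to the right is at most `q (1 - σ) log Q` -/
theorem avg_law (hm : 1 ≤ m) (hθ0 : 0 ≤ θ) (hθ : θ < 1 / 2) {h ε q V : ℝ} (hh : 0 < h) (hε : 0 < ε) (hq : 0 ≤ q)
    (hV : 0 ≤ V) : ∃ η H Q0 : ℝ, 0 < η ∧ 0 < H ∧ 1 < Q0 ∧ ∀ (L : ℂ → ℂ) (Q : ℝ → ℝ), Mem θ m L Q → ∀ T : ℝ,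
      Q0 ≤ Q T → ∀ σ₀ : ℝ, 1 / 2 ≤ σ₀ → σ₀ ≤ 1 →
      (∀ s : ℝ, |s - T| ≤ H → ∫ t in s..(s + h), Dl L σ₀ t ≤ (q + η) * h * Real.log (Q T)) →
      ∃ m₀ : ℝ, ∀ z : ℂ, σ₀ ≤ z.re → |z.im - T| ≤ V →
        Um L m₀ h z ≤ (q * max (1 - z.re) 0 + ε) * h * Real.log (Q T) := by
  have hm' : (1 : ℝ) ≤ m := by exact_mod_cast hm
  obtain ⟨ε₂, hε₂⟩ : ∃ ε₂ : ℝ, ε₂ = min (1 / 2) (ε / (8 * (q + 1))) := ⟨_, rfl⟩
  have hε₂0 : 0 < ε₂ := by rw [hε₂]; exact lt_min (by norm_num) (by positivity)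
  have hε₂1 : ε₂ ≤ 1 / 2 := by rw [hε₂]; exact min_le_left _ _
  have hε₂2 : ε₂ ≤ ε / (8 * (q + 1)) := by rw [hε₂]; exact min_le_right _ _
  have hε₂3 : q * ε₂ + ε₂ ≤ ε / 8 := by
    calc q * ε₂ + ε₂ = (q + 1) * ε₂ := by ring
      _ ≤ (q + 1) * (ε / (8 * (q + 1))) := mul_le_mul_of_nonneg_left hε₂2 (by linarith)
      _ = ε / 8 := by field_simp
  obtain ⟨X, hX⟩ : ∃ X : ℝ, X = 1 + 36 / ε + 16 * (V + h) ^ 2 / ε + V := ⟨_, rfl⟩
  have hX1 : 1 ≤ X := by
    rw [hX]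
    have : 0 ≤ 36 / ε := by positivity
    have : 0 ≤ 16 * (V + h) ^ 2 / ε := by positivity
    linarith
  have hXX : X ≤ X ^ 2 := by nlinarith
  have hX2 : 36 ≤ ε * X ^ 2 := by
    have h1 : 36 / ε ≤ X := by
      rw [hX]
      have : 0 ≤ 16 * (V + h) ^ 2 / ε := by positivity
      linarith
    rw [div_le_iff₀ hε] at h1
    nlinarith
  have hX3 : 16 * (V + h) ^ 2 ≤ ε * X ^ 2 := by
    have h1 : 16 * (V + h) ^ 2 / ε ≤ X := by
      rw [hX]
      have : 0 ≤ 36 / ε := by positivity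
      linarith
    rw [div_le_iff₀ hε] at h1
    nlinarith
  have hXV : V ≤ X := by
    rw [hX]
    have : 0 ≤ 36 / ε := by positivity
    have : 0 ≤ 16 * (V + h) ^ 2 / ε := by positivity
    linarith
  obtain ⟨H, hH⟩ : ∃ H : ℝ, H = X + h := ⟨_, rfl⟩
  have hH0 : 0 < H := by rw [hH]; linarith
  obtain ⟨η, hη⟩ : ∃ η : ℝ, η = ε / 32 := ⟨_, rfl⟩
  have hη0 : 0 < η := by rw [hη]; positivity
  obtain ⟨A, hA, HA⟩ := factsM hm hθ0 hθ
  obtain ⟨Q1, hQ1, HE⟩ := edgeM hm hθ0 hθ (κ := ε₂) (V := H + h) hε₂0 (by positivity)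
  obtain ⟨CH, hCH⟩ : ∃ CH : ℝ, CH = A + m * Real.log (5 + H + h) := ⟨_, rfl⟩
  have hCH0 : 0 ≤ CH := by
    rw [hCH]
    have : 0 ≤ Real.log (5 + H + h) := Real.log_nonneg (by linarith)
    positivity
  refine ⟨η, H, max Q1 (Real.exp (CH + 16 / ε)), hη0, hH0, lt_max_of_lt_left hQ1, ?_⟩
  intro L Q hMem T hQT σ₀ h0 h1 hwin
  obtain ⟨hd, hQge, hgr, hfar, -⟩ := HA L Q hMem
  have hedge := HE L Q hMem T ((le_max_left _ _).trans hQT)
  have hQT0 : 0 < Q T := by linarith [hQge T]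
  obtain ⟨Λ, hΛ⟩ : ∃ Λ : ℝ, Λ = Real.log (Q T) := ⟨_, rfl⟩
  rw [← hΛ] at hwin ⊢
  have hΛge : CH + 16 / ε ≤ Λ := by
    have h2 := (le_max_right _ _).trans hQT
    have := Real.log_le_log (Real.exp_pos _) h2
    rwa [Real.log_exp, ← hΛ] at this
  have h16 : 0 < 16 / ε := by positivity
  have hΛ0 : 0 < Λ := by linarith
  have hΛC : CH ≤ Λ := by linarith
  have hΛε : 16 ≤ ε * Λ := by
    have : 16 / ε ≤ Λ := by linarith
    rw [div_le_iff₀ hε] at this
    linarith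
  have hpow : Q T ^ ε₂ = Real.exp (ε₂ * Λ) := by
    rw [Real.rpow_def_of_pos hQT0, ← hΛ, mul_comm]
  obtain ⟨a, ha⟩ : ∃ a : ℝ, a = 1 + ε₂ - σ₀ := ⟨_, rfl⟩
  have ha0 : 0 < a := by linarith
  have ha1 : a ≤ 1 := by linarith
  obtain ⟨α, hα⟩ : ∃ α : ℝ, α = (q + η) * Λ + 1 := ⟨_, rfl⟩
  have hα0 : 0 ≤ α := by rw [hα]; positivity
  obtain ⟨K, hK⟩ : ∃ K : ℝ, K = 2 * Λ / X ^ 2 := ⟨_, rfl⟩
  have hX0 : 0 < X ^ 2 := by positivity
  have hK0 : 0 ≤ K := by rw [hK]; positivity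
  have hKX : K * X ^ 2 = 2 * Λ := by rw [hK]; field_simp
  have hKa : K * a ^ 2 ≤ ε / 8 * Λ := by
    have e1 : a ^ 2 ≤ 1 := by nlinarith
    have e2 : K ≤ ε / 18 * Λ := by
      rw [hK, div_le_iff₀ hX0]
      nlinarith
    nlinarith [sq_nonneg a]
  have hKV : K * (V + h) ^ 2 ≤ ε / 8 * Λ := by
    have e1 : K * (16 * (V + h) ^ 2) ≤ K * (ε * X ^ 2) := mul_le_mul_of_nonneg_left hX3 hK0
    have e2 : K * (ε * X ^ 2) = ε * (2 * Λ) := by rw [← hKX]; ring
    linarith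
  -- the density on the line
  obtain ⟨k, hkc, hkf, hkfin⟩ := k_line hd (fun s hs => by
    rw [← norm_pos_iff]
    exact lt_of_lt_of_le (by positivity) (hfar s hs).2) σ₀ (a := T - H) (b := T + H + h) (by linarith)
  obtain ⟨M, hM⟩ : ∃ M : ℝ, M = Real.exp (ε₂ * Λ + α * a + K * a ^ 2) := ⟨_, rfl⟩
  have hM0 : 0 < M := by rw [hM]; exact Real.exp_pos _
  have hFd := Fg_diff hd σ₀ T α K
  obtain ⟨m₀, hm₀⟩ := neumann_avg hFd (h := h) ha0 hH0.le hh (k := fun y => k (T + y) + α) (by fun_prop) (by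
      intro y hy hne
      have hne' : L ⟨σ₀, T + y⟩ ≠ 0 := fun h0 => hne ((Fg_zero L σ₀ T α K y).2 h0)
      rw [Fg_log hd σ₀ T α K y hne', hkf (T + y) ⟨by linarith [hy.1], by linarith [hy.2]⟩ hne']) (by
      have h2 : {y : ℝ | y ∈ Icc (-H) (H + h) ∧ Fg L σ₀ T α K (y * I) = 0} ⊆
          (fun y => T + y) ⁻¹' {y : ℝ | y ∈ Icc (T - H) (T + H + h) ∧ L ⟨σ₀, y⟩ = 0} := by
        rintro y ⟨hy1, hy2⟩
        exact ⟨⟨by linarith [hy1.1], by linarith [hy1.2]⟩, (Fg_zero L σ₀ T α K y).1 hy2⟩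
      exact (hkfin.preimage (fun x _ y _ hxy => by simpa using hxy)).subset h2) (κ := h) hh (by
      intro s hs
      have h3 := hwin (T + s) (by rw [add_sub_cancel_left, abs_le]; exact ⟨by linarith [hs.1], by linarith [hs.2]⟩)
      obtain ⟨-, h4⟩ := D_int hkc hkf hkfin (s := T + s) (h := h) hh.le (by linarith [hs.1]) (by linarith [hs.2])
      rw [h4] at h3
      rw [intervalIntegral.integral_add (Continuous.intervalIntegrable (by fun_prop) _ _) intervalIntegrable_const,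
        intervalIntegral.integral_const, smul_eq_mul, sub_zero]
      have e1 : ∫ y in (0:ℝ)..h, k (T + (s + y)) = ∫ y in (0:ℝ)..h, k (T + s + y) := by
        refine intervalIntegral.integral_congr fun y _ => ?_
        show k (T + (s + y)) = k (T + s + y)
        rw [add_assoc]
      rw [e1]
      have e2 : h * α = (q + η) * h * Λ + h := by rw [hα]; ring
      linarith) hM0 (by
      intro z hz1 hz2
      rw [Fg_norm, hM]
      have h3 : ‖L (⟨σ₀, T⟩ + z)‖ ≤ Real.exp (ε₂ * Λ) := by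
        rw [← hpow]
        apply hedge
        · rw [Complex.add_re, hz1]
          show 1 + ε₂ ≤ σ₀ + a
          linarith
        · rw [Complex.add_im]
          show |T + z.im - T| ≤ H + h
          rw [add_sub_cancel_left, abs_le]
          constructor <;> linarith [hz2.1, hz2.2]
      have h4 : α * z.re + K * (z.re ^ 2 - z.im ^ 2) ≤ α * a + K * a ^ 2 := by
        rw [hz1]
        have : 0 ≤ K * z.im ^ 2 := by positivity
        linarith
      calc _ ≤ Real.exp (ε₂ * Λ) * Real.exp (α * a + K * a ^ 2) :=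
            mul_le_mul h3 (Real.exp_le_exp.2 h4) (Real.exp_pos _).le (Real.exp_pos _).le
        _ = _ := by rw [← Real.exp_add]; congr 1; ring) (by
      intro z hz1 hz2
      rw [Fg_norm, hM]
      have him : X ≤ |z.im| ∧ |z.im| ≤ H + h := by
        rcases hz2 with h2 | h2
        · have h3 : z.im ≤ -X := by linarith [h2.2]
          have h4 : |z.im| = -z.im := abs_of_nonpos (by linarith)
          rw [h4]
          exact ⟨by linarith, by linarith [h2.1]⟩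
        · have h4 : |z.im| = z.im := abs_of_nonneg (by linarith [h2.1])
          rw [h4]
          exact ⟨by linarith [h2.1], by linarith [h2.2]⟩
      have hsq : X ^ 2 ≤ z.im ^ 2 := by
        rw [← sq_abs z.im]
        exact pow_le_pow_left₀ (by linarith) him.1 2
      have h3 : ‖L (⟨σ₀, T⟩ + z)‖ ≤ Real.exp (CH + Λ) := by
        have h4 := hgr T (⟨σ₀ + z.re, z.im⟩ : ℂ) (by show 1 / 2 ≤ σ₀ + z.re; linarith [hz1.1])
        have e1 : (⟨σ₀ + z.re, z.im⟩ : ℂ) + T * I = ⟨σ₀, T⟩ + z := by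
          apply Complex.ext
          · simp
          · simp; ring
        rw [e1] at h4
        refine h4.trans (Real.exp_le_exp.2 ?_)
        have h5 : ‖(⟨σ₀ + z.re, z.im⟩ : ℂ)‖ + 1 ≤ 5 + H + h := by
          have h6 := Complex.norm_le_abs_re_add_abs_im (⟨σ₀ + z.re, z.im⟩ : ℂ)
          have h7 : |(⟨σ₀ + z.re, z.im⟩ : ℂ).re| ≤ 2 := by
            show |σ₀ + z.re| ≤ 2
            rw [abs_le]
            constructor <;> linarith [hz1.1, hz1.2]
          have h8 : |(⟨σ₀ + z.re, z.im⟩ : ℂ).im| ≤ H + h := him.2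
          linarith
        have h6 : m * Real.log (‖(⟨σ₀ + z.re, z.im⟩ : ℂ)‖ + 1) ≤ m * Real.log (5 + H + h) := by
          apply mul_le_mul_of_nonneg_left _ (by linarith)
          exact Real.log_le_log (by positivity) h5
        rw [hCH, hΛ]
        linarith
      have h4 : α * z.re + K * (z.re ^ 2 - z.im ^ 2) ≤ α * a + K * a ^ 2 - 2 * Λ := by
        have e1 : α * z.re ≤ α * a := mul_le_mul_of_nonneg_left hz1.2 hα0
        have e2 : K * z.re ^ 2 ≤ K * a ^ 2 := by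
          apply mul_le_mul_of_nonneg_left _ hK0
          exact pow_le_pow_left₀ hz1.1 hz1.2 2
        have e3 : K * X ^ 2 ≤ K * z.im ^ 2 := mul_le_mul_of_nonneg_left hsq hK0
        have e4 : K * (z.re ^ 2 - z.im ^ 2) = K * z.re ^ 2 - K * z.im ^ 2 := by ring
        rw [e4]
        linarith
      have h5 : 0 ≤ ε₂ * Λ := by positivity
      calc _ ≤ Real.exp (CH + Λ) * Real.exp (α * a + K * a ^ 2 - 2 * Λ) :=
            mul_le_mul h3 (Real.exp_le_exp.2 h4) (Real.exp_pos _).le (Real.exp_pos _).le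
        _ = Real.exp (CH + Λ + (α * a + K * a ^ 2 - 2 * Λ)) := by rw [← Real.exp_add]
        _ ≤ _ := Real.exp_le_exp.2 (by linarith))
  -- conclusion
  obtain ⟨m₁, hm₁⟩ : ∃ m₁ : ℝ, m₁ = max m₀ 0 + (α * a + K * a ^ 2) := ⟨_, rfl⟩
  have hm₁0 : 0 ≤ m₁ := by
    rw [hm₁]
    have := le_max_right m₀ 0
    positivity
  have hlogM : Real.log M = ε₂ * Λ + α * a + K * a ^ 2 := by rw [hM, Real.log_exp]
  refine ⟨m₁, fun z hz1 hz2 => ?_⟩
  have hz2' := abs_le.1 hz2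
  have hh8 : ε₂ ≤ ε / 8 := by
    have : 0 ≤ q * ε₂ := by positivity
    linarith
  rcases le_or_gt (1 + ε₂) z.re with h2 | h2
  · have h3 := Um_le_const (f := L) (m := m₁) (h := h) (M := Real.exp (ε₂ * Λ)) hd.continuous (Real.exp_pos _)
      (by rw [Real.log_exp]; have : 0 ≤ ε₂ * Λ := by positivity
          linarith) hh.le (z := z) (fun y hy => by
        rw [← hpow]
        apply hedge
        · simpa using h2
        · simp
          rw [abs_le]
          constructor <;> linarith [hy.1, hy.2])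
    rw [Real.log_exp] at h3
    refine h3.trans ?_
    have h4 : 0 ≤ q * max (1 - z.re) 0 := mul_nonneg hq (le_max_right _ _)
    have h5 : h * (ε₂ * Λ) ≤ ε * h * Λ := by
      have : ε₂ * (h * Λ) ≤ ε * (h * Λ) := mul_le_mul_of_nonneg_right (by linarith) (by positivity)
      linarith
    have h6 : 0 ≤ q * max (1 - z.re) 0 * h * Λ := by positivity
    linarith
  · obtain ⟨w, hw⟩ : ∃ w : ℂ, w = z - ⟨σ₀, T⟩ := ⟨_, rfl⟩
    have hwre : w.re = z.re - σ₀ := by rw [hw]; simp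
    have hwim : w.im = z.im - T := by rw [hw]; simp
    have hzw : z = ⟨σ₀, T⟩ + w := by rw [hw]; ring
    have h3 := hm₀ (max m₀ 0) (le_max_left _ _) w ⟨by rw [hwre]; linarith, by rw [hwre]; linarith⟩
      ⟨by rw [hwim]; linarith, by rw [hwim]; linarith⟩
    have h4 := Fg_Um hd (σ₀ := σ₀) (T := T) (α := α) (K := K) (m := max m₀ 0) (m' := m₁)
      (C := α * w.re - K * (V + h) ^ 2) hh.le w (fun y hy => by
        rw [hm₁]
        have e1 : α * w.re ≤ α * a := by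
          apply mul_le_mul_of_nonneg_left _ hα0
          rw [hwre]
          linarith
        have e2 : K * w.re ^ 2 ≤ K * a ^ 2 := by
          apply mul_le_mul_of_nonneg_left _ hK0
          exact pow_le_pow_left₀ (by rw [hwre]; linarith) (by rw [hwre]; linarith) 2
        have e3 : 0 ≤ K * (w.im + y) ^ 2 := by positivity
        linarith) (fun y hy => by
        have e1 : (w.im + y) ^ 2 ≤ (V + h) ^ 2 := by
          apply sq_le_sq'
          · rw [hwim]; linarith [hy.1]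
          · rw [hwim]; linarith [hy.2]
        have e2 : K * (w.im + y) ^ 2 ≤ K * (V + h) ^ 2 := mul_le_mul_of_nonneg_left e1 hK0
        have e3 : 0 ≤ K * w.re ^ 2 := by positivity
        linarith)
    rw [← hzw] at h4
    rw [hlogM] at h3
    -- the arithmetic
    have h5 : Um L m₁ h z ≤ h * (ε₂ * Λ + α * (a - w.re) + K * a ^ 2 + K * (V + h) ^ 2) := by
      have e1 : h * (ε₂ * Λ + α * (a - w.re) + K * a ^ 2 + K * (V + h) ^ 2) =
          h * (ε₂ * Λ + α * a + K * a ^ 2) - h * (α * w.re - K * (V + h) ^ 2) := by ring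
      rw [e1]
      linarith
    refine h5.trans ?_
    have h6 : a - w.re ≤ max (1 - z.re) 0 + ε₂ := by
      rw [hwre, ha]
      have := le_max_left (1 - z.re) 0
      linarith
    have h7 : 0 ≤ a - w.re := by rw [hwre, ha]; linarith
    have h8 : a - w.re ≤ 2 := by rw [hwre, ha]; linarith
    have h9 : α * (a - w.re) ≤ (q * max (1 - z.re) 0 + q * ε₂ + 2 * η) * Λ + 2 := by
      rw [hα]
      have e1 : q * Λ * (a - w.re) ≤ q * Λ * (max (1 - z.re) 0 + ε₂) := mul_le_mul_of_nonneg_left h6 (by positivity)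
      have e2 : η * Λ * (a - w.re) ≤ η * Λ * 2 := mul_le_mul_of_nonneg_left h8 (by positivity)
      have e3 : ((q + η) * Λ + 1) * (a - w.re) = q * Λ * (a - w.re) + η * Λ * (a - w.re) + (a - w.re) := by ring
      rw [e3]
      have e4 : (q * max (1 - z.re) 0 + q * ε₂ + 2 * η) * Λ = q * Λ * (max (1 - z.re) 0 + ε₂) + η * Λ * 2 := by ring
      rw [e4]
      linarith
    have h10 : ε₂ * Λ + α * (a - w.re) + K * a ^ 2 + K * (V + h) ^ 2 ≤ (q * max (1 - z.re) 0 + ε) * Λ := by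
      have e1 : (q * ε₂ + ε₂) * Λ ≤ ε / 8 * Λ := mul_le_mul_of_nonneg_right hε₂3 hΛ0.le
      have e2 : 2 * η * Λ = ε / 16 * Λ := by rw [hη]; ring
      have e3 : 2 ≤ ε / 8 * Λ := by linarith
      have e4 : (q * max (1 - z.re) 0 + q * ε₂ + 2 * η) * Λ =
          q * max (1 - z.re) 0 * Λ + q * ε₂ * Λ + 2 * η * Λ := by ring
      have e5 : 0 ≤ ε * Λ := by positivity
      have e6 : (q * max (1 - z.re) 0 + ε) * Λ = q * max (1 - z.re) 0 * Λ + ε * Λ := by ring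
      rw [e6]
      rw [e4] at h9
      have e7 : (q * ε₂ + ε₂) * Λ = q * ε₂ * Λ + ε₂ * Λ := by ring
      linarith
    calc _ ≤ h * ((q * max (1 - z.re) 0 + ε) * Λ) := mul_le_mul_of_nonneg_left h10 hh.le
      _ = _ := by ring

end Pool.Agent.V7H88.NF
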