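import Mathlib
import Pool.Agent.V7H88.NF.C

/-!
Few zeros from small means, and the local law at the centre.
-/

set_option autoImplicit false
set_option maxHeartbeats 1000000

open Complex Filter Topology Metric Set MeasureTheory

namespace Pool.Agent.V7H88.NF

open Pool.Agent.V7H83.CZ Pool.Agent.V7H89.GL Pool.Agent.W169.HF H353.E H353.F H370 H370.Loc

lemma ae_nonzero {f : ℂ → ℂ} (hf : Differentiable ℂ f) {x : ℂ} (hx : f x ≠ 0) (c : ℂ) (R : ℝ) :
    ∀ᶠ z in codiscreteWithin (sphere c |R|), f z ≠ 0 := by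
  have h := AnalyticOnNhd.preimage_zero_mem_codiscrete (fun z _ => hf.analyticAt z) hx
  exact (codiscreteWithin_mono (subset_univ _)) h

/-- Jensen's inequality with the truncated logarithm -/
lemma jensen_um {f : ℂ → ℂ} (hf : Differentiable ℂ f) {c : ℂ} {r R : ℝ} (hr : 0 < r) (hrR : r ≤ R) (hc : f c ≠ 0)
    (S : Finset ℂ) (hS : ∀ z ∈ S, z ∈ closedBall c r) (m : ℝ) :
    Real.log ‖f c‖ + (∑ z ∈ S, (mult f z : ℝ)) * Real.log (R / r) ≤ cm (um f m) c R := by
  have hR : 0 < R := lt_of_lt_of_le hr hrR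
  have hR' : |R| = R := abs_of_pos hR
  have hfa : AnalyticOnNhd ℂ f (closedBall c R) := fun z _ => hf.analyticAt z
  have hm : MeromorphicOn f (sphere c |R|) := by
    rw [hR']
    exact (hfa.mono sphere_subset_closedBall).meromorphicOn
  have hK : IsPreconnected (closedBall c R) := (convex_closedBall c R).isPreconnected
  have hcR : c ∈ closedBall c R := mem_closedBall_self hR.le
  have h1 := AnalyticOnNhd.circleAverage_log_norm hR.ne' (by rw [hR']; exact hfa) hc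
  have hlog : 0 ≤ Real.log (R / r) := Real.log_nonneg (by rw [le_div_iff₀ hr]; linarith)
  rw [hR'] at h1
  have hnn : ∀ u, 0 ≤ (MeromorphicOn.divisor f (closedBall c R) u : ℝ) * Real.log (R * ‖c - u‖⁻¹) := by
    intro u
    by_cases hu : u ∈ closedBall c R
    · refine mul_nonneg ?_ ?_
      · rw [divisor_eq hK hfa hcR hc hu]
        positivity
      · by_cases huc : u = c
        · simp [huc]
        · have hpos : 0 < ‖c - u‖ := by
            rw [norm_pos_iff, sub_ne_zero]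
            exact fun h => huc h.symm
          refine Real.log_nonneg ?_
          rw [mem_closedBall, dist_comm, dist_eq_norm] at hu
          rw [← div_eq_mul_inv, le_div_iff₀ hpos, one_mul]
          exact hu
    · rw [Function.locallyFinsuppWithin.apply_eq_zero_of_notMem _ hu]
      simp
  have hfin : (Function.support (MeromorphicOn.divisor f (closedBall c R))).Finite :=
    (MeromorphicOn.divisor f (closedBall c R)).finiteSupport (isCompact_closedBall c R)
  have h2 : (∑ z ∈ S, (mult f z : ℝ)) * Real.log (R / r) ≤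
      ∑ᶠ u, (MeromorphicOn.divisor f (closedBall c R) u : ℝ) * Real.log (R * ‖c - u‖⁻¹) := by
    rw [finsum_eq_sum_of_support_subset (s := hfin.toFinset ∪ S) _ (by
      intro x hx
      simp only [Finset.coe_union, Set.Finite.coe_toFinset, mem_union]
      left
      rw [Function.mem_support] at hx ⊢
      intro h0
      rw [h0] at hx
      simp at hx)]
    refine le_trans ?_ (Finset.sum_le_sum_of_subset_of_nonneg Finset.subset_union_right fun u _ _ => hnn u)
    rw [Finset.sum_mul]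
    refine Finset.sum_le_sum fun z hz => ?_
    have hz' := hS z hz
    have hzR : z ∈ closedBall c R := closedBall_subset_closedBall hrR hz'
    rw [divisor_eq hK hfa hcR hc hzR]
    by_cases hzc : z = c
    · have h0 : mult f z = 0 := by
        have := (mult_pos hK hfa hcR hc hzR)
        rw [hzc] at this ⊢
        by_contra hcon
        exact hc (this.1 (Nat.pos_of_ne_zero hcon))
      rw [h0]
      simp
    · have hpos : 0 < ‖c - z‖ := by
        rw [norm_pos_iff, sub_ne_zero]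
        exact fun h => hzc h.symm
      have hle : ‖c - z‖ ≤ r := by
        rw [mem_closedBall, dist_comm, dist_eq_norm] at hz'
        exact hz'
      have h3 : Real.log (R / r) ≤ Real.log (R * ‖c - z‖⁻¹) := by
        apply Real.log_le_log (by positivity)
        rw [← div_eq_mul_inv]
        exact div_le_div_of_nonneg_left hR.le hpos hle
      have h4 : (0:ℝ) ≤ (mult f z : ℝ) := Nat.cast_nonneg _
      push_cast
      exact mul_le_mul_of_nonneg_left h3 h4
  -- the truncated logarithm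
  classical
  set v : ℂ → ℝ := fun z => if f z = 0 then um f m z else Real.log ‖f z‖ with hv
  have hcong : (fun z => Real.log ‖f z‖) =ᶠ[codiscreteWithin (sphere c |R|)] v := by
    filter_upwards [ae_nonzero hf hc c R] with z hz
    simp only [hv, if_neg hz]
  have h3 : Real.circleAverage (fun z => Real.log ‖f z‖) c R = Real.circleAverage v c R :=
    Real.circleAverage_congr_codiscreteWithin hcong hR.ne'
  have hvi : CircleIntegrable v c R := hm.circleIntegrable_log_norm.congr_codiscreteWithin hcong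
  have huc := um_cont hf.continuous m
  have hui : CircleIntegrable (um f m) c R := huc.continuousOn.circleIntegrable'
  have h4 : Real.circleAverage v c R ≤ Real.circleAverage (um f m) c R := by
    refine Real.circleAverage_mono hvi hui fun x _ => ?_
    simp only [hv]
    split_ifs with h0
    · exact le_rfl
    · exact um_ge_log f m h0
  have h5 : Real.circleAverage (um f m) c R = cm (um f m) c R := by
    rw [Real.circleAverage, cm, smul_eq_mul]
    rfl
  rw [← h5]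
  linarith

/-- the integrated inequality -/
lemma jensen_Um {f : ℂ → ℂ} (hf : Differentiable ℂ f) {c : ℂ} {r R h h₁ a₀ X : ℝ} (hr : 0 < r) (hrR : r ≤ R)
    (hh₁ : 0 ≤ h₁) (hh : h₁ ≤ h) (hc : ∀ y ∈ Icc 0 h, f (c + y * I) ≠ 0 ∧ -a₀ ≤ Real.log ‖f (c + y * I)‖)
    (S : Finset ℂ) (hS : ∀ z ∈ S, ∀ y ∈ Icc 0 h₁, z ∈ closedBall (c + y * I) r) (m : ℝ)
    (hX : ∀ θ : ℝ, Um f m h (c + R * cexp ((θ : ℂ) * I)) ≤ X) :
    h₁ * ((∑ z ∈ S, (mult f z : ℝ)) * Real.log (R / r)) ≤ X + a₀ * h := by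
  have huc := um_cont hf.continuous m
  have hUc := Um_cont hf.continuous m h
  have hh0 : 0 ≤ h := hh₁.trans hh
  set Nn : ℝ := (∑ z ∈ S, (mult f z : ℝ)) * Real.log (R / r) with hNn
  have hgc : Continuous (fun y : ℝ => cm (um f m) (c + y * I) R) := by
    unfold cm
    refine continuous_const.mul ?_
    apply intervalIntegral.continuous_parametric_intervalIntegral_of_continuous'
    unfold Function.uncurry
    fun_prop
  have h2 : cm (Um f m h) c R = ∫ y in (0:ℝ)..h, cm (um f m) (c + y * I) R := by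
    unfold cm Um
    rw [swap_cont (g := fun θ y => um f m (c + R * Complex.exp ((θ : ℂ) * I) + y * I)) (by
      unfold Function.uncurry
      fun_prop) (by have := Real.pi_pos; linarith) hh0, intervalIntegral.integral_const_mul]
    congr 1
    refine intervalIntegral.integral_congr fun y _ => ?_
    refine intervalIntegral.integral_congr fun θ _ => ?_
    show um f m (c + R * Complex.exp ((θ : ℂ) * I) + y * I) = um f m (c + y * I + R * Complex.exp ((θ : ℂ) * I))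
    congr 1
    ring
  have h3 : cm (Um f m h) c R ≤ X := by
    rw [← cm_const X c R]
    exact cm_mono hUc continuous_const fun θ => hX θ
  have h4 : -a₀ * h₁ + h₁ * Nn ≤ ∫ y in (0:ℝ)..h₁, cm (um f m) (c + y * I) R := by
    have e1 : -a₀ * h₁ + h₁ * Nn = ∫ y in (0:ℝ)..h₁, (-a₀ + Nn) := by
      rw [intervalIntegral.integral_const, smul_eq_mul]
      ring
    rw [e1]
    refine intervalIntegral.integral_mono_on hh₁ intervalIntegrable_const (hgc.intervalIntegrable _ _)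
      fun y hy => ?_
    obtain ⟨h5, h6⟩ := hc y ⟨hy.1, hy.2.trans hh⟩
    have h7 := jensen_um hf hr hrR h5 S (fun z hz => hS z hz y hy) m
    linarith
  have h5 : -a₀ * (h - h₁) ≤ ∫ y in h₁..h, cm (um f m) (c + y * I) R := by
    have e1 : -a₀ * (h - h₁) = ∫ y in h₁..h, -a₀ := by
      rw [intervalIntegral.integral_const, smul_eq_mul]
      ring
    rw [e1]
    refine intervalIntegral.integral_mono_on hh intervalIntegrable_const (hgc.intervalIntegrable _ _)
      fun y hy => ?_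
    obtain ⟨h5, h6⟩ := hc y ⟨hh₁.trans hy.1, hy.2⟩
    have h7 := jensen_um hf hr hrR h5 ∅ (fun z hz => absurd hz (Finset.notMem_empty z)) m
    simp only [Finset.sum_empty, zero_mul, add_zero] at h7
    linarith
  have h6 := intervalIntegral.integral_add_adjacent_intervals (a := (0:ℝ)) (b := h₁) (c := h)
    (hgc.intervalIntegrable (μ := volume) _ _) (hgc.intervalIntegrable _ _)
  have e2 : -a₀ * h₁ + -a₀ * (h - h₁) = -(a₀ * h) := by ring
  linarith

variable {m : ℕ} {θ : ℝ}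

/-- small windows on one line near the centre leave few zeros -/
theorem few_zeros (hm : 1 ≤ m) (hθ0 : 0 ≤ θ) (hθ : θ < 1 / 2) {h c ε : ℝ} (hh : 0 < h) (hc : 0 < c) (hc1 : c ≤ 1)
    (hε : 0 < ε) : ∃ η H Q0 : ℝ, 0 < η ∧ 0 < H ∧ 1 < Q0 ∧ ∀ (L : ℂ → ℂ) (Q : ℝ → ℝ), Mem θ m L Q → ∀ T : ℝ,
      Q0 ≤ Q T → ∀ σ₀ : ℝ, 1 / 2 ≤ σ₀ → σ₀ ≤ 1 / 2 + c / 4 →
      (∀ s : ℝ, |s - T| ≤ H → ∫ t in s..(s + h), Dl L σ₀ t ≤ η * Real.log (Q T)) →
      ∀ S : Finset ℂ, (∀ s ∈ S, L s = 0 ∧ 1 / 2 + c ≤ s.re ∧ |s.im - T| ≤ 1) →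
        ∑ s ∈ S, (mult L s : ℝ) ≤ ε * Real.log (Q T) := by
  -- the discs
  obtain ⟨δ, hδ⟩ : ∃ δ : ℝ, δ = c / 4 := ⟨_, rfl⟩
  have hδ0 : 0 < δ := by rw [hδ]; positivity
  obtain ⟨h₁, hh₁⟩ : ∃ h₁ : ℝ, h₁ = min h δ := ⟨_, rfl⟩
  have hh₁0 : 0 < h₁ := by rw [hh₁]; exact lt_min hh hδ0
  have hh₁h : h₁ ≤ h := by rw [hh₁]; exact min_le_left _ _
  have hh₁δ : h₁ ≤ δ := by rw [hh₁]; exact min_le_right _ _
  obtain ⟨r, hr⟩ : ∃ r : ℝ, r = 3 / 2 - c / 2 := ⟨_, rfl⟩
  have hr0 : 0 < r := by rw [hr]; linarith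
  obtain ⟨ℓ, hℓ⟩ : ∃ ℓ : ℝ, ℓ = Real.log ((3 / 2 - c / 4) / r) := ⟨_, rfl⟩
  have hℓ0 : 0 < ℓ := by
    rw [hℓ]
    apply Real.log_pos
    rw [lt_div_iff₀ hr0, hr]
    linarith
  obtain ⟨J, hJ⟩ : ∃ J : ℕ, J = ⌈2 / δ⌉₊ + 1 := ⟨_, rfl⟩
  have hJ0 : (0:ℝ) < J := by rw [hJ]; positivity
  have hJδ : 2 ≤ (J : ℝ) * δ := by
    have h1 : 2 / δ ≤ ⌈2 / δ⌉₊ := Nat.le_ceil _
    rw [div_le_iff₀ hδ0] at h1
    rw [hJ]
    push_cast
    nlinarith
  obtain ⟨ε₁, hε₁⟩ : ∃ ε₁ : ℝ, ε₁ = ε * h₁ * ℓ / (2 * J * h) := ⟨_, rfl⟩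
  have hε₁0 : 0 < ε₁ := by rw [hε₁]; positivity
  obtain ⟨A, hA, HA⟩ := factsM hm hθ0 hθ
  obtain ⟨η, H, Q1, hη, hH, hQ1, HL⟩ := avg_law hm hθ0 hθ (h := h) (ε := ε₁) (q := 0) (V := 4) hh hε₁0 le_rfl
    (by norm_num)
  have hlA : 0 ≤ Real.log A := Real.log_nonneg hA
  refine ⟨η * h, H, max Q1 (Real.exp (Real.log A / ε₁)), by positivity, hH, lt_max_of_lt_left hQ1, ?_⟩
  intro L Q hMem T hQT σ₀ h0 h1 hwin S hS
  obtain ⟨hd, hQge, -, hfar, -⟩ := HA L Q hMem
  obtain ⟨Λ, hΛ⟩ : ∃ Λ : ℝ, Λ = Real.log (Q T) := ⟨_, rfl⟩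
  have hΛge : Real.log A / ε₁ ≤ Λ := by
    have h2 := (le_max_right _ _).trans hQT
    have := Real.log_le_log (Real.exp_pos _) h2
    rwa [Real.log_exp, ← hΛ] at this
  have hΛ0 : 0 ≤ Λ := le_trans (by positivity) hΛge
  have hΛA : Real.log A ≤ ε₁ * Λ := by
    rw [div_le_iff₀ hε₁0] at hΛge
    linarith
  obtain ⟨m₀, hm₀⟩ := HL L Q hMem T ((le_max_left _ _).trans hQT) σ₀ h0 (by linarith) (by
    intro s hs
    refine (hwin s hs).trans (le_of_eq ?_)
    rw [zero_add])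
  rw [← hΛ] at hm₀ ⊢
  have hne : ∀ s : ℂ, 2 ≤ s.re → L s ≠ 0 := fun s hs => by
    rw [← norm_pos_iff]
    exact lt_of_lt_of_le (by positivity) (hfar s hs).2
  have hre2 : ∀ s ∈ S, s.re < 2 := fun s hs => by
    by_contra hcon
    push Not at hcon
    exact hne s hcon (hS s hs).1
  -- one disc
  have hone : ∀ j : ℕ, j < J → ∑ s ∈ S.filter (fun s => |s.im - (T - 1 + j * δ)| ≤ δ), (mult L s : ℝ) ≤
      ε / J * Λ := by
    intro j hj
    obtain ⟨τ, hτ⟩ : ∃ τ : ℝ, τ = T - 1 + j * δ := ⟨_, rfl⟩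
    rw [← hτ]
    have hjJ : (j : ℝ) + 1 ≤ J := by
      have : j + 1 ≤ J := hj
      exact_mod_cast this
    have hj0 : (0:ℝ) ≤ j := Nat.cast_nonneg _
    have hJδ3 : (J : ℝ) * δ ≤ 2 + 2 * δ := by
      have h2 : (⌈2 / δ⌉₊ : ℝ) < 2 / δ + 1 := Nat.ceil_lt_add_one (by positivity)
      have h3 : (J : ℝ) ≤ 2 / δ + 2 := by
        rw [hJ]
        push_cast
        linarith
      calc (J : ℝ) * δ ≤ (2 / δ + 2) * δ := mul_le_mul_of_nonneg_right h3 hδ0.le
        _ = 2 + 2 * δ := by field_simp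
    have hτT : |τ - T| ≤ 2 := by
      rw [hτ, abs_le]
      constructor
      · have : 0 ≤ (j : ℝ) * δ := by positivity
        linarith
      · have : ((j : ℝ) + 1) * δ ≤ J * δ := mul_le_mul_of_nonneg_right hjJ hδ0.le
        linarith
    have hτT' := abs_le.1 hτT
    have key := jensen_Um hd (c := ⟨2, τ⟩) (r := r) (R := 2 - σ₀) (h := h) (h₁ := h₁) (a₀ := Real.log A)
      (X := ε₁ * h * Λ) hr0 (by rw [hr]; linarith) hh₁0.le hh₁h (by
        intro y hy
        have h2 : (2:ℝ) ≤ ((⟨2, τ⟩ : ℂ) + y * I).re := by simp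
        refine ⟨hne _ h2, ?_⟩
        have h3 := (hfar _ h2).2
        have h4 := Real.log_le_log (by positivity) h3
        rwa [Real.log_inv] at h4) (S.filter (fun s => |s.im - τ| ≤ δ)) (by
        intro z hz y hy
        rw [Finset.mem_filter] at hz
        obtain ⟨hzS, hzτ⟩ := hz
        obtain ⟨-, hz1, -⟩ := hS z hzS
        have hz2 := hre2 z hzS
        rw [mem_closedBall, dist_eq_norm]
        refine (Complex.norm_le_abs_re_add_abs_im _).trans ?_
        have e1 : (z - ((⟨2, τ⟩ : ℂ) + y * I)).re = z.re - 2 := by simp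
        have e2 : (z - ((⟨2, τ⟩ : ℂ) + y * I)).im = (z.im - τ) - y := by simp; ring
        rw [e1, e2]
        have h3 : |z.re - 2| ≤ 3 / 2 - c := by rw [abs_le]; constructor <;> linarith
        have hzτ' := abs_le.1 hzτ
        have h4 : |z.im - τ - y| ≤ 2 * δ := by rw [abs_le]; constructor <;> linarith [hy.1, hy.2]
        rw [hr]
        linarith) m₀ (by
        intro φ
        have hcos := abs_le.1 (Real.abs_cos_le_one φ)
        have hsin := abs_le.1 (Real.abs_sin_le_one φ)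
        have e1 : ((⟨2, τ⟩ : ℂ) + ((2 - σ₀ : ℝ) : ℂ) * cexp ((φ : ℂ) * I)).re = 2 + (2 - σ₀) * Real.cos φ := by
          rw [Complex.add_re, Complex.re_ofReal_mul, Complex.exp_ofReal_mul_I_re]
        have e2 : ((⟨2, τ⟩ : ℂ) + ((2 - σ₀ : ℝ) : ℂ) * cexp ((φ : ℂ) * I)).im = τ + (2 - σ₀) * Real.sin φ := by
          rw [Complex.add_im, Complex.im_ofReal_mul, Complex.exp_ofReal_mul_I_im]
        have h3 := hm₀ ((⟨2, τ⟩ : ℂ) + ((2 - σ₀ : ℝ) : ℂ) * cexp ((φ : ℂ) * I)) (by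
          rw [e1]
          nlinarith) (by
          rw [e2, abs_le]
          constructor <;> nlinarith)
        rw [zero_mul, zero_add] at h3
        exact h3)
    obtain ⟨Nn, hNn⟩ : ∃ Nn : ℝ, Nn = ∑ s ∈ S.filter (fun s => |s.im - τ| ≤ δ), (mult L s : ℝ) := ⟨_, rfl⟩
    rw [← hNn] at key ⊢
    have hNn0 : 0 ≤ Nn := by
      rw [hNn]
      exact Finset.sum_nonneg fun _ _ => Nat.cast_nonneg _
    have hℓR : ℓ ≤ Real.log ((2 - σ₀) / r) := by
      rw [hℓ]
      apply Real.log_le_log (by apply div_pos _ hr0; linarith)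
      apply div_le_div_of_nonneg_right _ hr0.le
      linarith
    have h2 : h₁ * (Nn * ℓ) ≤ 2 * (ε₁ * h) * Λ := by
      have h3 : h₁ * (Nn * ℓ) ≤ h₁ * (Nn * Real.log ((2 - σ₀) / r)) :=
        mul_le_mul_of_nonneg_left (mul_le_mul_of_nonneg_left hℓR hNn0) hh₁0.le
      have h4 : Real.log A * h ≤ ε₁ * Λ * h := mul_le_mul_of_nonneg_right hΛA hh.le
      linarith
    have h3 : 2 * (ε₁ * h) * Λ = h₁ * (ε / J * Λ * ℓ) := by
      rw [hε₁]
      field_simp
    rw [h3] at h2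
    have h4 := le_of_mul_le_mul_left h2 hh₁0
    exact le_of_mul_le_mul_right h4 hℓ0
  -- the sum over the discs
  have hcov : ∀ s ∈ S, (mult L s : ℝ) ≤ ∑ j ∈ Finset.range J,
      if |s.im - (T - 1 + j * δ)| ≤ δ then (mult L s : ℝ) else 0 := by
    intro s hs
    obtain ⟨-, -, h3⟩ := hS s hs
    have h3' := abs_le.1 h3
    obtain ⟨x, hx⟩ : ∃ x : ℝ, x = (s.im - (T - 1)) / δ := ⟨_, rfl⟩
    have hx0 : 0 ≤ x := by rw [hx]; apply div_nonneg _ hδ0.le; linarith
    have hxδ : x * δ = s.im - (T - 1) := by rw [hx]; field_simp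
    have h4 := Nat.floor_le hx0
    have h5 := Nat.lt_floor_add_one x
    have h6 : ⌊x⌋₊ < J := by
      rw [Nat.floor_lt hx0]
      have h7 : x * δ ≤ 2 := by linarith
      have h8 : (⌈2 / δ⌉₊ : ℝ) + 1 = J := by rw [hJ]; push_cast; ring
      have h9 : x ≤ 2 / δ := by rw [le_div_iff₀ hδ0]; exact h7
      have h10 : 2 / δ ≤ ⌈2 / δ⌉₊ := Nat.le_ceil _
      linarith
    have h7 : |s.im - (T - 1 + (⌊x⌋₊ : ℝ) * δ)| ≤ δ := by
      rw [abs_le]
      constructor <;> nlinarith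
    refine le_trans ?_ (Finset.single_le_sum (f := fun j : ℕ =>
      if |s.im - (T - 1 + j * δ)| ≤ δ then (mult L s : ℝ) else 0) (fun j _ => ?_) (Finset.mem_range.2 h6))
    · simp only [h7, if_true]
      exact le_rfl
    · split_ifs
      · exact Nat.cast_nonneg _
      · exact le_rfl
  calc ∑ s ∈ S, (mult L s : ℝ) ≤ ∑ s ∈ S, ∑ j ∈ Finset.range J,
      (if |s.im - (T - 1 + j * δ)| ≤ δ then (mult L s : ℝ) else 0) := Finset.sum_le_sum hcov
    _ = ∑ j ∈ Finset.range J, ∑ s ∈ S, (if |s.im - (T - 1 + j * δ)| ≤ δ then (mult L s : ℝ) else 0) :=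
      Finset.sum_comm
    _ = ∑ j ∈ Finset.range J, ∑ s ∈ S.filter (fun s => |s.im - (T - 1 + j * δ)| ≤ δ), (mult L s : ℝ) := by
      refine Finset.sum_congr rfl fun j _ => ?_
      rw [Finset.sum_filter]
    _ ≤ ∑ j ∈ Finset.range J, ε / J * Λ := Finset.sum_le_sum fun j hj => hone j (Finset.mem_range.1 hj)
    _ = ε * Λ := by
      rw [Finset.sum_const, Finset.card_range, nsmul_eq_mul]
      field_simp

/-- **the local law at the centre**: a large value forces a quick rotation on every line near the centre -/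
theorem lind_law (hm : 1 ≤ m) (hθ0 : 0 ≤ θ) (hθ : θ < 1 / 2) {κ h : ℝ} (hκ : 0 < κ) (hh : 0 < h) :
    ∃ η H Q0 : ℝ, 0 < η ∧ 0 < H ∧ 1 < Q0 ∧ ∀ (L : ℂ → ℂ) (Q : ℝ → ℝ), Mem θ m L Q → ∀ T : ℝ, Q0 ≤ Q T →
      Q T ^ κ ≤ ‖L (1 / 2 + T * I)‖ → ∀ σ₀ : ℝ, 1 / 2 ≤ σ₀ → σ₀ ≤ 1 / 2 + η →
      ∃ s : ℝ, |s - T| ≤ H ∧ η * Real.log (Q T) < ∫ t in s..(s + h), Dl L σ₀ t := by
  obtain ⟨c', Q1, hc', hQ1, HZ⟩ := zerosMem hm hθ0 hθ hκ (h := 1) one_pos
  obtain ⟨c, hc⟩ : ∃ c : ℝ, c = min c' 1 := ⟨_, rfl⟩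
  have hc0 : 0 < c := by rw [hc]; exact lt_min hc' one_pos
  have hcc' : c ≤ c' := by rw [hc]; exact min_le_left _ _
  have hc1 : c ≤ 1 := by rw [hc]; exact min_le_right _ _
  obtain ⟨η, H, Q2, hη, hH, hQ2, HF⟩ := few_zeros hm hθ0 hθ (h := h) (c := c) (ε := c / 2) hh hc0 hc1 (by positivity)
  refine ⟨min η (c / 4), H, max Q1 Q2, lt_min hη (by positivity), hH, lt_max_of_lt_left hQ1, ?_⟩
  intro L Q hMem T hQT hbig σ₀ h0 h1
  have hmin1 := min_le_left η (c / 4)
  have hmin2 := min_le_right η (c / 4)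
  have hQ0 : 1 < Q T := lt_of_lt_of_le hQ1 ((le_max_left _ _).trans hQT)
  have hΛ0 : 0 < Real.log (Q T) := Real.log_pos hQ0
  by_contra hcon
  push Not at hcon
  obtain ⟨S, hS, hSc⟩ := HZ L Q hMem T ((le_max_left _ _).trans hQT) hbig
  have h2 := HF L Q hMem T ((le_max_right _ _).trans hQT) σ₀ h0 (by linarith) (fun s hs =>
    (hcon s hs).trans (mul_le_mul_of_nonneg_right hmin1 hΛ0.le)) S (fun s hs => by
      obtain ⟨h3, h4, h5⟩ := hS s hs
      exact ⟨h3, by linarith, h5⟩)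
  have h3 : c * Real.log (Q T) ≤ c' * Real.log (Q T) := mul_le_mul_of_nonneg_right hcc' hΛ0.le
  have h4 : 0 < c / 2 * Real.log (Q T) := by positivity
  linarith

end Pool.Agent.V7H88.NF
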