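import Mathlib
import Pool.Agent.V7H88.NF.A3

/-!
The principles with a harmonic polynomial outside of the mean.
-/

set_option autoImplicit false
set_option maxHeartbeats 1000000

open Complex Filter Topology Metric Set MeasureTheory

namespace Pool.Agent.V7H88.NF

variable {f : ℂ → ℂ} {m h : ℝ}

/-- the harmonic polynomial -/
def Gp (α K : ℝ) (z : ℂ) : ℝ := α * z.re + K * (z.re ^ 2 - z.im ^ 2)

lemma Gp_cont (α K : ℝ) : Continuous (Gp α K) := by
  unfold Gp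
  fun_prop

lemma cm_Gp (α K : ℝ) (c : ℂ) (r : ℝ) : cm (Gp α K) c r = Gp α K c := by
  have hpi := Real.pi_pos
  have h1 : ∀ θ : ℝ, Gp α K (c + r * Complex.exp ((θ : ℂ) * I)) =
      Gp α K c - K * r ^ 2 + (α * r + 2 * K * r * c.re) * Real.cos θ + (-(2 * K * r * c.im)) * Real.sin θ +
        2 * K * r ^ 2 * Real.cos θ ^ 2 := by
    intro θ
    have e1 : (c + r * Complex.exp ((θ : ℂ) * I)).re = c.re + r * Real.cos θ := by
      rw [Complex.add_re, Complex.re_ofReal_mul, Complex.exp_ofReal_mul_I_re]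
    have e2 : (c + r * Complex.exp ((θ : ℂ) * I)).im = c.im + r * Real.sin θ := by
      rw [Complex.add_im, Complex.im_ofReal_mul, Complex.exp_ofReal_mul_I_im]
    unfold Gp
    rw [e1, e2]
    have := Real.sin_sq θ
    have e3 : (c.im + r * Real.sin θ) ^ 2 = c.im ^ 2 + 2 * r * c.im * Real.sin θ + r ^ 2 * (1 - Real.cos θ ^ 2) := by
      rw [← this]; ring
    rw [e3]
    ring
  have e4 : ∫ θ in (0:ℝ)..(2 * Real.pi), Real.cos θ ^ 2 = Real.pi := by
    rw [integral_cos_sq]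
    simp
  unfold cm
  simp only [h1]
  rw [intervalIntegral.integral_add, intervalIntegral.integral_add, intervalIntegral.integral_add,
    intervalIntegral.integral_const, intervalIntegral.integral_const_mul, intervalIntegral.integral_const_mul,
    intervalIntegral.integral_const_mul, integral_cos, integral_sin, e4]
  · simp
    field_simp
    ring
  all_goals exact Continuous.intervalIntegrable (by fun_prop) _ _

/-- the maximum over a rectangle is attained on the boundary -/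
lemma max_front_out (hf : Differentiable ℂ f) (m : ℝ) (hh : 0 ≤ h) (α K : ℝ) {ε x₁ x₂ y₁ y₂ : ℝ} (hε : 0 < ε)
    (hx : x₁ ≤ x₂) (hy : y₁ ≤ y₂) : ∃ z₀ : ℂ, z₀.re ∈ Icc x₁ x₂ ∧ z₀.im ∈ Icc y₁ y₂ ∧
      (z₀.re = x₁ ∨ z₀.re = x₂ ∨ z₀.im = y₁ ∨ z₀.im = y₂) ∧
      ∀ z : ℂ, z.re ∈ Icc x₁ x₂ → z.im ∈ Icc y₁ y₂ → Um f m h z + Gp α K z + ε * ‖z‖ ^ 2 ≤
        Um f m h z₀ + Gp α K z₀ + ε * ‖z₀‖ ^ 2 := by
  have hUc := Um_cont hf.continuous m h
  have hGc := Gp_cont α K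
  have hVc : Continuous (fun z : ℂ => Um f m h z + Gp α K z + ε * ‖z‖ ^ 2) := by fun_prop
  have hcomp : IsCompact (Icc x₁ x₂ ×ℂ Icc y₁ y₂) := isCompact_Icc.reProdIm isCompact_Icc
  obtain ⟨z₀, hz₀, hmax⟩ := hcomp.exists_isMaxOn ⟨⟨x₁, y₁⟩, by
    rw [mem_reProdIm]
    exact ⟨⟨le_rfl, hx⟩, ⟨le_rfl, hy⟩⟩⟩ hVc.continuousOn
  rw [mem_reProdIm] at hz₀
  have hmax' : ∀ z : ℂ, z.re ∈ Icc x₁ x₂ → z.im ∈ Icc y₁ y₂ →
      Um f m h z + Gp α K z + ε * ‖z‖ ^ 2 ≤ Um f m h z₀ + Gp α K z₀ + ε * ‖z₀‖ ^ 2 := by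
    intro z h1 h2
    exact hmax (show z ∈ Icc x₁ x₂ ×ℂ Icc y₁ y₂ by rw [mem_reProdIm]; exact ⟨h1, h2⟩)
  refine ⟨z₀, hz₀.1, hz₀.2, ?_, hmax'⟩
  by_contra hcon
  push Not at hcon
  obtain ⟨hc1, hc2, hc3, hc4⟩ := hcon
  have h1 : x₁ < z₀.re := lt_of_le_of_ne hz₀.1.1 (Ne.symm hc1)
  have h2 : z₀.re < x₂ := lt_of_le_of_ne hz₀.1.2 hc2
  have h3 : y₁ < z₀.im := lt_of_le_of_ne hz₀.2.1 (Ne.symm hc3)
  have h4 : z₀.im < y₂ := lt_of_le_of_ne hz₀.2.2 hc4
  obtain ⟨r, hr0, hr1, hr2, hr3, hr4⟩ : ∃ r : ℝ, 0 < r ∧ r ≤ z₀.re - x₁ ∧ r ≤ x₂ - z₀.re ∧ r ≤ z₀.im - y₁ ∧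
      r ≤ y₂ - z₀.im := by
    refine ⟨min (min (z₀.re - x₁) (x₂ - z₀.re)) (min (z₀.im - y₁) (y₂ - z₀.im)), ?_, ?_, ?_, ?_, ?_⟩
    · exact lt_min (lt_min (by linarith) (by linarith)) (lt_min (by linarith) (by linarith))
    · exact (min_le_left _ _).trans (min_le_left _ _)
    · exact (min_le_left _ _).trans (min_le_right _ _)
    · exact (min_le_right _ _).trans (min_le_left _ _)
    · exact (min_le_right _ _).trans (min_le_right _ _)
  have hpi := Real.pi_pos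
  have hV : cm (fun z : ℂ => Um f m h z + Gp α K z + ε * ‖z‖ ^ 2) z₀ r =
      cm (Um f m h) z₀ r + Gp α K z₀ + ε * (‖z₀‖ ^ 2 + r ^ 2) := by
    rw [← cm_sq z₀ r, ← cm_Gp α K z₀ r]
    unfold cm
    rw [intervalIntegral.integral_add, intervalIntegral.integral_add, intervalIntegral.integral_const_mul]
    · ring
    all_goals exact Continuous.intervalIntegrable (by fun_prop) _ _
  have hle : cm (fun z : ℂ => Um f m h z + Gp α K z + ε * ‖z‖ ^ 2) z₀ r ≤
      Um f m h z₀ + Gp α K z₀ + ε * ‖z₀‖ ^ 2 := by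
    rw [← cm_const (Um f m h z₀ + Gp α K z₀ + ε * ‖z₀‖ ^ 2) z₀ r]
    refine cm_mono hVc continuous_const fun θ => ?_
    have hc' := abs_le.1 (Real.abs_cos_le_one θ)
    have hs' := abs_le.1 (Real.abs_sin_le_one θ)
    apply hmax'
    · rw [Complex.add_re, Complex.re_ofReal_mul, Complex.exp_ofReal_mul_I_re]
      constructor <;> nlinarith
    · rw [Complex.add_im, Complex.im_ofReal_mul, Complex.exp_ofReal_mul_I_im]
      constructor <;> nlinarith
  have h5 := Um_cm hf m hh z₀ r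
  rw [hV] at hle
  have h6 : 0 < ε * r ^ 2 := by positivity
  linarith

lemma rect_sq {x₁ x₂ y₁ y₂ : ℝ} {z : ℂ} (h1 : z.re ∈ Icc x₁ x₂) (h2 : z.im ∈ Icc y₁ y₂) :
    ‖z‖ ^ 2 ≤ x₁ ^ 2 + x₂ ^ 2 + y₁ ^ 2 + y₂ ^ 2 + 1 := by
  rw [Complex.sq_norm, Complex.normSq_apply]
  have h3 : z.re * z.re ≤ x₁ ^ 2 + x₂ ^ 2 := by
    rcases le_total 0 z.re with h | h
    · nlinarith [h1.2, sq_nonneg x₁]
    · nlinarith [h1.1, sq_nonneg x₂]
  have h4 : z.im * z.im ≤ y₁ ^ 2 + y₂ ^ 2 := by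
    rcases le_total 0 z.im with h | h
    · nlinarith [h2.2, sq_nonneg y₁]
    · nlinarith [h2.1, sq_nonneg y₂]
  linarith

/-- the Dirichlet principle -/
theorem dir_out (hf : Differentiable ℂ f) (hh : 0 ≤ h) (α K : ℝ) {x₁ x₂ y₁ y₂ N : ℝ} (hx : x₁ ≤ x₂) (hy : y₁ ≤ y₂)
    (hb : ∀ z : ℂ, z.re ∈ Icc x₁ x₂ → z.im ∈ Icc y₁ y₂ → (z.re = x₁ ∨ z.re = x₂ ∨ z.im = y₁ ∨ z.im = y₂) →
      Um f m h z + Gp α K z ≤ N) : ∀ z : ℂ, z.re ∈ Icc x₁ x₂ → z.im ∈ Icc y₁ y₂ → Um f m h z + Gp α K z ≤ N := by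
  intro z hz1 hz2
  by_contra hcon
  push Not at hcon
  obtain ⟨B, hB⟩ : ∃ B : ℝ, B = x₁ ^ 2 + x₂ ^ 2 + y₁ ^ 2 + y₂ ^ 2 + 1 := ⟨_, rfl⟩
  have hB0 : 0 < B := by rw [hB]; positivity
  obtain ⟨g, hg⟩ : ∃ g : ℝ, g = Um f m h z + Gp α K z - N := ⟨_, rfl⟩
  have hg0 : 0 < g := by linarith
  have hε0 : 0 < g / (2 * B) := by positivity
  obtain ⟨z₀, hz01, hz02, hcase, hmax⟩ := max_front_out hf m hh α K hε0 hx hy
  have hn0 : ‖z₀‖ ^ 2 ≤ B := by rw [hB]; exact rect_sq hz01 hz02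
  have h3 := hmax z hz1 hz2
  have h4 := hb z₀ hz01 hz02 hcase
  have h5 : g / (2 * B) * ‖z₀‖ ^ 2 ≤ g / (2 * B) * B := mul_le_mul_of_nonneg_left hn0 hε0.le
  have h6 : g / (2 * B) * B = g / 2 := by field_simp
  have h7 : 0 ≤ g / (2 * B) * ‖z‖ ^ 2 := by positivity
  linarith

/-- at a maximum on the left edge the horizontal derivative is nonpositive in the mean -/
lemma left_excl_out (hf : Differentiable ℂ f) (hh : 0 ≤ h) {y₀ a α : ℝ} (ha : 0 < a)
    (hmax : ∀ x ∈ Icc 0 a, Um f m h (x + y₀ * I) + α * x ≤ Um f m h (y₀ * I)) :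
    (∫ y in Ioc 0 h ∩ {y : ℝ | Real.exp (-m) < ‖f ((y₀ + y : ℝ) * I)‖}, (logDeriv f ((y₀ + y : ℝ) * I)).re) + α
      ≤ 0 := by
  have hc := um_cont hf.continuous m
  set A : Set ℝ := {y : ℝ | Real.exp (-m) < ‖f ((y₀ + y : ℝ) * I)‖} with hA
  have hAm : MeasurableSet A := by
    apply measurableSet_lt measurable_const
    have : Continuous (fun y : ℝ => ‖f ((y₀ + y : ℝ) * I)‖) := by
      have := hf.continuous
      fun_prop
    exact this.measurable
  set x : ℕ → ℝ := fun n => a / (n + 1) with hx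
  have hx0 : ∀ n, 0 < x n := fun n => by simp only [hx]; positivity
  have hxa : ∀ n, x n ≤ a := fun n => by
    simp only [hx]
    rw [div_le_iff₀ (by positivity)]
    have : (0:ℝ) ≤ n := Nat.cast_nonneg n
    nlinarith
  have hxl : Tendsto x atTop (𝓝[≠] 0) := by
    rw [tendsto_nhdsWithin_iff]
    refine ⟨?_, Eventually.of_forall fun n => (hx0 n).ne'⟩
    have h1 := tendsto_one_div_add_atTop_nhds_zero_nat (𝕜 := ℝ)
    have h2 := h1.const_mul a
    rw [mul_zero] at h2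
    refine h2.congr fun n => ?_
    simp only [hx]
    ring
  set ψ : ℕ → ℝ → ℝ := fun n y => (um f m ((y₀ + y : ℝ) * I + x n) - um f m ((y₀ + y : ℝ) * I)) / x n with hψ
  have hψc : ∀ n, Continuous (ψ n) := fun n => by
    simp only [hψ]
    fun_prop
  -- the integrals
  have h1 : ∀ n, ∫ y in Ioc 0 h ∩ A, ψ n y ≤ -α := by
    intro n
    have h2 : ∫ y in Ioc 0 h, ψ n y ≤ -α := by
      have h3 := hmax (x n) ⟨(hx0 n).le, hxa n⟩
      unfold Um at h3
      have h4 : ∫ y in Ioc 0 h, ψ n y = ((∫ y in (0:ℝ)..h, um f m ((x n : ℂ) + y₀ * I + y * I)) -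
          ∫ y in (0:ℝ)..h, um f m (y₀ * I + y * I)) / x n := by
        rw [← intervalIntegral.integral_sub, ← intervalIntegral.integral_div,
          ← intervalIntegral.integral_of_le hh]
        · refine intervalIntegral.integral_congr fun y _ => ?_
          have e1 : (x n : ℂ) + y₀ * I + y * I = (y₀ + y : ℝ) * I + x n := by push_cast; ring
          have e2 : (y₀ : ℂ) * I + y * I = (y₀ + y : ℝ) * I := by push_cast; ring
          simp only [hψ]
          rw [e1, e2]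
        all_goals exact Continuous.intervalIntegrable (by fun_prop) _ _
      rw [h4, div_le_iff₀ (hx0 n)]
      linarith
    have h5 : IntegrableOn (ψ n) (Ioc 0 h) := (hψc n).integrableOn_Ioc
    have h6 : (∫ y in Ioc 0 h ∩ A, ψ n y) + (∫ y in Ioc 0 h \ A, ψ n y) = ∫ y in Ioc 0 h, ψ n y :=
      integral_inter_add_sdiff hAm h5
    have h7 : 0 ≤ ∫ y in Ioc 0 h \ A, ψ n y := by
      refine setIntegral_nonneg (measurableSet_Ioc.diff hAm) fun y hy => ?_
      have h8 : ¬ (Real.exp (-m) < ‖f ((y₀ + y : ℝ) * I)‖) := hy.2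
      push Not at h8
      have h9 : um f m ((y₀ + y : ℝ) * I) = -m := by
        unfold um
        rw [max_eq_right h8, Real.log_exp]
      simp only [hψ]
      rw [h9]
      apply div_nonneg _ (hx0 n).le
      linarith [um_ge f m ((y₀ + y : ℝ) * I + x n)]
    linarith
  -- the bound
  have hcomp : IsCompact (Icc 0 a ×ℂ Icc y₀ (y₀ + h)) := isCompact_Icc.reProdIm isCompact_Icc
  have hdc : Continuous (deriv f) := hf.deriv.continuous
  obtain ⟨B, hB⟩ := hcomp.exists_bound_of_continuousOn hdc.continuousOn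
  have hconv : Convex ℝ (Icc 0 a ×ℂ Icc y₀ (y₀ + h)) := by
    have h1 : Convex ℝ (Complex.reLm ⁻¹' Icc 0 a) := (convex_Icc 0 a).linear_preimage Complex.reLm
    have h2 : Convex ℝ (Complex.imLm ⁻¹' Icc y₀ (y₀ + h)) := (convex_Icc y₀ (y₀ + h)).linear_preimage Complex.imLm
    exact h1.inter h2
  have hlip : ∀ n, ∀ y ∈ Ioc 0 h, |ψ n y| ≤ Real.exp m * B := by
    intro n y hy
    have hz : ((y₀ + y : ℝ) * I : ℂ) ∈ Icc 0 a ×ℂ Icc y₀ (y₀ + h) := by
      rw [mem_reProdIm]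
      simp only [Complex.re_ofReal_mul, Complex.I_re, mul_zero, Complex.im_ofReal_mul, Complex.I_im, mul_one]
      exact ⟨⟨le_rfl, ha.le⟩, ⟨by linarith [hy.1], by linarith [hy.2]⟩⟩
    have hw : ((y₀ + y : ℝ) * I + x n : ℂ) ∈ Icc 0 a ×ℂ Icc y₀ (y₀ + h) := by
      rw [mem_reProdIm]
      simp only [Complex.add_re, Complex.add_im, Complex.re_ofReal_mul, Complex.I_re, mul_zero,
        Complex.im_ofReal_mul, Complex.I_im, mul_one, Complex.ofReal_re, Complex.ofReal_im, zero_add, add_zero]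
      exact ⟨⟨(hx0 n).le, hxa n⟩, ⟨by linarith [hy.1], by linarith [hy.2]⟩⟩
    have h2 := hconv.norm_image_sub_le_of_norm_deriv_le (f := f) (fun z _ => hf z) hB hz hw
    have h3 : ‖((y₀ + y : ℝ) * I + x n : ℂ) - (y₀ + y : ℝ) * I‖ = x n := by
      rw [add_sub_cancel_left, Complex.norm_real, Real.norm_of_nonneg (hx0 n).le]
    rw [h3] at h2
    have h4 := um_lip f m ((y₀ + y : ℝ) * I + x n) ((y₀ + y : ℝ) * I)
    have h5 := um_lip f m ((y₀ + y : ℝ) * I) ((y₀ + y : ℝ) * I + x n)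
    rw [norm_sub_rev] at h5
    have h6 : Real.exp m * ‖f ((y₀ + y : ℝ) * I + x n) - f ((y₀ + y : ℝ) * I)‖ ≤ Real.exp m * B * x n := by
      calc _ ≤ Real.exp m * (B * x n) := mul_le_mul_of_nonneg_left h2 (Real.exp_pos _).le
        _ = _ := by ring
    simp only [hψ]
    rw [abs_div, abs_of_pos (hx0 n), div_le_iff₀ (hx0 n), abs_le]
    constructor <;> linarith
  -- the limit
  have hlim : Tendsto (fun n => ∫ y in Ioc 0 h ∩ A, ψ n y) atTop
      (𝓝 (∫ y in Ioc 0 h ∩ A, (logDeriv f ((y₀ + y : ℝ) * I)).re)) := by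
    refine tendsto_integral_of_dominated_convergence (fun _ => Real.exp m * B) ?_ ?_ ?_ ?_
    · exact fun n => (hψc n).aestronglyMeasurable
    · have : IntegrableOn (fun _ : ℝ => Real.exp m * B) (Ioc 0 h) := by
        rw [integrableOn_const_iff]
        right
        simp
      exact this.mono_set inter_subset_left
    · intro n
      rw [ae_restrict_iff' (measurableSet_Ioc.inter hAm)]
      exact Eventually.of_forall fun y hy => hlip n y hy.1
    · rw [ae_restrict_iff' (measurableSet_Ioc.inter hAm)]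
      refine Eventually.of_forall fun y hy => ?_
      have hyA : Real.exp (-m) < ‖f ((y₀ + y : ℝ) * I)‖ := hy.2
      set w : ℂ := (y₀ + y : ℝ) * I with hw
      have hw0 : f w ≠ 0 := by
        rw [← norm_pos_iff]
        exact (Real.exp_pos _).trans hyA
      have h2 := log_deriv hf hw0
      rw [hasDerivAt_iff_tendsto_slope] at h2
      have h3 := h2.comp hxl
      refine h3.congr' ?_
      have h4 : ∀ᶠ t : ℝ in 𝓝[≠] 0, Real.exp (-m) < ‖f (w + t)‖ := by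
        have h5 : ContinuousAt (fun t : ℝ => ‖f (w + t)‖) 0 := by
          have := hf.continuous
          fun_prop
        have h6 : ∀ᶠ t : ℝ in 𝓝 0, Real.exp (-m) < ‖f (w + t)‖ := by
          apply h5.eventually_const_lt
          simpa using hyA
        exact h6.filter_mono nhdsWithin_le_nhds
      filter_upwards [hxl.eventually h4] with n hn
      simp only [Function.comp, slope_def_field, hψ, Complex.ofReal_zero, add_zero, sub_zero]
      unfold um
      rw [max_eq_left hn.le, max_eq_left hyA.le]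
  have h2 := le_of_tendsto' hlim h1
  linarith

/-- **the Neumann principle for vertical means** -/
theorem neumann_out (hf : Differentiable ℂ f) {a H α K : ℝ} (ha : 0 < a) (hH : 0 ≤ H) (hh : 0 < h) (hK : 0 ≤ K)
    {k : ℝ → ℝ} (hk : Continuous k)
    (hkf : ∀ y ∈ Icc (-H) (H + h), f (y * I) ≠ 0 → k y = (logDeriv f (y * I)).re)
    (hfin : {y : ℝ | y ∈ Icc (-H) (H + h) ∧ f (y * I) = 0}.Finite)
    {κ : ℝ} (hκ : 0 < κ) (hpos : ∀ s ∈ Icc (-H) H, κ - α ≤ ∫ y in (0:ℝ)..h, k (s + y)) :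
    ∃ m₀ : ℝ, ∀ m : ℝ, m₀ ≤ m → ∀ N : ℝ,
      (∀ z : ℂ, z.re = a → z.im ∈ Icc (-H) H → Um f m h z + Gp α K z ≤ N) →
      (∀ z : ℂ, z.re ∈ Icc 0 a → (z.im = -H ∨ z.im = H) → Um f m h z + Gp α K z ≤ N) →
      ∀ z : ℂ, z.re ∈ Icc 0 a → z.im ∈ Icc (-H) H → Um f m h z + Gp α K z ≤ N := by
  obtain ⟨B, hB⟩ := (isCompact_Icc (a := -H) (b := H + h)).exists_bound_of_continuousOn hk.continuousOn
  have hB0 : 0 ≤ |B| := abs_nonneg B
  obtain ⟨m₁, hm₁⟩ := small_set hf.continuous hfin (ε := κ / (2 * (|B| + 1))) (by positivity)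
  refine ⟨m₁, fun m hmm₁ N hR hE z hz1 hz2 => ?_⟩
  by_contra hcon
  push Not at hcon
  obtain ⟨X, hX⟩ : ∃ X : ℝ, X = 0 ^ 2 + a ^ 2 + (-H) ^ 2 + H ^ 2 + 1 := ⟨_, rfl⟩
  have hX0 : 0 < X := by rw [hX]; positivity
  obtain ⟨g, hg⟩ : ∃ g : ℝ, g = Um f m h z + Gp α K z - N := ⟨_, rfl⟩
  have hg0 : 0 < g := by linarith
  obtain ⟨ε, hε⟩ : ∃ ε : ℝ, ε = g / (2 * X) := ⟨_, rfl⟩
  have hε0 : 0 < ε := by rw [hε]; positivity
  obtain ⟨z₀, hz01, hz02, hcase, hmax⟩ := max_front_out hf m hh.le α K hε0 ha.le (by linarith : -H ≤ H)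
  have hn0 : ‖z₀‖ ^ 2 ≤ X := by rw [hX]; exact rect_sq hz01 hz02
  have hzz := hmax z hz1 hz2
  have hz0pos : 0 ≤ ε * ‖z‖ ^ 2 := by positivity
  have hlt : N < Um f m h z₀ + Gp α K z₀ := by
    have h1 : ε * ‖z₀‖ ^ 2 ≤ ε * X := mul_le_mul_of_nonneg_left hn0 hε0.le
    have h2 : ε * X = g / 2 := by rw [hε]; field_simp
    linarith
  rcases hcase with h1 | h1 | h1 | h1
  · -- left edge
    set y₀ := z₀.im with hy₀
    have hz₀e : z₀ = (y₀ : ℂ) * I := by
      apply Complex.ext <;> simp [h1, hy₀]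
    have h2 := left_excl_out (f := f) (m := m) (α := α) hf hh.le (y₀ := y₀) ha (fun x hx => by
      have h3 := hmax ((x : ℂ) + y₀ * I) (by simpa using hx) (by simpa using hz02)
      have h4 : ‖z₀‖ ^ 2 ≤ ‖(x : ℂ) + y₀ * I‖ ^ 2 := by
        rw [hz₀e, Complex.sq_norm, Complex.sq_norm, Complex.normSq_apply, Complex.normSq_apply]
        simp
        nlinarith [mul_self_nonneg x]
      have h5 : ε * ‖z₀‖ ^ 2 ≤ ε * ‖(x : ℂ) + y₀ * I‖ ^ 2 := mul_le_mul_of_nonneg_left h4 hε0.le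
      have h6 : Um f m h (y₀ * I) = Um f m h z₀ := congrArg _ hz₀e.symm
      have h7 : Gp α K z₀ + α * x ≤ Gp α K ((x : ℂ) + y₀ * I) := by
        have e1 : Gp α K z₀ = -(K * y₀ ^ 2) := by
          unfold Gp
          rw [h1]
          ring
        have e2 : Gp α K ((x : ℂ) + y₀ * I) = α * x + K * (x ^ 2 - y₀ ^ 2) := by
          unfold Gp
          simp
        rw [e1, e2]
        have : 0 ≤ K * x ^ 2 := by positivity
        linarith
      linarith)
    set A : Set ℝ := {y : ℝ | Real.exp (-m) < ‖f ((y₀ + y : ℝ) * I)‖} with hA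
    have hAm : MeasurableSet A := by
      apply measurableSet_lt measurable_const
      have : Continuous (fun y : ℝ => ‖f ((y₀ + y : ℝ) * I)‖) := by
        have := hf.continuous
        fun_prop
      exact this.measurable
    have h3 : ∫ y in Ioc 0 h ∩ A, (logDeriv f ((y₀ + y : ℝ) * I)).re = ∫ y in Ioc 0 h ∩ A, k (y₀ + y) := by
      refine setIntegral_congr_fun (measurableSet_Ioc.inter hAm) fun y hy => ?_
      have h4 : f ((y₀ + y : ℝ) * I) ≠ 0 := by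
        rw [← norm_pos_iff]
        exact (Real.exp_pos _).trans hy.2
      exact (hkf (y₀ + y) ⟨by linarith [hz02.1, hy.1.1], by linarith [hz02.2, hy.1.2]⟩ h4).symm
    rw [h3] at h2
    have hkc : Continuous (fun y => k (y₀ + y)) := by fun_prop
    have h5 : (∫ y in Ioc 0 h ∩ A, k (y₀ + y)) + (∫ y in Ioc 0 h \ A, k (y₀ + y)) = ∫ y in Ioc 0 h, k (y₀ + y) :=
      integral_inter_add_sdiff hAm hkc.integrableOn_Ioc
    have h6 := hpos y₀ hz02
    rw [intervalIntegral.integral_of_le hh.le] at h6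
    have h7 : volume (Ioc 0 h \ A) ≤ ENNReal.ofReal (κ / (2 * (|B| + 1))) := by
      have h8 := hm₁ m hmm₁
      have h9 : Ioc 0 h \ A ⊆ (fun y => y + y₀) ⁻¹' {y : ℝ | y ∈ Icc (-H) (H + h) ∧ ‖f (y * I)‖ ≤ Real.exp (-m)} := by
        intro y hy
        refine ⟨⟨by linarith [hz02.1, hy.1.1], by linarith [hz02.2, hy.1.2]⟩, ?_⟩
        have h10 : ¬ (Real.exp (-m) < ‖f ((y₀ + y : ℝ) * I)‖) := hy.2
        show ‖f ((y + y₀ : ℝ) * I)‖ ≤ Real.exp (-m)
        rw [add_comm y y₀]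
        exact not_lt.1 h10
      refine (measure_mono h9).trans ?_
      rw [measure_preimage_add_right]
      exact h8
    have h8 : ∫ y in Ioc 0 h \ A, k (y₀ + y) ≤ |B| * (κ / (2 * (|B| + 1))) := by
      have h9 := norm_setIntegral_le_of_norm_le_const (μ := volume) (s := Ioc 0 h \ A) (f := fun y => k (y₀ + y))
        (C := |B|) (lt_of_le_of_lt h7 ENNReal.ofReal_lt_top) (fun y hy => (hB (y₀ + y)
          ⟨by linarith [hz02.1, hy.1.1], by linarith [hz02.2, hy.1.2]⟩).trans (le_abs_self B))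
      refine (le_abs_self _).trans (h9.trans ?_)
      apply mul_le_mul_of_nonneg_left _ hB0
      rw [measureReal_def]
      exact ENNReal.toReal_le_of_le_ofReal (by positivity) h7
    have h9 : |B| * (κ / (2 * (|B| + 1))) < κ := by
      rw [← mul_div_assoc, div_lt_iff₀ (by positivity)]
      nlinarith
    linarith
  · linarith [hR z₀ h1 hz02]
  · linarith [hE z₀ hz01 (Or.inl h1)]
  · linarith [hE z₀ hz01 (Or.inr h1)]

end Pool.Agent.V7H88.NF
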