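import Mathlib
import Pool.Agent.V7H88.NF.B
import Pool.Agent.V7H88.NM.E

/-!
Small values on the critical line make the horizontal logarithmic derivative small on the right of it.
-/

set_option autoImplicit false
set_option maxHeartbeats 1000000

open Complex Filter Topology Metric Set MeasureTheory
open H370.Loc

namespace Pool.Agent.V7H88.NF

open Pool.Agent.V7H83.CZ Pool.Agent.V7H89.GL Pool.Agent.W169.HF H353.E H353.F

variable {m : ℕ} {θ : ℝ}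

/-- growth in a fixed range -/
lemma growM (hm : 1 ≤ m) (hθ0 : 0 ≤ θ) (hθ : θ < 1 / 2) {V : ℝ} (hV : 0 ≤ V) : ∃ C : ℝ, 0 ≤ C ∧
    ∀ (L : ℂ → ℂ) (Q : ℝ → ℝ), Mem θ m L Q → ∀ (T : ℝ) (s : ℂ), 1 / 2 ≤ s.re → |s.im - T| ≤ V →
      ‖L s‖ ≤ Real.exp (C + Real.log (Q T)) := by
  obtain ⟨A, hA, HA⟩ := factsM hm hθ0 hθ
  have hlog : 0 ≤ Real.log (3 + V) := Real.log_nonneg (by linarith)
  have hAlog : 0 ≤ Real.log A := Real.log_nonneg hA
  refine ⟨A + m * Real.log (3 + V) + Real.log A, by positivity, ?_⟩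
  intro L Q hMem T s hs1 hs2
  obtain ⟨hd, hQge, hgr, hfar, -⟩ := HA L Q hMem
  have hΛ0 : 0 ≤ Real.log (Q T) := Real.log_nonneg (hQge T)
  rcases le_or_gt 2 s.re with h2 | h2
  · refine (hfar s h2).1.trans ?_
    rw [← Real.exp_log (by linarith : 0 < A)]
    apply Real.exp_le_exp.2
    rw [Real.exp_log (by linarith : 0 < A)]
    have : 0 ≤ (m : ℝ) * Real.log (3 + V) := by positivity
    linarith
  · have h4 := hgr T (s - T * I) (by simpa using hs1)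
    rw [sub_add_cancel] at h4
    refine h4.trans (Real.exp_le_exp.2 ?_)
    have h5 : ‖s - T * I‖ + 1 ≤ 3 + V := by
      have h6 := Complex.norm_le_abs_re_add_abs_im (s - T * I)
      have e1 : (s - (T : ℂ) * I).re = s.re := by simp
      have e2 : (s - (T : ℂ) * I).im = s.im - T := by simp
      rw [e1, e2, abs_of_nonneg (by linarith)] at h6
      linarith
    have h6 : m * Real.log (‖s - T * I‖ + 1) ≤ m * Real.log (3 + V) := by
      apply mul_le_mul_of_nonneg_left _ (Nat.cast_nonneg _)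
      exact Real.log_le_log (by positivity) h5
    linarith

theorem right_smallM (hm : 1 ≤ m) (hθ0 : 0 ≤ θ) (hθ : θ < 1 / 2) {κ V : ℝ} (hκ : 0 < κ) (hV : 0 ≤ V) :
    ∃ H Q0 : ℝ, V ≤ H ∧ 1 < Q0 ∧ ∀ (L : ℂ → ℂ) (Q : ℝ → ℝ), Mem θ m L Q → ∀ T : ℝ, Q0 ≤ Q T →
      ∀ σ₀ : ℝ, 1 / 2 ≤ σ₀ → σ₀ ≤ 1 →
      (∀ t : ℝ, |t - T| ≤ H → ‖L ⟨σ₀, t⟩‖ ≤ Real.exp (κ * Real.log (Q T))) →
      ∀ s : ℂ, σ₀ ≤ s.re → |s.im - T| ≤ V → ‖L s‖ ≤ Real.exp (4 * κ * Real.log (Q T)) := by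
  obtain ⟨A, hA, HA⟩ := factsM hm hθ0 hθ
  obtain ⟨W, hW⟩ : ∃ W : ℝ, W = 3 + 1 / κ := ⟨_, rfl⟩
  have hκi : 0 < 1 / κ := by positivity
  have hW3 : 3 ≤ W := by linarith
  have hWκ : 1 ≤ κ * (W ^ 2 - 9 / 4) := by
    have h1 : κ * (1 / κ) = 1 := by field_simp
    have h2 : 1 / κ ≤ W ^ 2 - 9 / 4 := by nlinarith
    nlinarith [mul_le_mul_of_nonneg_left h2 hκ.le]
  obtain ⟨C, hC, HC⟩ := growM hm hθ0 hθ (V := V + W) (by positivity)
  refine ⟨V + W, Real.exp ((C + A) / κ + 1), by linarith, ?_, ?_⟩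
  · apply Real.one_lt_exp_iff.2
    have : 0 ≤ (C + A) / κ := by positivity
    linarith
  intro L Q hMem T hQT σ₀ h0 h1 hline s hs1 hs2
  obtain ⟨hd, hQge, -, hfar, -⟩ := HA L Q hMem
  obtain ⟨Λ, hΛ⟩ : ∃ Λ : ℝ, Λ = Real.log (Q T) := ⟨_, rfl⟩
  have hgrow := HC L Q hMem T
  rw [← hΛ] at hline hgrow ⊢
  have hΛge : (C + A) / κ + 1 ≤ Λ := by
    have := Real.log_le_log (Real.exp_pos _) hQT
    rwa [Real.log_exp, ← hΛ] at this
  have hΛ0 : 0 < Λ := by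
    have : 0 ≤ (C + A) / κ := by positivity
    linarith
  have hCA : C + A ≤ κ * Λ := by
    have h2 : (C + A) / κ ≤ Λ := by linarith
    rw [div_le_iff₀ hκ] at h2
    linarith
  have hAexp : A ≤ Real.exp (κ * Λ) := by
    have := Real.add_one_le_exp (κ * Λ)
    linarith
  have hκΛ : 0 < κ * Λ := by positivity
  rcases le_or_gt 2 s.re with h3 | h3
  · refine (hfar s h3).1.trans (hAexp.trans (Real.exp_le_exp.2 ?_))
    linarith
  set t₀ := s.im with ht₀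
  have hs2' := abs_le.1 hs2
  let g : ℂ → ℂ := fun z => L (⟨σ₀, t₀⟩ + z) * cexp ((κ * Λ : ℝ) * z ^ 2)
  have hg : ∀ x v : ℝ, ‖g ⟨x, v⟩‖ = ‖L ⟨σ₀ + x, t₀ + v⟩‖ * Real.exp (κ * Λ * (x ^ 2 - v ^ 2)) := by
    intro x v
    have e : (⟨σ₀, t₀⟩ : ℂ) + ⟨x, v⟩ = ⟨σ₀ + x, t₀ + v⟩ := rfl
    simp only [g]
    rw [norm_mul, BS.gauss_norm, e]
  have hside : ∀ x v : ℝ, 0 ≤ x → x ≤ 3 / 2 → |v| = W → ‖g ⟨x, v⟩‖ ≤ Real.exp (4 * κ * Λ) := by
    intro x v hx hx1 hv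
    rw [hg]
    have hv' : v ^ 2 = W ^ 2 := by rw [← sq_abs, hv]
    have hv2 := abs_le.1 hv.le
    have h5 := hgrow ⟨σ₀ + x, t₀ + v⟩ (by show 1 / 2 ≤ σ₀ + x; linarith) (by
      show |t₀ + v - T| ≤ V + W
      rw [abs_le]
      constructor <;> linarith)
    have h6 : κ * Λ * (x ^ 2 - v ^ 2) ≤ -Λ := by
      rw [hv']
      have h7 : x ^ 2 ≤ 9 / 4 := by nlinarith
      have h8 : κ * Λ * (x ^ 2 - W ^ 2) ≤ κ * Λ * (9 / 4 - W ^ 2) :=
        mul_le_mul_of_nonneg_left (by linarith) hκΛ.le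
      have h9 : Λ * 1 ≤ Λ * (κ * (W ^ 2 - 9 / 4)) := mul_le_mul_of_nonneg_left hWκ hΛ0.le
      linarith
    calc _ ≤ Real.exp (C + Λ) * Real.exp (-Λ) := mul_le_mul h5 (Real.exp_le_exp.2 h6) (Real.exp_pos _).le
            (Real.exp_pos _).le
      _ = Real.exp C := by rw [← Real.exp_add]; congr 1; ring
      _ ≤ _ := Real.exp_le_exp.2 (by linarith)
  have hfin := BS.rect_max (f := g) (a := 0) (b := 3 / 2) (c := -W) (d := W) (M := Real.exp (4 * κ * Λ))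
    (by norm_num) (by linarith)
    (fun z _ _ => by
      have h5 : Differentiable ℂ g := (hd.comp (by fun_prop)).mul (by fun_prop)
      exact h5 z)
    (by
      intro v hv
      rw [hg]
      have h5 := hline (t₀ + v) (by rw [abs_le]; constructor <;> linarith [hv.1, hv.2])
      rw [add_zero]
      have h6 : κ * Λ * ((0:ℝ) ^ 2 - v ^ 2) ≤ 0 := by
        have : 0 ≤ κ * Λ * v ^ 2 := by positivity
        linarith
      calc _ ≤ Real.exp (κ * Λ) * Real.exp 0 := mul_le_mul h5 (Real.exp_le_exp.2 h6) (Real.exp_pos _).le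
            (Real.exp_pos _).le
        _ = Real.exp (κ * Λ) := by rw [Real.exp_zero, mul_one]
        _ ≤ _ := Real.exp_le_exp.2 (by linarith))
    (by
      intro v hv
      rw [hg]
      have h5 := (hfar ⟨σ₀ + 3 / 2, t₀ + v⟩ (by show (2:ℝ) ≤ σ₀ + 3 / 2; linarith)).1
      have h6 : κ * Λ * ((3 / 2 : ℝ) ^ 2 - v ^ 2) ≤ 3 * (κ * Λ) := by
        have : 0 ≤ κ * Λ * v ^ 2 := by positivity
        linarith
      calc _ ≤ Real.exp (κ * Λ) * Real.exp (3 * (κ * Λ)) :=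
            mul_le_mul (h5.trans hAexp) (Real.exp_le_exp.2 h6) (Real.exp_pos _).le (Real.exp_pos _).le
        _ = _ := by rw [← Real.exp_add]; congr 1; ring)
    (fun x hx => hside x _ hx.1 hx.2 (by rw [abs_neg, abs_of_pos (by linarith)]))
    (fun x hx => hside x _ hx.1 hx.2 (by rw [abs_of_pos (by linarith)]))
    (z := ⟨s.re - σ₀, 0⟩) ⟨by show (0:ℝ) ≤ s.re - σ₀; linarith, by show s.re - σ₀ ≤ (3 / 2:ℝ); linarith⟩
      ⟨by show -W ≤ (0:ℝ); linarith, by show (0:ℝ) ≤ W; linarith⟩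
  rw [hg] at hfin
  have e : (⟨σ₀ + (s.re - σ₀), t₀ + 0⟩ : ℂ) = s := by
    apply Complex.ext
    · show σ₀ + (s.re - σ₀) = s.re
      ring
    · show t₀ + 0 = s.im
      rw [add_zero]
  rw [e] at hfin
  have h8 : 1 ≤ Real.exp (κ * Λ * ((s.re - σ₀) ^ 2 - 0 ^ 2)) := by
    apply Real.one_le_exp
    have : 0 ≤ κ * Λ * (s.re - σ₀) ^ 2 := by positivity
    linarith
  exact (le_mul_of_one_le_right (norm_nonneg _) h8).trans hfin

/-- the mean of the horizontal logarithmic derivative -/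
theorem Dl_bound (hm : 1 ≤ m) (hθ0 : 0 ≤ θ) (hθ : θ < 1 / 2) {δ B : ℝ} (hδ : 0 < δ) :
    ∃ C₁ X : ℝ, 0 ≤ C₁ ∧ 0 ≤ X ∧ ∀ (L : ℂ → ℂ) (Q : ℝ → ℝ), Mem θ m L Q → ∀ T M : ℝ, 1 ≤ M →
      (∀ z : ℂ, 1 / 2 ≤ z.re → |z.im - T| ≤ X → ‖L z‖ ≤ M) → ∀ σ : ℝ, 1 / 2 + δ ≤ σ → σ ≤ B →
        ∫⁻ t in Icc T (T + 1), ENNReal.ofReal |Dl L σ t| ≤ ENNReal.ofReal (C₁ * (Real.log M + C₁)) := by
  obtain ⟨A, hA, HA⟩ := factsM hm hθ0 hθ
  set X : ℝ := 1 / 2 + δ + 2 + 1 / δ + |B| with hX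
  have hδi : 0 < 1 / δ := by positivity
  have hBa := abs_nonneg B
  have hX2 : 2 ≤ X := by linarith
  set R : ℝ := X - 1 / 2 with hR
  set r : ℝ := R - δ / 4 with hr
  set r1 : ℝ := R - 3 * δ / 8 with hr1
  set r2 : ℝ := R - δ / 2 with hr2
  have hr20 : 0 < r2 := by linarith
  set C₁ : ℝ := Real.pi / Real.log (R / r) + (1 + Real.log (r / (R - r)) / Real.log (R / r)) *
        (2 * r1 / (r - r1) / (r1 - r2)) with hC₁
  have hlA : 0 ≤ Real.log A := Real.log_nonneg hA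
  refine ⟨|C₁| + Real.log A + 1, X + 1, by positivity, by linarith, ?_⟩
  intro L Q hMem T M hM hb σ hσ1 hσ2
  obtain ⟨hd, -, -, hfar, -⟩ := HA L Q hMem
  set c : ℂ := ⟨X, T + 1 / 2⟩ with hc
  have ecr : c.re = X := rfl
  have eci : c.im = T + 1 / 2 := rfl
  have hball : ∀ z ∈ closedBall c R, 1 / 2 ≤ z.re ∧ |z.im - T| ≤ X + 1 := by
    intro z hz
    obtain ⟨h3, h4⟩ := BS.ball_coord hz
    have h3' := abs_le.1 h3
    have h4' := abs_le.1 h4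
    rw [ecr] at h3'
    rw [eci] at h4'
    refine ⟨by linarith, ?_⟩
    rw [abs_le]
    constructor <;> linarith
  have hcA := hfar c (by rw [ecr]; exact hX2)
  have hc0 : L c ≠ 0 := by
    rw [← norm_pos_iff]
    exact lt_of_lt_of_le (by positivity) hcA.2
  have hcn : 0 < ‖L c‖ := norm_pos_iff.2 hc0
  have hRr : 0 < R - r := by linarith
  have hMc : ‖L c‖ ≤ M := hb c (by rw [ecr]; linarith) (by rw [eci, abs_le]; constructor <;> linarith)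
  have hmain := NM.line_int (f := L) (c := c) (r := r) (r1 := r1) (r2 := r2) (R := R) (M := M)
    hr20 (by linarith) (by linarith) (by linarith) (by linarith) hM hMc
    (fun z _ => hd.analyticAt z) hc0
    (fun z hz' => hb z (hball z hz').1 (hball z hz').2) (x₀ := σ) (a := T) (b := T + 1) (by linarith) le_rfl
    (by
      intro y hy
      rw [mem_closedBall, dist_eq_norm]
      apply BS.norm_le_of_sq hr20.le
      have e1 : ((⟨σ, y⟩ : ℂ) - c).re = σ - X := rfl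
      have e2 : ((⟨σ, y⟩ : ℂ) - c).im = y - (T + 1 / 2) := rfl
      rw [e1, e2]
      have hσX : σ ≤ X := by
        have := le_abs_self B
        linarith
      have h5 : (σ - X) ^ 2 ≤ (r2 - δ / 2) ^ 2 := by
        have e3 : (σ - X) ^ 2 = (X - σ) ^ 2 := by ring
        rw [e3]
        apply pow_le_pow_left₀ (by linarith)
        linarith
      have h6 : (y - (T + 1 / 2)) ^ 2 ≤ (1 / 2) ^ 2 := by
        apply sq_le_sq'
        · linarith [hy.1]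
        · linarith [hy.2]
      have h7 : δ * (1 / δ) = 1 := by field_simp
      have h8 : 1 + 1 / δ + δ / 2 ≤ r2 := by linarith
      have h9 : δ * (1 + 1 / δ + δ / 2) ≤ δ * r2 := mul_le_mul_of_nonneg_left h8 hδ.le
      have h10 : δ * (1 + 1 / δ + δ / 2) = δ + 1 + δ ^ 2 / 2 := by
        field_simp
      have h11 : (r2 - δ / 2) ^ 2 = r2 ^ 2 - δ * r2 + δ ^ 2 / 4 := by ring
      have h12 : 0 ≤ δ ^ 2 := sq_nonneg δ
      linarith)
  have habs : ∀ t, |Dl L σ t| = |(logDeriv L ⟨σ, t⟩).re| := by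
    intro t
    rw [Dl, abs_neg]
  simp only [habs]
  refine hmain.trans (ENNReal.ofReal_le_ofReal ?_)
  have hlM : 0 ≤ Real.log M := Real.log_nonneg hM
  have h13 : Real.log (M / ‖L c‖) ≤ Real.log M + Real.log A := by
    rw [Real.log_div (by positivity) hcn.ne']
    have h14 := Real.log_le_log (by positivity) hcA.2
    rw [Real.log_inv] at h14
    linarith
  have h15 : 0 ≤ Real.log (M / ‖L c‖) := by
    apply Real.log_nonneg
    rw [le_div_iff₀ hcn, one_mul]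
    exact hMc
  calc C₁ * (Real.log (M / ‖L c‖) + 1)
      ≤ |C₁| * (Real.log (M / ‖L c‖) + 1) := mul_le_mul_of_nonneg_right (le_abs_self _) (by linarith)
    _ ≤ (|C₁| + Real.log A + 1) * (Real.log M + (|C₁| + Real.log A + 1)) := by
        apply mul_le_mul (by linarith) _ (by linarith) (by positivity)
        have := abs_nonneg C₁
        linarith

/-- **small values on the critical line make the horizontal logarithmic derivative small** -/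
theorem flatM (hm : 1 ≤ m) (hθ0 : 0 ≤ θ) (hθ : θ < 1 / 2) {δ ε B : ℝ} (hδ : 0 < δ) (hε : 0 < ε) :
    ∃ κ H Q0 : ℝ, 0 < κ ∧ 0 < H ∧ 1 < Q0 ∧ ∀ (L : ℂ → ℂ) (Q : ℝ → ℝ), Mem θ m L Q → ∀ T : ℝ, Q0 ≤ Q T →
      (∀ t : ℝ, |t - T| ≤ H → ‖L ⟨1 / 2, t⟩‖ ≤ Real.exp (κ * Real.log (Q T))) →
      ∀ σ : ℝ, 1 / 2 + δ ≤ σ → σ ≤ B →
        ∫⁻ t in Icc T (T + 1), ENNReal.ofReal |Dl L σ t| ≤ ENNReal.ofReal (ε * Real.log (Q T)) := by
  obtain ⟨C₁, X, hC₁, hX, HD⟩ := Dl_bound hm hθ0 hθ (δ := δ) (B := B) hδ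
  obtain ⟨κ, hκ⟩ : ∃ κ : ℝ, κ = ε / (8 * (C₁ + 1)) := ⟨_, rfl⟩
  have hκ0 : 0 < κ := by rw [hκ]; positivity
  have hκ2 : C₁ * (4 * κ) ≤ ε / 2 := by
    have e : (C₁ + 1) * (4 * κ) = ε / 2 := by rw [hκ]; field_simp; ring
    nlinarith
  obtain ⟨H, Q1, hXH, hQ1, HR⟩ := right_smallM hm hθ0 hθ (κ := κ) (V := X) hκ0 hX
  refine ⟨κ, H + 1, max Q1 (Real.exp (C₁ * C₁ / (ε / 2) + 1)), hκ0, by linarith, lt_max_of_lt_left hQ1, ?_⟩
  intro L Q hMem T hQT hline σ hσ1 hσ2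
  obtain ⟨Λ, hΛ⟩ : ∃ Λ : ℝ, Λ = Real.log (Q T) := ⟨_, rfl⟩
  have hright := HR L Q hMem T ((le_max_left _ _).trans hQT) (1 / 2) le_rfl (by norm_num)
    (fun t ht => hline t (by linarith))
  rw [← hΛ] at hright ⊢
  have hΛge : C₁ * C₁ / (ε / 2) + 1 ≤ Λ := by
    have h2 := (le_max_right _ _).trans hQT
    have := Real.log_le_log (Real.exp_pos _) h2
    rwa [Real.log_exp, ← hΛ] at this
  have h3 : 0 ≤ C₁ * C₁ / (ε / 2) := by positivity
  have hΛ0 : 0 < Λ := by linarith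
  have h4 : C₁ * C₁ ≤ ε / 2 * Λ := by
    have h5 : C₁ * C₁ / (ε / 2) ≤ Λ := by linarith
    rw [div_le_iff₀ (by positivity)] at h5
    linarith
  refine (HD L Q hMem T (Real.exp (4 * κ * Λ)) (Real.one_le_exp (by positivity))
    (fun z hz1 hz2 => hright z hz1 hz2) σ hσ1 hσ2).trans (ENNReal.ofReal_le_ofReal ?_)
  rw [Real.log_exp]
  have h5 : C₁ * (4 * κ) * Λ ≤ ε / 2 * Λ := mul_le_mul_of_nonneg_right hκ2 hΛ0.le
  calc C₁ * (4 * κ * Λ + C₁) = C₁ * (4 * κ) * Λ + C₁ * C₁ := by ring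
    _ ≤ ε * Λ := by linarith

/-- the unconditional bound for the mean -/
theorem Dl_mean (hm : 1 ≤ m) (hθ0 : 0 ≤ θ) (hθ : θ < 1 / 2) {δ B : ℝ} (hδ : 0 < δ) :
    ∃ C Q0 : ℝ, 0 < C ∧ 1 < Q0 ∧ ∀ (L : ℂ → ℂ) (Q : ℝ → ℝ), Mem θ m L Q → ∀ T : ℝ, Q0 ≤ Q T →
      ∀ σ : ℝ, 1 / 2 + δ ≤ σ → σ ≤ B →
        ∫⁻ t in Icc T (T + 1), ENNReal.ofReal |Dl L σ t| ≤ ENNReal.ofReal (C * Real.log (Q T)) := by
  obtain ⟨C₁, X, hC₁, hX, HD⟩ := Dl_bound hm hθ0 hθ (δ := δ) (B := B) hδ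
  obtain ⟨C, hC, HC⟩ := growM hm hθ0 hθ (V := X) hX
  refine ⟨C₁ * (C + 1 + C₁) + 1, Real.exp 1, by positivity, Real.one_lt_exp_iff.2 one_pos, ?_⟩
  intro L Q hMem T hQT σ hσ1 hσ2
  obtain ⟨Λ, hΛ⟩ : ∃ Λ : ℝ, Λ = Real.log (Q T) := ⟨_, rfl⟩
  have hΛ1 : 1 ≤ Λ := by
    have := Real.log_le_log (Real.exp_pos _) hQT
    rwa [Real.log_exp, ← hΛ] at this
  have hg := HC L Q hMem T
  rw [← hΛ] at hg ⊢
  refine (HD L Q hMem T (Real.exp (C + Λ)) (Real.one_le_exp (by linarith))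
    (fun z hz1 hz2 => hg z hz1 hz2) σ hσ1 hσ2).trans (ENNReal.ofReal_le_ofReal ?_)
  rw [Real.log_exp]
  have h1 : C + Λ + C₁ ≤ (C + 1 + C₁) * Λ := by nlinarith
  have h2 : C₁ * (C + Λ + C₁) ≤ C₁ * ((C + 1 + C₁) * Λ) := mul_le_mul_of_nonneg_left h1 hC₁
  nlinarith

end Pool.Agent.V7H88.NF
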