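import Mathlib
import Pool.Agent.V7H88.NF.A4
import Pool.Agent.V7H88.NF.C
import Pool.Agent.V7H88.NF.E

/-!
# A slow window from a saving on the critical line
-/

set_option autoImplicit false

open Complex Filter Topology Metric Set MeasureTheory
open scoped ComplexConjugate

namespace Pool.Agent.V7H88.NF

open Pool.Agent.V7H83.CZ Pool.Agent.V7H89.GL Pool.Agent.W169.HF H353.E H353.F

/-- a lower bound of the window mean -/
lemma Um_ge_const {f : ℂ → ℂ} (hf : Continuous f) {M h : ℝ} (hM : 0 < M) (m : ℝ) (hh : 0 ≤ h) {z : ℂ}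
    (hb : ∀ y ∈ Icc 0 h, M ≤ ‖f (z + y * I)‖) : h * Real.log M ≤ Um f m h z := by
  have h1 : ∫ _ in (0:ℝ)..h, Real.log M = h * Real.log M := by simp
  have h2 : Continuous (fun y : ℝ => um f m (z + y * I)) := (um_cont hf m).comp (by fun_prop)
  rw [← h1]
  refine intervalIntegral.integral_mono_on hh intervalIntegrable_const (h2.intervalIntegrable _ _) fun y hy => ?_
  have h3 := hb y hy
  have h4 : 0 < ‖f (z + y * I)‖ := lt_of_lt_of_le hM h3
  exact (Real.log_le_log hM h3).trans (um_ge_log f m (norm_pos_iff.1 h4))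

variable {m : ℕ} {θ : ℝ}

/-- if the critical values near `T` are at most `Q ^ (1/4 - δ)`, then on the line `1 - δ/2` some window near `T`
has mean rotation less than `(1/2 - δ)/(1 - δ)` times `log Q` -/
theorem slow_some (hm : 1 ≤ m) (hθ0 : 0 ≤ θ) (hθ : θ < 1 / 2) {δ : ℝ} (hδ : 0 < δ) (hδ4 : δ ≤ 1 / 4) :
    ∃ H : ℝ, 0 < H ∧ ∀ h : ℝ, 0 < h → ∃ Q0 : ℝ, 1 < Q0 ∧ ∀ (L : ℂ → ℂ) (Q : ℝ → ℝ), Mem θ m L Q → ∀ T : ℝ,
      Q0 ≤ Q T → (∀ t : ℝ, |t - T| ≤ H + h → ‖L ⟨1 / 2, t⟩‖ ≤ Real.exp ((1 / 4 - δ) * Real.log (Q T))) →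
      ∃ s : ℝ, |s - T| ≤ H ∧
        ∫ t in s..(s + h), Dl L (1 - δ / 2) t < (1 / 2 - δ) / (1 - δ) * h * Real.log (Q T) := by
  obtain ⟨A, hA, HF⟩ := factsM hm hθ0 hθ
  have hlA : 0 ≤ Real.log A := Real.log_nonneg hA
  obtain ⟨V, hV⟩ : ∃ V : ℝ, V = Real.sqrt (500 / δ) := ⟨_, rfl⟩
  have hV0 : 0 < V := by rw [hV]; positivity
  have hV2 : V ^ 2 = 500 / δ := by rw [hV, Real.sq_sqrt (by positivity)]
  obtain ⟨H, hH⟩ : ∃ H : ℝ, H = Real.sqrt (24 * (1 + V ^ 2) / δ) := ⟨_, rfl⟩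
  have hH0 : 0 < H := by rw [hH]; positivity
  have hH2 : H ^ 2 = 24 * (1 + V ^ 2) / δ := by rw [hH, Real.sq_sqrt (by positivity)]
  have hVH : V ≤ H := by
    apply le_of_sq_le_sq _ hH0.le
    rw [hH2, le_div_iff₀ hδ]
    have : 0 ≤ V ^ 2 := by positivity
    nlinarith
  refine ⟨H, hH0, fun h hh => ?_⟩
  obtain ⟨C, hC0, hC⟩ := growM hm hθ0 hθ (V := H + h) (by positivity)
  obtain ⟨X, hX⟩ : ∃ X : ℝ, X = C + 4 / δ + 49 * Real.log A / δ + 1 := ⟨_, rfl⟩
  have hX1 : 1 ≤ X := by rw [hX]; have : 0 ≤ 4 / δ := by positivity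
                         have : 0 ≤ 49 * Real.log A / δ := by positivity
                         linarith
  refine ⟨Real.exp X, by rw [Real.one_lt_exp_iff]; linarith, fun L Q M T hT hsub => ?_⟩
  obtain ⟨hd, hQ1, hgr, hfar, hlog⟩ := HF L Q M
  have hCM := hC L Q M T
  obtain ⟨Λ, hΛ⟩ : ∃ Λ : ℝ, Λ = Real.log (Q T) := ⟨_, rfl⟩
  rw [← hΛ] at hsub hCM ⊢
  have hΛX : X ≤ Λ := by
    rw [hΛ]
    exact (Real.le_log_iff_exp_le (by linarith [hQ1 T])).2 hT
  have hΛ1 : 1 ≤ Λ := by linarith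
  have hΛC : C ≤ Λ := by
    have : 0 ≤ 4 / δ := by positivity
    have : 0 ≤ 49 * Real.log A / δ := by positivity
    linarith
  have hΛδ : 4 ≤ δ * Λ := by
    have h1 : 4 / δ ≤ Λ := by
      have : 0 ≤ 49 * Real.log A / δ := by positivity
      linarith
    rw [div_le_iff₀ hδ] at h1
    linarith
  have hΛA : 49 * Real.log A + δ ≤ δ * Λ := by
    have h1 : 49 * Real.log A / δ + 1 ≤ Λ := by
      have : 0 ≤ 4 / δ := by positivity
      linarith
    have h2 : δ * (49 * Real.log A / δ + 1) ≤ δ * Λ := mul_le_mul_of_nonneg_left h1 hδ.le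
    have h3 : δ * (49 * Real.log A / δ + 1) = 49 * Real.log A + δ := by field_simp
    linarith
  by_contra hcon
  push Not at hcon
  obtain ⟨σ₀, hσ₀⟩ : ∃ σ₀ : ℝ, σ₀ = 1 - δ / 2 := ⟨_, rfl⟩
  obtain ⟨x₀, hx₀⟩ : ∃ x₀ : ℝ, x₀ = (1 - δ) / 2 := ⟨_, rfl⟩
  obtain ⟨q₁, hq₁⟩ : ∃ q₁ : ℝ, q₁ = (1 / 2 - δ) / (1 - δ) := ⟨_, rfl⟩
  have h1δ : (0:ℝ) < 1 - δ := by linarith
  have hqx : q₁ * x₀ = 1 / 4 - δ / 2 := by
    rw [hq₁, hx₀]
    field_simp
    ring
  have hx0 : 0 < x₀ := by rw [hx₀]; linarith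
  have hx1 : x₀ ≤ 1 / 2 := by rw [hx₀]; linarith
  have hsx : σ₀ - x₀ = 1 / 2 := by rw [hσ₀, hx₀]; ring
  rw [← hσ₀, ← hq₁] at hcon
  obtain ⟨f, hf⟩ : ∃ f : ℂ → ℂ, f = fun z => L (⟨σ₀, T⟩ + z) := ⟨_, rfl⟩
  have hfd : Differentiable ℂ f := by
    rw [hf]
    exact hd.comp ((differentiable_const _).add differentiable_id)
  have hfa : ∀ y : ℝ, f (y * I) = L ⟨σ₀, T + y⟩ := fun y => by rw [hf]; simp only [axis_eq]
  have hfl : ∀ y : ℝ, logDeriv f (y * I) = logDeriv L ⟨σ₀, T + y⟩ := fun y => by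
    rw [logDeriv_apply, logDeriv_apply, hfa, hf, deriv_comp_const_add, axis_eq]
  have hfn : ∀ z : ℂ, f z = L ⟨σ₀ + z.re, T + z.im⟩ := fun z => by
    rw [hf]
    show L (⟨σ₀, T⟩ + z) = _
    congr 1
  obtain ⟨K, hK⟩ : ∃ K : ℝ, K = 3 * h * Λ / H ^ 2 := ⟨_, rfl⟩
  have hK0 : 0 ≤ K := by rw [hK]; positivity
  have hKH : K * H ^ 2 = 3 * h * Λ := by rw [hK]; field_simp
  have hKV : K * (1 + V ^ 2) = δ / 8 * (h * Λ) := by
    rw [hK, hH2]
    field_simp
    ring
  -- the density on the line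
  obtain ⟨k, hkc, hkf, hkfin⟩ := k_line hd (fun s hs => by
    rw [← norm_pos_iff]
    exact lt_of_lt_of_le (by positivity) (hfar s hs).2) σ₀ (a := T - H) (b := T + H + h) (by linarith)
  obtain ⟨m₀, hm₀⟩ := neumann_out (f := refl f) (refl_diff hfd) (a := x₀) (H := H) (α := h - q₁ * h * Λ) (K := K)
    hx0 hH0.le hh hK0 (k := fun y => -k (T + y)) (by fun_prop) (by
      intro y hy hne
      have h3 : L ⟨σ₀, T + y⟩ ≠ 0 := by
        rw [← hfa]
        intro h0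
        rw [refl_axis, h0] at hne
        simp at hne
      rw [refl_log hfd, hfl, hkf (T + y) ⟨by linarith [hy.1], by linarith [hy.2]⟩ h3]) (by
      have h2 : {y : ℝ | y ∈ Icc (-H) (H + h) ∧ refl f (y * I) = 0} ⊆
          (fun y => T + y) ⁻¹' {y : ℝ | y ∈ Icc (T - H) (T + H + h) ∧ L ⟨σ₀, y⟩ = 0} := by
        rintro y ⟨hy1, hy2⟩
        refine ⟨⟨by linarith [hy1.1], by linarith [hy1.2]⟩, ?_⟩
        rw [refl_axis, hfa] at hy2
        simpa using hy2
      exact (hkfin.preimage (fun x _ y _ hxy => by simpa using hxy)).subset h2) (κ := h) hh (by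
      intro s hs
      have h3 := hcon (T + s) (by rw [add_sub_cancel_left, abs_le]; exact ⟨by linarith [hs.1], by linarith [hs.2]⟩)
      obtain ⟨-, h4⟩ := D_int hkc hkf hkfin (s := T + s) (h := h) hh.le (by linarith [hs.1]) (by linarith [hs.2])
      rw [h4] at h3
      rw [intervalIntegral.integral_neg]
      have e1 : ∫ y in (0:ℝ)..h, k (T + (s + y)) = ∫ y in (0:ℝ)..h, k (T + s + y) := by
        refine intervalIntegral.integral_congr fun y _ => ?_
        show k (T + (s + y)) = k (T + s + y)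
        rw [add_assoc]
      rw [e1]
      linarith)
  obtain ⟨m₁, hm₁⟩ : ∃ m₁ : ℝ, m₁ = max (max m₀ 0) (Real.log A) := ⟨_, rfl⟩
  have hm₁a : m₀ ≤ m₁ := by rw [hm₁]; exact (le_max_left _ _).trans (le_max_left _ _)
  have hm₁0 : 0 ≤ m₁ := by rw [hm₁]; exact (le_max_right _ _).trans (le_max_left _ _)
  have hgrow : ∀ z : ℂ, -x₀ ≤ z.re → (∀ y ∈ Icc 0 h, |z.im + y| ≤ H + h) → Um f m₁ h z ≤ h * (C + Λ) := by
    intro z hz1 hz2
    have h3 := Um_le_const (f := f) (m := m₁) (h := h) (M := Real.exp (C + Λ)) hfd.continuous (Real.exp_pos _)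
      (by rw [Real.log_exp]; linarith) hh.le (z := z) (fun y hy => by
        rw [hfn]
        apply hCM
        · simp
          linarith
        · have e1 : (⟨σ₀ + (z + y * I).re, T + (z + y * I).im⟩ : ℂ).im - T = z.im + y := by simp
          rw [e1]
          exact hz2 y hy)
    rwa [Real.log_exp] at h3
  -- the first rectangle
  have hleft : ∀ y : ℝ, |y| ≤ V → Um f m₁ h (y * I) ≤ -(δ / 4) * (h * Λ) := by
    intro y hy
    have hy' := abs_le.1 hy
    have h3 := hm₀ m₁ hm₁a (-(δ / 2) * (h * Λ) + h * x₀ + K * x₀ ^ 2) (by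
      intro z hz1 hz2
      rw [refl_Um]
      have h4 := Um_le_const (f := f) (m := m₁) (h := h) (M := Real.exp ((1 / 4 - δ) * Λ)) hfd.continuous
        (Real.exp_pos _) (by
          rw [Real.log_exp]
          have : 0 ≤ (1 / 4 - δ) * Λ := mul_nonneg (by linarith) (by linarith)
          linarith) hh.le (z := -conj z) (fun y hy => by
        rw [hfn]
        have e1 : (⟨σ₀ + (-conj z + y * I).re, T + (-conj z + y * I).im⟩ : ℂ) = ⟨1 / 2, T + z.im + y⟩ := by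
          apply Complex.ext
          · simp
            rw [hz1]
            linarith
          · simp
            ring
        rw [e1]
        apply hsub
        rw [abs_le]
        constructor <;> linarith [hz2.1, hz2.2, hy.1, hy.2])
      rw [Real.log_exp] at h4
      have h5 : Gp (h - q₁ * h * Λ) K z ≤ h * x₀ - (1 / 4 - δ / 2) * (h * Λ) + K * x₀ ^ 2 := by
        rw [Gp, hz1]
        have e1 : (h - q₁ * h * Λ) * x₀ = h * x₀ - (q₁ * x₀) * (h * Λ) := by ring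
        rw [e1, hqx]
        have e2 : 0 ≤ K * z.im ^ 2 := by positivity
        linarith
      have e3 : h * ((1 / 4 - δ) * Λ) = (1 / 4 - δ) * (h * Λ) := by ring
      rw [e3] at h4
      linarith) (by
      intro z hz1 hz2
      rw [refl_Um]
      have him : |z.im| = H := by
        rcases hz2 with h2 | h2
        · rw [h2, abs_neg, abs_of_pos hH0]
        · rw [h2, abs_of_pos hH0]
      have h4 := hgrow (-conj z) (by simp; exact hz1.2) (by
        intro y hy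
        have e1 : (-conj z).im = z.im := by simp
        rw [e1]
        calc |z.im + y| ≤ |z.im| + |y| := abs_add_le _ _
          _ ≤ H + h := by rw [him, abs_of_nonneg hy.1]; linarith [hy.2])
      have hsq : z.im ^ 2 = H ^ 2 := by rw [← sq_abs, him]
      have h5 : Gp (h - q₁ * h * Λ) K z ≤ h * x₀ + K * x₀ ^ 2 - 3 * h * Λ := by
        rw [Gp, hsq, mul_sub, hKH]
        have e2 : K * z.re ^ 2 ≤ K * x₀ ^ 2 :=
          mul_le_mul_of_nonneg_left (pow_le_pow_left₀ hz1.1 hz1.2 2) hK0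
        have e3 : (h - q₁ * h * Λ) * z.re ≤ h * x₀ := by
          have hq0 : 0 ≤ q₁ := by rw [hq₁]; apply div_nonneg <;> linarith
          have e4 : 0 ≤ q₁ * h * Λ := by positivity
          calc (h - q₁ * h * Λ) * z.re ≤ h * z.re := mul_le_mul_of_nonneg_right (by linarith) hz1.1
            _ ≤ h * x₀ := mul_le_mul_of_nonneg_left hz1.2 hh.le
        linarith
      have h6 : h * (C + Λ) ≤ 2 * (h * Λ) := by nlinarith
      have h7 : 0 ≤ h * Λ := by positivity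
      nlinarith) (y * I) (by simp; exact hx0.le) (by simp; exact ⟨by linarith, by linarith⟩)
    have e1 : -conj ((y : ℂ) * I) = y * I := by simp
    rw [refl_Um, e1] at h3
    have h4 : Gp (h - q₁ * h * Λ) K (y * I) = -(K * y ^ 2) := by
      rw [Gp]; simp
    rw [h4] at h3
    have h5 : y ^ 2 ≤ V ^ 2 := by rw [← sq_abs]; exact pow_le_pow_left₀ (abs_nonneg _) hy 2
    have h6 : K * (x₀ ^ 2 + y ^ 2) ≤ K * (1 + V ^ 2) := by
      apply mul_le_mul_of_nonneg_left _ hK0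
      have : x₀ ^ 2 ≤ 1 := by nlinarith
      linarith
    rw [hKV] at h6
    have h7 : h * x₀ ≤ δ / 8 * (h * Λ) := by
      have : x₀ ≤ δ / 8 * Λ := by linarith
      calc h * x₀ ≤ h * (δ / 8 * Λ) := mul_le_mul_of_nonneg_left this hh.le
        _ = _ := by ring
    have h8 : K * (x₀ ^ 2 + y ^ 2) = K * x₀ ^ 2 + K * y ^ 2 := by ring
    rw [h8] at h6
    linarith
  -- the second rectangle
  obtain ⟨W, hW⟩ : ∃ W : ℝ, W = 3 - σ₀ := ⟨_, rfl⟩
  have hW2 : 2 ≤ W := by rw [hW, hσ₀]; linarith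
  have hW3 : W ≤ 3 := by rw [hW, hσ₀]; linarith
  obtain ⟨K₂, hK₂⟩ : ∃ K₂ : ℝ, K₂ = 4 * (h * Λ) / V ^ 2 := ⟨_, rfl⟩
  have hK₂0 : 0 ≤ K₂ := by rw [hK₂]; positivity
  have hK₂V : K₂ * V ^ 2 = 4 * (h * Λ) := by rw [hK₂]; field_simp
  have hK₂δ : K₂ = δ / 125 * (h * Λ) := by rw [hK₂, hV2]; field_simp; ring
  have hhΛ : 0 < h * Λ := by positivity
  have h3 := dir_out (f := f) (m := m₁) (h := h) hfd hh.le (-(δ / 4 * (h * Λ)) / W) K₂ (x₁ := 0) (x₂ := W) (y₁ := -V)
    (y₂ := V) (N := -(δ / 4) * (h * Λ) + h * Real.log A + K₂ * W ^ 2) (by linarith) (by linarith) (by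
      intro z hz1 hz2 hz3
      have hW0 : 0 < W := by linarith
      have e0 : 0 ≤ K₂ * z.im ^ 2 := by positivity
      have e1 : K₂ * z.re ^ 2 ≤ K₂ * W ^ 2 := mul_le_mul_of_nonneg_left (pow_le_pow_left₀ hz1.1 hz1.2 2) hK₂0
      have e2 : -(δ / 4 * (h * Λ)) / W * z.re ≤ 0 := by
        apply mul_nonpos_of_nonpos_of_nonneg _ hz1.1
        apply div_nonpos_of_nonpos_of_nonneg _ hW0.le
        have : 0 ≤ δ / 4 * (h * Λ) := by positivity
        linarith
      have e3 : 0 ≤ h * Real.log A := by positivity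
      have e5 : 0 ≤ K₂ * W ^ 2 := by positivity
      rw [Gp]
      rcases hz3 with h4 | h4 | h4
      · have h5 : z = (z.im : ℂ) * I := by
          apply Complex.ext
          · simp [h4]
          · simp
        have h6 := hleft z.im (abs_le.2 hz2)
        rw [← h5] at h6
        linarith
      · have h5 := Um_le_const (f := f) (m := m₁) (h := h) (M := A) hfd.continuous (by linarith)
          (by linarith) hh.le (z := z) (fun y hy => by
            rw [hfn]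
            refine (hfar _ ?_).1
            simp
            rw [h4, hW]
            linarith)
        have e4 : -(δ / 4 * (h * Λ)) / W * z.re = -(δ / 4 * (h * Λ)) := by rw [h4]; field_simp
        rw [e4]
        linarith
      · have hsq : z.im ^ 2 = V ^ 2 := by
          rcases h4 with h4 | h4
          · rw [h4]; ring
          · rw [h4]
        have h5 := hgrow z (by linarith [hz1.1]) (by
          intro y hy
          calc |z.im + y| ≤ |z.im| + |y| := abs_add_le _ _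
            _ ≤ H + h := by
              have := abs_le.2 hz2
              rw [abs_of_nonneg hy.1]
              linarith [hy.2])
        have e4 : K₂ * (z.re ^ 2 - z.im ^ 2) ≤ K₂ * W ^ 2 - 4 * (h * Λ) := by
          rw [hsq, mul_sub, hK₂V]
          linarith
        have h6 : h * (C + Λ) ≤ 2 * (h * Λ) := by nlinarith
        have h7 : δ / 4 * (h * Λ) ≤ 1 * (h * Λ) := mul_le_mul_of_nonneg_right (by linarith) hhΛ.le
        linarith) ((W - 1 : ℝ) : ℂ) (by
      rw [Complex.ofReal_re]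
      exact ⟨by linarith, by linarith⟩) (by
      rw [Complex.ofReal_im]
      exact ⟨by linarith, by linarith⟩)
  have h4 := Um_ge_const (f := f) (M := A⁻¹) hfd.continuous (by positivity) m₁ hh.le (z := ((W - 1 : ℝ) : ℂ)) (by
    intro y hy
    rw [hfn]
    refine (hfar _ ?_).2
    simp
    rw [hW]
    linarith)
  rw [Real.log_inv] at h4
  have h5 : Gp (-(δ / 4 * (h * Λ)) / W) K₂ ((W - 1 : ℝ) : ℂ) =
      -(δ / 4 * (h * Λ)) + (δ / 4 * (h * Λ)) / W + K₂ * (W - 1) ^ 2 := by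
    rw [Gp, Complex.ofReal_re, Complex.ofReal_im]
    have : W ≠ 0 := by linarith
    field_simp
    ring
  rw [h5] at h3
  have h6 : (δ / 4 * (h * Λ)) / 3 ≤ (δ / 4 * (h * Λ)) / W :=
    div_le_div_of_nonneg_left (by positivity) (by linarith) hW3
  have h7 : K₂ * (2 * W - 1) ≤ K₂ * 5 := mul_le_mul_of_nonneg_left (by linarith) hK₂0
  have h8 : K₂ * W ^ 2 - K₂ * (W - 1) ^ 2 = K₂ * (2 * W - 1) := by ring
  have h9 : δ / 12 * (h * Λ) ≤ 2 * (h * Real.log A) + K₂ * 5 := by linarith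
  rw [hK₂δ] at h9
  have h10 : h * (49 * Real.log A + δ) ≤ h * (δ * Λ) := mul_le_mul_of_nonneg_left hΛA hh.le
  have h11 : 0 < h * δ := by positivity
  have h12 : 0 ≤ h * Real.log A := by positivity
  nlinarith

/-- an integral through the mean of the absolute value -/
lemma abs_int_le {g : ℝ → ℝ} {a b c d X : ℝ} (hX : 0 ≤ X) (hg : IntervalIntegrable g volume a b)
    (h1 : Set.uIoc a b ⊆ Icc c d) (h2 : ∫⁻ t in Icc c d, ENNReal.ofReal |g t| ≤ ENNReal.ofReal X) :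
    |∫ t in a..b, g t| ≤ X := by
  have h3 := intervalIntegral.norm_integral_le_integral_norm_uIoc (f := g) (μ := volume) (a := a) (b := b)
  rw [Real.norm_eq_abs] at h3
  refine h3.trans ?_
  have h4 : IntegrableOn g (Set.uIoc a b) := hg.def'
  rw [integral_eq_lintegral_of_nonneg_ae (Eventually.of_forall fun _ => norm_nonneg _)
    h4.aestronglyMeasurable.norm]
  have h5 : ∫⁻ t in Set.uIoc a b, ENNReal.ofReal ‖g t‖ ≤ ENNReal.ofReal X := by
    refine le_trans (lintegral_mono_set h1) ?_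
    simpa only [Real.norm_eq_abs] using h2
  calc _ ≤ (ENNReal.ofReal X).toReal := ENNReal.toReal_mono ENNReal.ofReal_ne_top h5
    _ = X := ENNReal.toReal_ofReal hX

/-- the mean of the absolute value over a long window -/
lemma Dl_win (hm : 1 ≤ m) (hθ0 : 0 ≤ θ) (hθ : θ < 1 / 2) {δ B : ℝ} (hδ : 0 < δ) : ∃ C : ℝ, 0 < C ∧
    ∀ n : ℕ, ∃ Q0 : ℝ, 1 < Q0 ∧ ∀ (L : ℂ → ℂ) (Q : ℝ → ℝ), Mem θ m L Q → ∀ T : ℝ, Q0 ≤ Q T →
      ∀ σ : ℝ, 1 / 2 + δ ≤ σ → σ ≤ B → ∀ j : ℕ, j ≤ n →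
        ∫⁻ t in Icc T (T + j), ENNReal.ofReal |Dl L σ t| ≤ ENNReal.ofReal (j * (C * Real.log (Q T))) := by
  obtain ⟨A, hA, HF⟩ := factsM hm hθ0 hθ
  obtain ⟨C₀, Q1, hC₀, hQ1, HD⟩ := Dl_mean hm hθ0 hθ (δ := δ) (B := B) hδ
  refine ⟨2 * C₀, by positivity, fun n => ?_⟩
  refine ⟨Real.exp (Real.log Q1 + m * n + 1), by
    rw [Real.one_lt_exp_iff]
    have : 0 ≤ Real.log Q1 := Real.log_nonneg hQ1.le
    positivity, fun L Q M T hT σ hσ hσB => ?_⟩
  obtain ⟨hd, hQge, -, -, hlog⟩ := HF L Q M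
  have hT0 : Real.log Q1 + m * n + 1 ≤ Real.log (Q T) := (Real.le_log_iff_exp_le (by linarith [hQge T])).2 hT
  have hl1 : 0 ≤ Real.log Q1 := Real.log_nonneg hQ1.le
  have hmn : (0:ℝ) ≤ m * n := by positivity
  intro j
  induction j with
  | zero =>
    intro _
    have e : Icc T (T + ((0 : ℕ) : ℝ)) = {T} := by simp
    rw [e]
    simp
  | succ j ih =>
    intro hj
    have ih' := ih (by omega)
    have hjn : (j : ℝ) ≤ n := by exact_mod_cast (by omega : j ≤ n)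
    have hmj : (m : ℝ) * j ≤ m * n := mul_le_mul_of_nonneg_left hjn (by positivity)
    have hsub : Icc T (T + ((j + 1 : ℕ) : ℝ)) ⊆ Icc T (T + j) ∪ Icc (T + j) (T + j + 1) := by
      intro t ht
      rcases le_total t (T + j) with h1 | h1
      · exact Or.inl ⟨ht.1, h1⟩
      · refine Or.inr ⟨h1, ?_⟩
        have := ht.2
        push_cast at this
        linarith
    have hup := hlog T j
    have hdown := hlog (T + j) (-j)
    rw [add_neg_cancel_right, abs_neg] at hdown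
    rw [abs_of_nonneg (by positivity : (0:ℝ) ≤ j)] at hup hdown
    have hj0 : Q1 ≤ Q (T + j) := by
      have h2 : Real.log Q1 ≤ Real.log (Q (T + j)) := by linarith
      exact (Real.log_le_log_iff (by linarith) (by linarith [hQge (T + j)])).1 h2
    have h3 := HD L Q M (T + j) hj0 σ hσ hσB
    have h4 : C₀ * Real.log (Q (T + j)) ≤ 2 * C₀ * Real.log (Q T) := by
      have : Real.log (Q (T + j)) ≤ 2 * Real.log (Q T) := by linarith
      nlinarith
    have h0 : 0 ≤ 2 * C₀ * Real.log (Q T) := by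
      have : 0 ≤ Real.log (Q T) := by linarith
      positivity
    calc ∫⁻ t in Icc T (T + ((j + 1 : ℕ) : ℝ)), ENNReal.ofReal |Dl L σ t|
        ≤ ∫⁻ t in Icc T (T + j) ∪ Icc (T + j) (T + j + 1), ENNReal.ofReal |Dl L σ t| := lintegral_mono_set hsub
      _ ≤ _ := lintegral_union_le _ _ _
      _ ≤ ENNReal.ofReal (j * (2 * C₀ * Real.log (Q T))) + ENNReal.ofReal (2 * C₀ * Real.log (Q T)) :=
          add_le_add ih' (h3.trans (ENNReal.ofReal_le_ofReal h4))
      _ = ENNReal.ofReal (((j + 1 : ℕ) : ℝ) * (2 * C₀ * Real.log (Q T))) := by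
          rw [← ENNReal.ofReal_add (by positivity) h0]
          congr 1
          push_cast
          ring

/-- integrability of `Dl` on intervals -/
lemma Dl_integrable (hm : 1 ≤ m) (hθ0 : 0 ≤ θ) (hθ : θ < 1 / 2) {L : ℂ → ℂ} {Q : ℝ → ℝ} (M : Mem θ m L Q)
    (σ a b : ℝ) : IntervalIntegrable (Dl L σ) volume a b := by
  obtain ⟨A, hA, HF⟩ := factsM hm hθ0 hθ
  obtain ⟨hd, -, -, hfar, -⟩ := HF L Q M
  have key : ∀ a b : ℝ, a ≤ b → IntervalIntegrable (Dl L σ) volume a b := by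
    intro a b hab
    obtain ⟨k, hkc, hkf, hkfin⟩ := k_line hd (fun s hs => by
      rw [← norm_pos_iff]
      exact lt_of_lt_of_le (by positivity) (hfar s hs).2) σ hab
    have h3 := (D_int hkc hkf hkfin (s := a) (h := b - a) (by linarith) le_rfl (by linarith)).1
    rwa [add_sub_cancel] at h3
  rcases le_total a b with h1 | h1
  · exact key a b h1
  · exact (key b a h1).symm

/-- moving a window -/
lemma Dl_shift (hm : 1 ≤ m) (hθ0 : 0 ≤ θ) (hθ : θ < 1 / 2) {δ B H : ℝ} (hδ : 0 < δ) (hH : 0 ≤ H) :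
    ∃ C : ℝ, 0 < C ∧ ∀ h : ℝ, 0 ≤ h → ∃ Q0 : ℝ, 1 < Q0 ∧ ∀ (L : ℂ → ℂ) (Q : ℝ → ℝ), Mem θ m L Q → ∀ T : ℝ,
      Q0 ≤ Q T → ∀ σ : ℝ, 1 / 2 + δ ≤ σ → σ ≤ B → ∀ s : ℝ, |s - T| ≤ H →
        |(∫ t in T..(T + h), Dl L σ t) - ∫ t in s..(s + h), Dl L σ t| ≤ C * Real.log (Q T) := by
  obtain ⟨A, hA, HF⟩ := factsM hm hθ0 hθ
  obtain ⟨C₀, hC₀, HW⟩ := Dl_win hm hθ0 hθ (δ := δ) (B := B) hδ
  obtain ⟨n, hn⟩ := exists_nat_ge (H + 1)
  have hn1 : (1:ℝ) ≤ n := by linarith
  refine ⟨4 * (2 * n * C₀) * 1, by positivity, fun h hh => ?_⟩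
  obtain ⟨Q1, hQ1, HQ⟩ := HW (2 * n)
  refine ⟨Real.exp (Real.log Q1 + m * (h + n) + 1), by
    rw [Real.one_lt_exp_iff]
    have : 0 ≤ Real.log Q1 := Real.log_nonneg hQ1.le
    positivity, fun L Q M T hT σ hσ hσB s hs => ?_⟩
  obtain ⟨hd, hQge, -, -, hlog⟩ := HF L Q M
  have hT0 : Real.log Q1 + m * (h + n) + 1 ≤ Real.log (Q T) :=
    (Real.le_log_iff_exp_le (by linarith [hQge T])).2 hT
  have hl1 : 0 ≤ Real.log Q1 := Real.log_nonneg hQ1.le
  have hmn : (0:ℝ) ≤ m * (h + n) := by positivity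
  have hΛ0 : 0 ≤ Real.log (Q T) := by linarith
  -- a long window about `T + x`
  have key : ∀ x : ℝ, |x| ≤ h + n → ∫⁻ t in Icc (T + x) (T + x + 2 * n), ENNReal.ofReal |Dl L σ t| ≤
      ENNReal.ofReal (4 * n * C₀ * Real.log (Q T)) := by
    intro x hx
    have hup := hlog T x
    have hdown := hlog (T + x) (-x)
    rw [add_neg_cancel_right, abs_neg] at hdown
    have hmx : (m : ℝ) * |x| ≤ m * (h + n) := mul_le_mul_of_nonneg_left hx (by positivity)
    have hj0 : Q1 ≤ Q (T + x) := by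
      have h2 : Real.log Q1 ≤ Real.log (Q (T + x)) := by linarith
      exact (Real.log_le_log_iff (by linarith) (by linarith [hQge (T + x)])).1 h2
    have h3 := HQ L Q M (T + x) hj0 σ hσ hσB (2 * n) le_rfl
    push_cast at h3
    refine h3.trans (ENNReal.ofReal_le_ofReal ?_)
    have h4 : Real.log (Q (T + x)) ≤ 2 * Real.log (Q T) := by linarith
    have h5 : 2 * n * (C₀ * Real.log (Q (T + x))) = 2 * n * C₀ * Real.log (Q (T + x)) := by ring
    rw [h5]
    have h6 : 2 * n * C₀ * Real.log (Q (T + x)) ≤ 2 * n * C₀ * (2 * Real.log (Q T)) :=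
      mul_le_mul_of_nonneg_left h4 (by positivity)
    linarith
  have hs' := abs_le.1 hs
  have hi := Dl_integrable hm hθ0 hθ M σ
  have e1 : (∫ t in T..(T + h), Dl L σ t) - ∫ t in s..(s + h), Dl L σ t =
      (∫ t in T..s, Dl L σ t) + ∫ t in (s + h)..(T + h), Dl L σ t := by
    have h1 := intervalIntegral.integral_add_adjacent_intervals (hi T s) (hi s (s + h))
    have h2 := intervalIntegral.integral_add_adjacent_intervals (hi T (s + h)) (hi (s + h) (T + h))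
    linarith
  have h1 : |∫ t in T..s, Dl L σ t| ≤ 4 * n * C₀ * Real.log (Q T) := by
    refine abs_int_le (by positivity) (hi T s) ?_ (key (-n) ?_)
    · intro t ht
      rw [Set.mem_uIoc] at ht
      constructor <;> rcases ht with ht | ht <;> linarith [ht.1, ht.2]
    · rw [abs_neg, abs_of_nonneg (by positivity)]
      linarith
  have h2 : |∫ t in (s + h)..(T + h), Dl L σ t| ≤ 4 * n * C₀ * Real.log (Q T) := by
    refine abs_int_le (by positivity) (hi _ _) ?_ (key (h - n) ?_)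
    · intro t ht
      rw [Set.mem_uIoc] at ht
      constructor <;> rcases ht with ht | ht <;> linarith [ht.1, ht.2]
    · rw [abs_le]
      constructor <;> linarith
  rw [e1]
  calc _ ≤ |∫ t in T..s, Dl L σ t| + |∫ t in (s + h)..(T + h), Dl L σ t| := abs_add_le _ _
    _ ≤ _ := by linarith

/-- if the critical values near `T` are at most `Q ^ (1/4 - δ)`, then on the line `1 - δ/2` all long windows at `T`
have mean rotation at most `q log Q` with `q < 1/2` -/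
theorem slow (hm : 1 ≤ m) (hθ0 : 0 ≤ θ) (hθ : θ < 1 / 2) {δ q : ℝ} (hδ : 0 < δ) (hδ4 : δ ≤ 1 / 4)
    (hq : (1 / 2 - δ) / (1 - δ) < q) :
    ∃ h₀ : ℝ, 0 < h₀ ∧ ∀ h : ℝ, h₀ ≤ h → ∃ H Q0 : ℝ, 0 < H ∧ 1 < Q0 ∧ ∀ (L : ℂ → ℂ) (Q : ℝ → ℝ), Mem θ m L Q →
      ∀ T : ℝ, Q0 ≤ Q T → (∀ t : ℝ, |t - T| ≤ H → ‖L ⟨1 / 2, t⟩‖ ≤ Real.exp ((1 / 4 - δ) * Real.log (Q T))) →
        ∫ t in T..(T + h), Dl L (1 - δ / 2) t ≤ q * h * Real.log (Q T) := by
  obtain ⟨A, hA, HF⟩ := factsM hm hθ0 hθ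
  obtain ⟨H, hH, HS⟩ := slow_some hm hθ0 hθ hδ hδ4
  obtain ⟨C, hC, HD⟩ := Dl_shift hm hθ0 hθ (δ := 1 / 4) (B := 1) (H := H) (by norm_num) hH.le
  obtain ⟨q₁, hq₁⟩ : ∃ q₁ : ℝ, q₁ = (1 / 2 - δ) / (1 - δ) := ⟨_, rfl⟩
  rw [← hq₁] at hq
  have hg : 0 < q - q₁ := by linarith
  refine ⟨C / (q - q₁), by positivity, fun h hh => ?_⟩
  have hh0 : 0 < h := lt_of_lt_of_le (by positivity) hh
  have hCh : C ≤ h * (q - q₁) := by rwa [div_le_iff₀ hg] at hh
  obtain ⟨Q1, hQ1, H1⟩ := HS h hh0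
  obtain ⟨Q2, hQ2, H2⟩ := HD h hh0.le
  refine ⟨H + h, max Q1 Q2, by positivity, lt_max_of_lt_left hQ1, fun L Q M T hT hsub => ?_⟩
  obtain ⟨hd, hQge, -, -, -⟩ := HF L Q M
  have hΛ0 : 0 ≤ Real.log (Q T) := Real.log_nonneg (hQge T)
  obtain ⟨s, hs, h3⟩ := H1 L Q M T ((le_max_left _ _).trans hT) hsub
  have h4 := H2 L Q M T ((le_max_right _ _).trans hT) (1 - δ / 2) (by linarith) (by linarith) s hs
  rw [← hq₁] at h3
  have h5 := (abs_le.1 h4).2
  have h6 : C * Real.log (Q T) ≤ h * (q - q₁) * Real.log (Q T) := mul_le_mul_of_nonneg_right hCh hΛ0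
  have h7 : h * (q - q₁) * Real.log (Q T) = q * h * Real.log (Q T) - q₁ * h * Real.log (Q T) := by ring
  linarith

end Pool.Agent.V7H88.NF
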