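import Mathlib
import Pool.Agent.V7H88.NF.D
import Pool.Agent.V7H88.NF.F
import Pool.Agent.V7H83.SC.S8

/-!
# Criteria for families by the rotation on vertical lines
-/

set_option autoImplicit false

open Complex Filter Topology Metric Set MeasureTheory

namespace Pool.Agent.V7H88.NF

open Pool.Agent.V7H83.CZ Pool.Agent.V7H89.GL Pool.Agent.W169.HF H353.E H353.F

variable {m : ℕ} {θ : ℝ}

/-- the truncated window mean dominates the window mean -/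
lemma log_le_Um {f : ℂ → ℂ} (hf : Differentiable ℂ f) {σ T h m : ℝ} (hh : 0 ≤ h)
    (hfin : {y : ℝ | y ∈ Icc T (T + h) ∧ f ⟨σ, y⟩ = 0}.Finite) :
    ∫ t in T..(T + h), Real.log ‖f ⟨σ, t⟩‖ ≤ Um f m h ⟨σ, T⟩ := by
  have e1 : ∫ t in T..(T + h), Real.log ‖f ⟨σ, t⟩‖ = ∫ y in (0:ℝ)..h, Real.log ‖f (⟨σ, T⟩ + y * I)‖ := by
    simp only [axis_eq]
    rw [intervalIntegral.integral_comp_add_left (fun y => Real.log ‖f ⟨σ, y⟩‖) T, add_zero]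
  rw [e1, Um]
  have hmer : MeromorphicOn (fun y : ℝ => f (⟨σ, T⟩ + y * I)) (Set.uIcc 0 h) := by
    intro y _
    have h2 : AnalyticAt ℝ f (⟨σ, T⟩ + y * I) := (hf.analyticAt _).restrictScalars
    have h3 : AnalyticAt ℝ (fun y : ℝ => (⟨σ, T⟩ : ℂ) + y * I) y :=
      analyticAt_const.add ((Complex.ofRealCLM.analyticAt y).mul analyticAt_const)
    have h4 : AnalyticAt ℝ (f ∘ fun y : ℝ => (⟨σ, T⟩ : ℂ) + y * I) y :=
      AnalyticAt.comp (g := f) (f := fun y : ℝ => (⟨σ, T⟩ : ℂ) + y * I) h2 h3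
    exact h4.meromorphicAt
  have hc : Continuous (fun y : ℝ => um f m (⟨σ, T⟩ + y * I)) := (um_cont hf.continuous m).comp (by fun_prop)
  have hz : ∀ᵐ y : ℝ ∂volume, y ∈ Icc 0 h → f (⟨σ, T⟩ + y * I) ≠ 0 := by
    have h2 : {y : ℝ | y ∈ Icc 0 h ∧ f (⟨σ, T⟩ + y * I) = 0} ⊆
        (fun y => T + y) ⁻¹' {y : ℝ | y ∈ Icc T (T + h) ∧ f ⟨σ, y⟩ = 0} := by
      rintro y ⟨hy1, hy2⟩
      refine ⟨⟨by linarith [hy1.1], by linarith [hy1.2]⟩, ?_⟩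
      rwa [axis_eq] at hy2
    have h3 := (hfin.preimage (fun x _ y _ hxy => by simpa using hxy)).subset h2
    have h4 : ∀ᵐ y ∂(volume : Measure ℝ), y ∉ {y : ℝ | y ∈ Icc 0 h ∧ f (⟨σ, T⟩ + y * I) = 0} :=
      compl_mem_ae_iff.2 (h3.measure_zero volume)
    filter_upwards [h4] with y hy hyI h0
    exact hy ⟨hyI, h0⟩
  refine intervalIntegral.integral_mono_ae_restrict hh hmer.intervalIntegrable_log_norm
    (hc.intervalIntegrable _ _) ?_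
  rw [Filter.EventuallyLE, ae_restrict_iff' measurableSet_Icc]
  filter_upwards [hz] with y hy hyI
  exact um_ge_log f m (hy hyI)

/-- zeros on a line -/
lemma line_fin (hm : 1 ≤ m) (hθ0 : 0 ≤ θ) (hθ : θ < 1 / 2) {L : ℂ → ℂ} {Q : ℝ → ℝ} (M : Mem θ m L Q)
    (σ : ℝ) {a b : ℝ} (hab : a ≤ b) : {y : ℝ | y ∈ Icc a b ∧ L ⟨σ, y⟩ = 0}.Finite := by
  obtain ⟨A, hA, HF⟩ := factsM hm hθ0 hθ
  obtain ⟨hd, -, -, hfar, -⟩ := HF L Q M
  obtain ⟨k, hkc, hkf, hkfin⟩ := k_line hd (fun s hs => by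
    rw [← norm_pos_iff]
    exact lt_of_lt_of_le (by positivity) (hfar s hs).2) σ hab
  exact hkfin

/-- **the law**: slow rotation on one line bounds the window means of `log |L|` on all lines to the right -/
theorem log_law (hm : 1 ≤ m) (hθ0 : 0 ≤ θ) (hθ : θ < 1 / 2) {h ε q V : ℝ} (hh : 0 < h) (hε : 0 < ε) (hq : 0 ≤ q)
    (hV : 0 ≤ V) : ∃ η H Q0 : ℝ, 0 < η ∧ 0 < H ∧ 1 < Q0 ∧ ∀ (L : ℂ → ℂ) (Q : ℝ → ℝ), Mem θ m L Q → ∀ T : ℝ,
      Q0 ≤ Q T → ∀ σ₀ : ℝ, 1 / 2 ≤ σ₀ → σ₀ ≤ 1 →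
      (∀ s : ℝ, |s - T| ≤ H → ∫ t in s..(s + h), Dl L σ₀ t ≤ (q + η) * h * Real.log (Q T)) →
      ∀ σ t : ℝ, σ₀ ≤ σ → |t - T| ≤ V →
        ∫ u in t..(t + h), Real.log ‖L ⟨σ, u⟩‖ ≤ (q * max (1 - σ) 0 + ε) * h * Real.log (Q T) := by
  obtain ⟨A, hA, HF⟩ := factsM hm hθ0 hθ
  obtain ⟨η, H, Q0, hη, hH, hQ0, HA⟩ := avg_law hm hθ0 hθ (h := h) (ε := ε) (q := q) (V := V) hh hε hq hV
  refine ⟨η, H, Q0, hη, hH, hQ0, fun L Q M T hT σ₀ h0 h1 hw σ t hσ ht => ?_⟩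
  obtain ⟨hd, -, -, hfar, -⟩ := HF L Q M
  obtain ⟨m₀, hm₀⟩ := HA L Q M T hT σ₀ h0 h1 hw
  exact (log_le_Um hd hh.le (line_fin hm hθ0 hθ M σ (by linarith))).trans (hm₀ ⟨σ, t⟩ hσ ht)

/-- the defect on a line from the window mean -/
lemma df_ge {L : ℂ → ℂ} (hL : Continuous L) {q T h x m₀ : ℝ} (hq : 0 < q) (hh : 0 ≤ h) :
    ENNReal.ofReal (h * ((1 / 4 - x / 2) * Real.log q) - Um L m₀ h ⟨1 / 2 + x, T⟩) ≤
      Pool.Agent.V7H83.SC.df L q T (h + 1) x := by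
  obtain ⟨g, hg⟩ : ∃ g : ℝ → ℝ, g = fun v : ℝ => (1 / 4 - x / 2) * Real.log q - um L m₀ (⟨1 / 2 + x, T⟩ + v * I) :=
    ⟨_, rfl⟩
  have hgc : Continuous g := by
    rw [hg]
    exact continuous_const.sub ((um_cont hL m₀).comp (by fun_prop))
  have h1 : h * ((1 / 4 - x / 2) * Real.log q) - Um L m₀ h ⟨1 / 2 + x, T⟩ = ∫ v in (0:ℝ)..h, g v := by
    have huc : Continuous fun v : ℝ => um L m₀ (⟨1 / 2 + x, T⟩ + v * I) := (um_cont hL m₀).comp (by fun_prop)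
    rw [hg]
    show _ = ∫ v in (0:ℝ)..h, ((1 / 4 - x / 2) * Real.log q - um L m₀ (⟨1 / 2 + x, T⟩ + v * I))
    rw [intervalIntegral.integral_sub intervalIntegrable_const (huc.intervalIntegrable _ _),
      intervalIntegral.integral_const, smul_eq_mul, sub_zero, Um]
  rw [h1, intervalIntegral.integral_of_le hh]
  have h2 : ∫ v in Ioc 0 h, g v ≤ ∫ v in Ioc 0 h, max (g v) 0 := by
    refine integral_mono ?_ ?_ fun v => le_max_left _ _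
    · exact (hgc.integrableOn_Icc (a := 0) (b := h)).mono_set Ioc_subset_Icc_self
    · exact ((hgc.max continuous_const).integrableOn_Icc (a := 0) (b := h)).mono_set Ioc_subset_Icc_self
  have h3 : ENNReal.ofReal (∫ v in Ioc 0 h, max (g v) 0) = ∫⁻ v in Ioc 0 h, ENNReal.ofReal (max (g v) 0) := by
    rw [ofReal_integral_eq_lintegral_ofReal]
    · exact ((hgc.max continuous_const).integrableOn_Icc (a := 0) (b := h)).mono_set Ioc_subset_Icc_self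
    · exact Eventually.of_forall fun v => le_max_right _ _
  refine (ENNReal.ofReal_le_ofReal h2).trans ?_
  rw [h3]
  unfold Pool.Agent.V7H83.SC.df
  have hsub : Ioc (0 : ℝ) h ⊆ Ico (-(h + 1)) (h + 1) := fun v hv => ⟨by linarith [hv.1], by linarith [hv.2]⟩
  refine le_trans ?_ (lintegral_mono_set hsub)
  refine lintegral_mono fun v => ?_
  have e0 : ENNReal.ofReal (max (g v) 0) = ENNReal.ofReal (g v) := by
    rcases le_total 0 (g v) with h4 | h4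
    · rw [max_eq_left h4]
    · rw [max_eq_right h4, ENNReal.ofReal_zero, ENNReal.ofReal_of_nonpos h4]
  rw [e0]
  have e1 : (1 / 2 + T * I + Pool.Agent.V7H83.SC.pt x v : ℂ) = ⟨1 / 2 + x, T⟩ + v * I := by
    rw [Pool.Agent.V7H83.SC.pt]
    apply Complex.ext
    · simp
    · simp
  rw [e1]
  unfold Pool.Agent.V7H83.LG.nl
  obtain ⟨w, hw⟩ : ∃ w : ℂ, w = ⟨1 / 2 + x, T⟩ + v * I := ⟨_, rfl⟩
  rw [hg]
  simp only []
  rw [← hw]
  have hp : 0 < q ^ (-(1 / 4 - x / 2)) := Real.rpow_pos_of_pos hq _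
  split_ifs with h5
  · exact le_top
  · have h6 : L w ≠ 0 := by
      intro h0
      apply h5
      rw [h0, norm_zero, zero_mul]
    apply ENNReal.ofReal_le_ofReal
    rw [Real.log_mul (norm_ne_zero_iff.2 h6) hp.ne', Real.log_rpow hq]
    have := um_ge_log L m₀ h6
    linarith

/-- the rotation condition on a line -/
def Rot (S : Set ((ℂ → ℂ) × (ℝ → ℝ))) (σ₀ h q : ℝ) : Prop := ∃ Q0 : ℝ, ∀ A ∈ S, ∀ T : ℝ, Q0 ≤ A.2 T →
  ∫ t in T..(T + h), Dl A.1 σ₀ t ≤ q * h * Real.log (A.2 T)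

variable {S : Set ((ℂ → ℂ) × (ℝ → ℝ))}

/-- the condition at all windows near a height -/
lemma Rot.near (hm : 1 ≤ m) (hθ0 : 0 ≤ θ) (hθ : θ < 1 / 2) (hS : ∀ A ∈ S, Mem θ m A.1 A.2) {σ₀ h q : ℝ}
    (hh : 0 < h) (hr : Rot S σ₀ h q) {η H : ℝ} (hη : 0 < η) (hH : 0 ≤ H) :
    ∃ Q0 : ℝ, 1 < Q0 ∧ ∀ A ∈ S, ∀ T : ℝ, Q0 ≤ A.2 T → ∀ s : ℝ, |s - T| ≤ H →
      ∫ t in s..(s + h), Dl A.1 σ₀ t ≤ (max q 0 + η) * h * Real.log (A.2 T) := by
  obtain ⟨A₀, hA₀, HF⟩ := factsM hm hθ0 hθ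
  obtain ⟨Q1, H1⟩ := hr
  obtain ⟨p, hp⟩ : ∃ p : ℝ, p = max q 0 := ⟨_, rfl⟩
  have hp0 : 0 ≤ p := by rw [hp]; exact le_max_right _ _
  have hpq : q ≤ p := by rw [hp]; exact le_max_left _ _
  rw [← hp]
  obtain ⟨Q2, hQ2⟩ : ∃ Q2 : ℝ, Q2 = max Q1 1 := ⟨_, rfl⟩
  have hQ21 : 1 ≤ Q2 := by rw [hQ2]; exact le_max_right _ _
  have hl2 : 0 ≤ Real.log Q2 := Real.log_nonneg hQ21
  refine ⟨Real.exp (Real.log Q2 + m * H + p * (m * H) / η + 1), by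
    rw [Real.one_lt_exp_iff]
    positivity, fun A hA T hT s hs => ?_⟩
  obtain ⟨hd, hQge, -, -, hlog⟩ := HF A.1 A.2 (hS A hA)
  have hT0 : Real.log Q2 + m * H + p * (m * H) / η + 1 ≤ Real.log (A.2 T) :=
    (Real.le_log_iff_exp_le (by linarith [hQge T])).2 hT
  have hx : 0 ≤ p * (m * H) / η := by positivity
  have hmH : (0:ℝ) ≤ m * H := by positivity
  have hup := hlog T (s - T)
  have hdown := hlog s (T - s)
  rw [add_sub_cancel] at hup hdown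
  have hms : (m : ℝ) * |s - T| ≤ m * H := mul_le_mul_of_nonneg_left hs (by positivity)
  have hms' : (m : ℝ) * |T - s| ≤ m * H := by rw [abs_sub_comm]; exact hms
  have hsQ : Q1 ≤ A.2 s := by
    have h2 : Real.log Q2 ≤ Real.log (A.2 s) := by linarith
    have h3 : Q2 ≤ A.2 s := (Real.log_le_log_iff (by linarith) (by linarith [hQge s])).1 h2
    refine le_trans ?_ h3
    rw [hQ2]
    exact le_max_left _ _
  refine (H1 A hA s hsQ).trans ?_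
  have hls : 0 ≤ Real.log (A.2 s) := Real.log_nonneg (hQge s)
  have h4 : q * h * Real.log (A.2 s) ≤ p * h * Real.log (A.2 s) :=
    mul_le_mul_of_nonneg_right (mul_le_mul_of_nonneg_right hpq hh.le) hls
  have h5 : p * h * Real.log (A.2 s) ≤ p * h * (Real.log (A.2 T) + m * H) :=
    mul_le_mul_of_nonneg_left (by linarith) (by positivity)
  have h6 : p * (m * H) ≤ η * Real.log (A.2 T) := by
    have h7 : p * (m * H) / η ≤ Real.log (A.2 T) := by linarith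
    rw [div_le_iff₀ hη] at h7
    linarith
  have h8 : h * (p * (m * H)) ≤ h * (η * Real.log (A.2 T)) := mul_le_mul_of_nonneg_left h6 hh.le
  have h9 : p * h * (Real.log (A.2 T) + m * H) = p * h * Real.log (A.2 T) + h * (p * (m * H)) := by ring
  have h10 : (p + η) * h * Real.log (A.2 T) = p * h * Real.log (A.2 T) + h * (η * Real.log (A.2 T)) := by ring
  linarith

/-- **subconvexity from a slow line** -/
theorem all_of_rot (hm : 1 ≤ m) (hθ0 : 0 ≤ θ) (hθ : θ < 1 / 2) (hS : ∀ A ∈ S, Mem θ m A.1 A.2) {σ₀ h q : ℝ}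
    (h0 : 1 / 2 ≤ σ₀) (h1 : σ₀ < 1) (hh : 0 < h) (hq : q < 1 / 2) (hr : Rot S σ₀ h q) :
    Pool.Agent.V7H83.SC.All S (1 / 2) := by
  obtain ⟨A₀, hA₀, HF⟩ := factsM hm hθ0 hθ
  obtain ⟨p, hp⟩ : ∃ p : ℝ, p = max q 0 := ⟨_, rfl⟩
  have hp0 : 0 ≤ p := by rw [hp]; exact le_max_right _ _
  have hp2 : p < 1 / 2 := by rw [hp]; exact max_lt hq (by norm_num)
  obtain ⟨g, hg⟩ : ∃ g : ℝ, g = (1 / 2 - p) * (1 - σ₀) := ⟨_, rfl⟩
  have hg0 : 0 < g := by rw [hg]; exact mul_pos (by linarith) (by linarith)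
  obtain ⟨η, H, Q1, hη, hH, hQ1, H1⟩ := avg_law hm hθ0 hθ (h := h) (ε := g / 2) (q := p) (V := 0) hh (by positivity)
    hp0 le_rfl
  obtain ⟨Q2, hQ2, H2⟩ := Rot.near hm hθ0 hθ hS hh hr hη hH.le
  have hgood : Pool.Agent.V7H83.SC.Good (m : ℝ) S := Pool.Agent.V7H83.SC.good_of hm hθ0 hθ hS
  refine Pool.Agent.V7H83.SC.principle hgood (a1 := 1 - σ₀) (H1 := h + 1) (κ0 := h * g / 4) (Q0 := max Q1 Q2)
    (by linarith) (by linarith) (by linarith) (by positivity) ?_ (a := 1 / 2) (by norm_num) le_rfl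
  intro A hA T hT hall
  obtain ⟨hd, hQge, -, -, -⟩ := HF A.1 A.2 (hS A hA)
  have hT1 := (le_max_left _ _).trans hT
  have hT2 := (le_max_right _ _).trans hT
  have hΛ : 0 < Real.log (A.2 T) := Real.log_pos (by linarith)
  obtain ⟨m₀, hm₀⟩ := H1 A.1 A.2 (hS A hA) T hT1 σ₀ h0 h1.le (by rw [hp]; exact H2 A hA T hT2)
  have h3 := hm₀ ⟨σ₀, T⟩ le_rfl (by simp)
  have h4 := df_ge hd.continuous (q := A.2 T) (T := T) (h := h) (x := σ₀ - 1 / 2) (m₀ := m₀) (by linarith [hQge T])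
    hh.le
  have h5 := hall (σ₀ - 1 / 2) (by linarith) (by linarith)
  have h6 := h4.trans h5
  have e1 : (1 / 2 + (σ₀ - 1 / 2) : ℝ) = σ₀ := by ring
  rw [e1] at h6
  have h7 : h * g / 2 * Real.log (A.2 T) ≤
      h * ((1 / 4 - (σ₀ - 1 / 2) / 2) * Real.log (A.2 T)) - Um A.1 m₀ h ⟨σ₀, T⟩ := by
    have e2 : max (1 - (⟨σ₀, T⟩ : ℂ).re) 0 = 1 - σ₀ := max_eq_left (by show 0 ≤ 1 - σ₀; linarith)
    rw [e2] at h3
    have e3 : h * ((1 / 4 - (σ₀ - 1 / 2) / 2) * Real.log (A.2 T)) - (p * (1 - σ₀) + g / 2) * h * Real.log (A.2 T) =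
        h * g / 2 * Real.log (A.2 T) := by rw [hg]; ring
    linarith
  have h8 := (ENNReal.ofReal_le_ofReal h7).trans h6
  have h9 : 0 < h * g * Real.log (A.2 T) := by positivity
  rw [ENNReal.ofReal_le_ofReal_iff (by positivity)] at h8
  linarith

/-- critical values near a height in terms of the conductor at this height -/
lemma near_pow (hm : 1 ≤ m) (hθ0 : 0 ≤ θ) (hθ : θ < 1 / 2) {a b C H : ℝ} (ha : 0 ≤ a) (hab : a < b) (hH : 0 ≤ H) :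
    ∃ Q0 : ℝ, 1 < Q0 ∧ ∀ (L : ℂ → ℂ) (Q : ℝ → ℝ), Mem θ m L Q → ∀ T : ℝ, Q0 ≤ Q T → ∀ t : ℝ, |t - T| ≤ H →
      ∀ x : ℝ, x ≤ C * Q t ^ a → x ≤ Real.exp (b * Real.log (Q T)) := by
  obtain ⟨A₀, hA₀, HF⟩ := factsM hm hθ0 hθ
  obtain ⟨C', hC'⟩ : ∃ C' : ℝ, C' = max C 1 := ⟨_, rfl⟩
  have hC'1 : 1 ≤ C' := by rw [hC']; exact le_max_right _ _
  have hC'0 : C ≤ C' := by rw [hC']; exact le_max_left _ _
  have hl : 0 ≤ Real.log C' := Real.log_nonneg hC'1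
  have hba : 0 < b - a := by linarith
  have hmH : (0:ℝ) ≤ m * H := by positivity
  refine ⟨Real.exp ((Real.log C' + a * (m * H)) / (b - a) + 1), by
    rw [Real.one_lt_exp_iff]
    positivity, fun L Q M T hT t ht x hx => ?_⟩
  obtain ⟨hd, hQge, -, -, hlog⟩ := HF L Q M
  have hT0 : (Real.log C' + a * (m * H)) / (b - a) + 1 ≤ Real.log (Q T) :=
    (Real.le_log_iff_exp_le (by linarith [hQge T])).2 hT
  have h1 : Real.log C' + a * (m * H) ≤ (b - a) * Real.log (Q T) := by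
    have h2 : (Real.log C' + a * (m * H)) / (b - a) ≤ Real.log (Q T) := by linarith
    rw [div_le_iff₀ hba] at h2
    linarith
  have hup := hlog T (t - T)
  rw [add_sub_cancel] at hup
  have hms : (m : ℝ) * |t - T| ≤ m * H := mul_le_mul_of_nonneg_left ht (by positivity)
  have hpos : 0 < Q t := by linarith [hQge t]
  calc x ≤ C * Q t ^ a := hx
    _ ≤ C' * Q t ^ a := mul_le_mul_of_nonneg_right hC'0 (Real.rpow_nonneg hpos.le _)
    _ = Real.exp (Real.log C' + a * Real.log (Q t)) := by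
        rw [Real.exp_add, Real.exp_log (by linarith), Real.rpow_def_of_pos hpos, mul_comm a]
    _ ≤ _ := by
        apply Real.exp_le_exp.2
        have h3 : a * Real.log (Q t) ≤ a * (Real.log (Q T) + m * H) := mul_le_mul_of_nonneg_left (by linarith) ha
        nlinarith

/-- **slow lines from subconvexity** -/
theorem rot_of_all (hm : 1 ≤ m) (hθ0 : 0 ≤ θ) (hθ : θ < 1 / 2) (hS : ∀ A ∈ S, Mem θ m A.1 A.2)
    (h : Pool.Agent.V7H83.SC.All S (1 / 2)) : ∃ σ₁ : ℝ, 1 / 2 < σ₁ ∧ σ₁ < 1 ∧ ∀ σ₀ : ℝ, σ₁ ≤ σ₀ → σ₀ < 1 →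
      ∃ q h₀ : ℝ, q < 1 / 2 ∧ 0 < h₀ ∧ ∀ h : ℝ, h₀ ≤ h → Rot S σ₀ h q := by
  obtain ⟨A₀, hA₀, HF⟩ := factsM hm hθ0 hθ
  obtain ⟨δ, C, hδ, hC, h1⟩ := h
  obtain ⟨δ₂, hδ₂⟩ : ∃ δ₂ : ℝ, δ₂ = min δ (1 / 4) := ⟨_, rfl⟩
  have hδ₂0 : 0 < δ₂ := by rw [hδ₂]; exact lt_min hδ (by norm_num)
  have hδ₂1 : δ₂ ≤ δ := by rw [hδ₂]; exact min_le_left _ _
  have hδ₂2 : δ₂ ≤ 1 / 4 := by rw [hδ₂]; exact min_le_right _ _
  refine ⟨1 - δ₂ / 4, by linarith, by linarith, fun σ₀ h2 h3 => ?_⟩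
  obtain ⟨δ', hδ'⟩ : ∃ δ' : ℝ, δ' = 2 * (1 - σ₀) := ⟨_, rfl⟩
  have hδ'0 : 0 < δ' := by rw [hδ']; linarith
  have hδ'1 : δ' ≤ δ₂ / 2 := by rw [hδ']; linarith
  obtain ⟨q, hq⟩ : ∃ q : ℝ, q = ((1 / 2 - δ') / (1 - δ') + 1 / 2) / 2 := ⟨_, rfl⟩
  have h4 : (1 / 2 - δ') / (1 - δ') < 1 / 2 := by
    rw [div_lt_iff₀ (by linarith)]
    linarith
  obtain ⟨h₀, hh₀, HS⟩ := slow hm hθ0 hθ (δ := δ') (q := q) hδ'0 (by linarith) (by rw [hq]; linarith)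
  refine ⟨q, h₀, by rw [hq]; linarith, hh₀, fun h hh => ?_⟩
  obtain ⟨H, Q1, hH, hQ1, H1⟩ := HS h hh
  obtain ⟨Q2, hQ2, H2⟩ := near_pow hm hθ0 hθ (a := 1 / 4 - δ₂) (b := 1 / 4 - δ') (C := C) (H := H) (by linarith)
    (by linarith) hH.le
  refine ⟨max Q1 Q2, fun A hA T hT => ?_⟩
  obtain ⟨hd, hQge, -, -, -⟩ := HF A.1 A.2 (hS A hA)
  have h5 := H1 A.1 A.2 (hS A hA) T ((le_max_left _ _).trans hT) (fun t ht => by
    refine H2 A.1 A.2 (hS A hA) T ((le_max_right _ _).trans hT) t ht _ ?_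
    have h6 := h1 A hA t 0 le_rfl (by norm_num)
    have e1 : (1 / 2 + t * I + ((0 : ℝ) : ℂ) : ℂ) = ⟨1 / 2, t⟩ := by
      apply Complex.ext <;> simp
    rw [e1] at h6
    refine h6.trans (mul_le_mul_of_nonneg_left ?_ hC.le)
    exact Real.rpow_le_rpow_of_exponent_le (hQge t) (by linarith))
  have e2 : 1 - δ' / 2 = σ₀ := by rw [hδ']; ring
  rwa [e2] at h5

/-- the uniform Lindelöf bound -/
def Lind (S : Set ((ℂ → ℂ) × (ℝ → ℝ))) : Prop := ∀ ε : ℝ, 0 < ε → ∃ C : ℝ, ∀ A ∈ S, ∀ t : ℝ,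
  ‖A.1 (1 / 2 + t * I)‖ ≤ C * A.2 t ^ ε

lemma half_eq (t : ℝ) : (1 / 2 + t * I : ℂ) = ⟨1 / 2, t⟩ := by
  apply Complex.ext <;> simp

/-- **the mean of the absolute value from the Lindelöf bound** -/
theorem flat_of_lind (hm : 1 ≤ m) (hθ0 : 0 ≤ θ) (hθ : θ < 1 / 2) (hS : ∀ A ∈ S, Mem θ m A.1 A.2) (h : Lind S)
    {δ B ε : ℝ} (hδ : 0 < δ) (hε : 0 < ε) : ∃ Q0 : ℝ, ∀ A ∈ S, ∀ T : ℝ, Q0 ≤ A.2 T → ∀ σ : ℝ, 1 / 2 + δ ≤ σ →
      σ ≤ B → ∫⁻ t in Icc T (T + 1), ENNReal.ofReal |Dl A.1 σ t| ≤ ENNReal.ofReal (ε * Real.log (A.2 T)) := by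
  obtain ⟨κ, H, Q1, hκ, hH, hQ1, H1⟩ := flatM hm hθ0 hθ (δ := δ) (ε := ε) (B := B) hδ hε
  obtain ⟨C, hC⟩ := h (κ / 2) (by positivity)
  obtain ⟨Q2, hQ2, H2⟩ := near_pow hm hθ0 hθ (a := κ / 2) (b := κ) (C := C) (H := H) (by positivity)
    (by linarith) hH.le
  refine ⟨max Q1 Q2, fun A hA T hT σ hσ hσB => ?_⟩
  refine H1 A.1 A.2 (hS A hA) T ((le_max_left _ _).trans hT) (fun t ht => ?_) σ hσ hσB
  refine H2 A.1 A.2 (hS A hA) T ((le_max_right _ _).trans hT) t ht _ ?_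
  rw [← half_eq]
  exact hC A hA t

/-- the signed mean from the mean of the absolute value -/
theorem rot_of_flat (hm : 1 ≤ m) (hθ0 : 0 ≤ θ) (hθ : θ < 1 / 2) (hS : ∀ A ∈ S, Mem θ m A.1 A.2) {σ : ℝ}
    (h : ∀ ε : ℝ, 0 < ε → ∃ Q0 : ℝ, ∀ A ∈ S, ∀ T : ℝ, Q0 ≤ A.2 T →
      ∫⁻ t in Icc T (T + 1), ENNReal.ofReal |Dl A.1 σ t| ≤ ENNReal.ofReal (ε * Real.log (A.2 T)))
    {q : ℝ} (hq : 0 < q) : Rot S σ 1 q := by
  obtain ⟨A₀, hA₀, HF⟩ := factsM hm hθ0 hθ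
  obtain ⟨Q0, hQ0⟩ := h q hq
  refine ⟨Q0, fun A hA T hT => ?_⟩
  obtain ⟨hd, hQge, -, -, -⟩ := HF A.1 A.2 (hS A hA)
  have hΛ : 0 ≤ Real.log (A.2 T) := Real.log_nonneg (hQge T)
  have h1 := abs_int_le (g := Dl A.1 σ) (a := T) (b := T + 1) (c := T) (d := T + 1) (X := q * Real.log (A.2 T))
    (by positivity) (Dl_integrable hm hθ0 hθ (hS A hA) σ _ _) (by
      rw [Set.uIoc_of_le (by linarith)]
      exact Ioc_subset_Icc_self) (hQ0 A hA T hT)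
  rw [mul_one]
  exact (le_abs_self _).trans h1

/-- **the Lindelöf bound from slow lines near the critical line** -/
theorem lind_of_rot (hm : 1 ≤ m) (hθ0 : 0 ≤ θ) (hθ : θ < 1 / 2) (hS : ∀ A ∈ S, Mem θ m A.1 A.2) {h : ℝ}
    (hh : 0 < h) (hr : ∀ δ : ℝ, 0 < δ → ∃ σ₀ : ℝ, 1 / 2 ≤ σ₀ ∧ σ₀ ≤ 1 / 2 + δ ∧ ∀ q : ℝ, 0 < q → Rot S σ₀ h q) :
    Lind S := by
  obtain ⟨A₀, hA₀, HF⟩ := factsM hm hθ0 hθ
  intro ε hε
  obtain ⟨η, H, Q1, hη, hH, hQ1, H1⟩ := lind_law hm hθ0 hθ hε hh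
  obtain ⟨σ₀, h0, h1, hr'⟩ := hr η hη
  obtain ⟨q, hq⟩ : ∃ q : ℝ, q = η / (2 * h) := ⟨_, rfl⟩
  have hq0 : 0 < q := by rw [hq]; positivity
  have hqh : q * h = η / 2 := by rw [hq]; field_simp
  obtain ⟨Q2, hQ2, H2⟩ := Rot.near hm hθ0 hθ hS hh (hr' q hq0) (η := q) (H := H) hq0 hH.le
  rw [max_eq_left hq0.le] at H2
  obtain ⟨Q3, hQ3⟩ : ∃ Q3 : ℝ, Q3 = max Q1 Q2 := ⟨_, rfl⟩
  have hQ31 : 1 < Q3 := by rw [hQ3]; exact lt_max_of_lt_left hQ1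
  have hlog : 0 < Real.log Q3 := Real.log_pos hQ31
  refine ⟨max 1 (Real.exp (A₀ + Real.log Q3 + m * Real.log (‖(1 / 2 : ℂ)‖ + 1))), fun A hA t => ?_⟩
  obtain ⟨hd, hQge, hgr, -, -⟩ := HF A.1 A.2 (hS A hA)
  have hpw : 1 ≤ A.2 t ^ ε := Real.one_le_rpow (hQge t) hε.le
  rcases le_or_gt Q3 (A.2 t) with h3 | h3
  · have h4 : ‖A.1 (1 / 2 + t * I)‖ ≤ A.2 t ^ ε := by
      by_contra hcon
      push Not at hcon
      have hT1 : Q1 ≤ A.2 t := by refine le_trans ?_ h3; rw [hQ3]; exact le_max_left _ _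
      have hT2 : Q2 ≤ A.2 t := by refine le_trans ?_ h3; rw [hQ3]; exact le_max_right _ _
      obtain ⟨s, hs, h5⟩ := H1 A.1 A.2 (hS A hA) t hT1 hcon.le σ₀ h0 h1
      have h6 := H2 A hA t hT2 s hs
      have h7 : (q + q) * h * Real.log (A.2 t) = η * Real.log (A.2 t) := by
        have : (q + q) * h = η := by linarith
        rw [this]
      linarith
    calc _ ≤ 1 * A.2 t ^ ε := by rw [one_mul]; exact h4
      _ ≤ _ := mul_le_mul_of_nonneg_right (le_max_left _ _) (by linarith)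
  · have h4 := hgr t (1 / 2) (by norm_num)
    have h5 : Real.log (A.2 t) ≤ Real.log Q3 := Real.log_le_log (by linarith [hQge t]) h3.le
    calc _ ≤ Real.exp (A₀ + Real.log (A.2 t) + m * Real.log (‖(1 / 2 : ℂ)‖ + 1)) := h4
      _ ≤ Real.exp (A₀ + Real.log Q3 + m * Real.log (‖(1 / 2 : ℂ)‖ + 1)) := Real.exp_le_exp.2 (by linarith)
      _ ≤ max 1 (Real.exp (A₀ + Real.log Q3 + m * Real.log (‖(1 / 2 : ℂ)‖ + 1))) := le_max_right _ _
      _ ≤ _ := le_mul_of_one_le_right (le_trans zero_le_one (le_max_left _ _)) hpw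

/-- long windows from unit windows -/
lemma win_of_unit {Q : ℝ → ℝ} (hQ : ∀ T : ℝ, 1 ≤ Q T) (hlog : ∀ T v : ℝ, Real.log (Q (T + v)) ≤
    Real.log (Q T) + m * |v|) {g : ℝ → ℝ} {C₀ Q1 : ℝ} (hC₀ : 0 ≤ C₀) (hQ1 : 1 ≤ Q1)
    (hu : ∀ T : ℝ, Q1 ≤ Q T → ∫⁻ t in Icc T (T + 1), ENNReal.ofReal |g t| ≤ ENNReal.ofReal (C₀ * Real.log (Q T)))
    (n : ℕ) {T : ℝ} (hT : Real.exp (Real.log Q1 + m * n + 1) ≤ Q T) (j : ℕ) (hj : j ≤ n) :
    ∫⁻ t in Icc T (T + j), ENNReal.ofReal |g t| ≤ ENNReal.ofReal (j * (2 * C₀ * Real.log (Q T))) := by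
  have hT0 : Real.log Q1 + m * n + 1 ≤ Real.log (Q T) := (Real.le_log_iff_exp_le (by linarith [hQ T])).2 hT
  have hl1 : 0 ≤ Real.log Q1 := Real.log_nonneg hQ1
  have hmn : (0:ℝ) ≤ m * n := by positivity
  induction j with
  | zero =>
    have e : Icc T (T + ((0 : ℕ) : ℝ)) = {T} := by simp
    rw [e]
    simp
  | succ j ih =>
    have ih' := ih (by omega)
    have hjn : (j : ℝ) ≤ n := by exact_mod_cast (by omega : j ≤ n)
    have hmj : (m : ℝ) * j ≤ m * n := mul_le_mul_of_nonneg_left hjn (by positivity)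
    have hsub : Icc T (T + ((j + 1 : ℕ) : ℝ)) ⊆ Icc T (T + j) ∪ Icc (T + j) (T + j + 1) := by
      intro t ht
      rcases le_total t (T + j) with h1 | h1
      · exact Or.inl ⟨ht.1, h1⟩
      · refine Or.inr ⟨h1, ?_⟩
        have := ht.2
        push_cast at this
        linarith
    have hup := hlog T j
    have hdown := hlog (T + j) (-j)
    rw [add_neg_cancel_right, abs_neg] at hdown
    rw [abs_of_nonneg (by positivity : (0:ℝ) ≤ j)] at hup hdown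
    have hj0 : Q1 ≤ Q (T + j) := by
      have h2 : Real.log Q1 ≤ Real.log (Q (T + j)) := by linarith
      exact (Real.log_le_log_iff (by linarith) (by linarith [hQ (T + j)])).1 h2
    have h3 := hu (T + j) hj0
    have h4 : C₀ * Real.log (Q (T + j)) ≤ 2 * C₀ * Real.log (Q T) := by
      have : Real.log (Q (T + j)) ≤ 2 * Real.log (Q T) := by linarith
      nlinarith
    have h0 : 0 ≤ 2 * C₀ * Real.log (Q T) := by
      have : 0 ≤ Real.log (Q T) := by linarith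
      positivity
    calc ∫⁻ t in Icc T (T + ((j + 1 : ℕ) : ℝ)), ENNReal.ofReal |g t|
        ≤ ∫⁻ t in Icc T (T + j) ∪ Icc (T + j) (T + j + 1), ENNReal.ofReal |g t| := lintegral_mono_set hsub
      _ ≤ _ := lintegral_union_le _ _ _
      _ ≤ ENNReal.ofReal (j * (2 * C₀ * Real.log (Q T))) + ENNReal.ofReal (2 * C₀ * Real.log (Q T)) :=
          add_le_add ih' (h3.trans (ENNReal.ofReal_le_ofReal h4))
      _ = ENNReal.ofReal (((j + 1 : ℕ) : ℝ) * (2 * C₀ * Real.log (Q T))) := by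
          rw [← ENNReal.ofReal_add (by positivity) h0]
          congr 1
          push_cast
          ring

/-- the signed mean over windows of any length from the mean of the absolute value over unit windows -/
theorem rot_of_flat_h (hm : 1 ≤ m) (hθ0 : 0 ≤ θ) (hθ : θ < 1 / 2) (hS : ∀ A ∈ S, Mem θ m A.1 A.2) {σ h : ℝ}
    (hh : 0 < h) (hf : ∀ ε : ℝ, 0 < ε → ∃ Q0 : ℝ, ∀ A ∈ S, ∀ T : ℝ, Q0 ≤ A.2 T →
      ∫⁻ t in Icc T (T + 1), ENNReal.ofReal |Dl A.1 σ t| ≤ ENNReal.ofReal (ε * Real.log (A.2 T)))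
    {q : ℝ} (hq : 0 < q) : Rot S σ h q := by
  obtain ⟨A₀, hA₀, HF⟩ := factsM hm hθ0 hθ
  obtain ⟨n, hn⟩ := exists_nat_ge h
  have hn0 : (0:ℝ) < n := by linarith
  obtain ⟨Q0, hQ0⟩ := hf (q * h / (2 * n)) (by positivity)
  refine ⟨Real.exp (Real.log (max Q0 1) + m * n + 1), fun A hA T hT => ?_⟩
  obtain ⟨hd, hQge, -, -, hlog⟩ := HF A.1 A.2 (hS A hA)
  have hΛ : 0 ≤ Real.log (A.2 T) := Real.log_nonneg (hQge T)
  have h2 := win_of_unit (m := m) hQge hlog (g := Dl A.1 σ) (C₀ := q * h / (2 * n)) (Q1 := max Q0 1) (by positivity)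
    (le_max_right _ _) (fun T' hT' => hQ0 A hA T' ((le_max_left _ _).trans hT')) n hT n le_rfl
  have e1 : (n : ℝ) * (2 * (q * h / (2 * n)) * Real.log (A.2 T)) = q * h * Real.log (A.2 T) := by
    field_simp
  rw [e1] at h2
  have h1 := abs_int_le (g := Dl A.1 σ) (a := T) (b := T + h) (c := T) (d := T + n) (X := q * h * Real.log (A.2 T))
    (by positivity) (Dl_integrable hm hθ0 hθ (hS A hA) σ _ _) (by
      rw [Set.uIoc_of_le (by linarith)]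
      exact fun t ht => ⟨ht.1.le, ht.2.trans (by linarith)⟩) h2
  exact (le_abs_self _).trans h1

end Pool.Agent.V7H88.NF
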