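import Mathlib
import Pool.Agent.V7H88.NF.D
import Pool.Agent.V7H88.NF.G
import Pool.Agent.V7H83.CZ.I

/-!
# Families with a size: rotation near the centre
-/

set_option autoImplicit false

open Complex Filter Topology Metric Set MeasureTheory
open H370 H370.Loc

namespace Pool.Agent.V7H88.NF

open Pool.Agent.V7H83.CZ Pool.Agent.V7H89.GL Pool.Agent.W169.HF H353.E H353.F

/-- unit windows -/
lemma win_simple {g : ℝ → ℝ} {X : ℝ} (hX : 0 ≤ X) {T : ℝ} (n : ℕ)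
    (hu : ∀ j : ℕ, j < n → ∫⁻ t in Icc (T + j) (T + j + 1), ENNReal.ofReal |g t| ≤ ENNReal.ofReal X) :
    ∫⁻ t in Icc T (T + n), ENNReal.ofReal |g t| ≤ ENNReal.ofReal (n * X) := by
  induction n with
  | zero =>
    have e : Icc T (T + ((0 : ℕ) : ℝ)) = {T} := by simp
    rw [e]
    simp
  | succ j ih =>
    have ih' := ih fun i hi => hu i (by omega)
    have hsub : Icc T (T + ((j + 1 : ℕ) : ℝ)) ⊆ Icc T (T + j) ∪ Icc (T + j) (T + j + 1) := by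
      intro t ht
      rcases le_total t (T + j) with h1 | h1
      · exact Or.inl ⟨ht.1, h1⟩
      · refine Or.inr ⟨h1, ?_⟩
        have := ht.2
        push_cast at this
        linarith
    calc ∫⁻ t in Icc T (T + ((j + 1 : ℕ) : ℝ)), ENNReal.ofReal |g t|
        ≤ ∫⁻ t in Icc T (T + j) ∪ Icc (T + j) (T + j + 1), ENNReal.ofReal |g t| := lintegral_mono_set hsub
      _ ≤ _ := lintegral_union_le _ _ _
      _ ≤ ENNReal.ofReal (j * X) + ENNReal.ofReal X := add_le_add ih' (hu j (by omega))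
      _ = ENNReal.ofReal (((j + 1 : ℕ) : ℝ) * X) := by
          rw [← ENNReal.ofReal_add (by positivity) hX]
          congr 1
          push_cast
          ring

variable {ι : Type*} {m : ℕ} {θ : ℝ} {L : ι → ℂ → ℂ} {Q : ι → ℝ → ℝ} {N : ι → ℝ} {C k : ℝ}

/-- **large values force rotation** -/
theorem rot_law (F : Fam θ m L Q N C k) (hm : 1 ≤ m) (hθ0 : 0 ≤ θ) (hθ : θ < 1 / 2) {β h H₀ : ℝ} (hβ : 0 < β)
    (hh : 0 < h) (hH₀ : 0 ≤ H₀) : ∃ c H X : ℝ, 0 < c ∧ 0 < H ∧ 1 < X ∧ ∀ i, X ≤ N i → ∀ T : ℝ, |T| ≤ H₀ →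
      N i ^ β ≤ ‖L i (1 / 2 + T * I)‖ → ∀ σ : ℝ, 1 / 2 ≤ σ → σ ≤ 1 / 2 + c →
        ∃ s : ℝ, |s - T| ≤ H ∧ c * Real.log (N i) < ∫ t in s..(s + h), Dl (L i) σ t := by
  have hk := F.hk
  obtain ⟨κ, hκ⟩ : ∃ κ : ℝ, κ = β / (k + 1) := ⟨_, rfl⟩
  have hκ0 : 0 < κ := by rw [hκ]; positivity
  have hκe : κ * (k + 1) = β := by rw [hκ]; field_simp
  obtain ⟨η, H, Q1, hη, hH, hQ1, H1⟩ := lind_law hm hθ0 hθ hκ0 hh
  obtain ⟨X, hX, HX⟩ := F.cmp hm hθ0 hθ hH₀ Q1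
  refine ⟨η / 2, H, X, by positivity, hH, hX, fun i hi T hT hbig σ h0 h1 => ?_⟩
  obtain ⟨h2, h3, h4, h5⟩ := HX i hi T hT
  have hN1 : 1 ≤ N i := by linarith
  have h6 : Q i T ^ κ ≤ ‖L i (1 / 2 + T * I)‖ := by
    refine le_trans (pow_le (by linarith) (by linarith) ?_) hbig
    calc κ * Real.log (Q i T) ≤ κ * ((k + 1) * Real.log (N i)) := mul_le_mul_of_nonneg_left h5 hκ0.le
      _ = β * Real.log (N i) := by rw [← mul_assoc, hκe]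
  obtain ⟨s, hs, h7⟩ := H1 _ _ (F.mem i) T h2 h6 σ h0 (by linarith)
  refine ⟨s, hs, lt_of_le_of_lt ?_ h7⟩
  have h8 : η * Real.log (N i) ≤ η * (2 * Real.log (Q i T)) := mul_le_mul_of_nonneg_left h4 hη.le
  linarith

/-- **rotation forces large values** -/
theorem flat_law (F : Fam θ m L Q N C k) (hm : 1 ≤ m) (hθ0 : 0 ≤ θ) (hθ : θ < 1 / 2) {δ B ε H₀ : ℝ} (hδ : 0 < δ)
    (hε : 0 < ε) (hH₀ : 0 ≤ H₀) : ∃ c H X : ℝ, 0 < c ∧ 0 < H ∧ 1 < X ∧ ∀ i, X ≤ N i → ∀ T : ℝ, |T| ≤ H₀ →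
      (∀ t : ℝ, |t - T| ≤ H → ‖L i (1 / 2 + t * I)‖ ≤ N i ^ c) → ∀ σ : ℝ, 1 / 2 + δ ≤ σ → σ ≤ B →
        ∫⁻ t in Icc T (T + 1), ENNReal.ofReal |Dl (L i) σ t| ≤ ENNReal.ofReal (ε * Real.log (N i)) := by
  have hk := F.hk
  obtain ⟨κ, H, Q1, hκ, hH, hQ1, H1⟩ := flatM hm hθ0 hθ (δ := δ) (ε := ε / (k + 1)) (B := B) hδ (by positivity)
  obtain ⟨X, hX, HX⟩ := F.cmp hm hθ0 hθ hH₀ Q1
  refine ⟨κ / 2, H, X, by positivity, hH, hX, fun i hi T hT hsmall σ h0 h1 => ?_⟩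
  obtain ⟨h2, h3, h4, h5⟩ := HX i hi T hT
  have hN1 : 1 ≤ N i := by linarith
  refine (H1 _ _ (F.mem i) T h2 (fun t ht => ?_) σ h0 h1).trans (ENNReal.ofReal_le_ofReal ?_)
  · rw [← half_eq]
    refine (hsmall t ht).trans ?_
    rw [Real.rpow_def_of_pos (by linarith)]
    apply Real.exp_le_exp.2
    have : κ / 2 * Real.log (N i) ≤ κ / 2 * (2 * Real.log (Q i T)) := mul_le_mul_of_nonneg_left h4 (by positivity)
    linarith
  · have h6 : ε / (k + 1) * Real.log (Q i T) ≤ ε / (k + 1) * ((k + 1) * Real.log (N i)) :=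
      mul_le_mul_of_nonneg_left h5 (by positivity)
    have h7 : ε / (k + 1) * ((k + 1) * Real.log (N i)) = ε * Real.log (N i) := by field_simp
    linarith

/-- **small rotation near a height leaves few zeros** -/
theorem zeros_law (F : Fam θ m L Q N C k) (hm : 1 ≤ m) (hθ0 : 0 ≤ θ) (hθ : θ < 1 / 2) {h c ε H₀ : ℝ} (hh : 0 < h)
    (hc : 0 < c) (hc1 : c ≤ 1) (hε : 0 < ε) (hH₀ : 0 ≤ H₀) : ∃ η H X : ℝ, 0 < η ∧ 0 < H ∧ 1 < X ∧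
      ∀ i, X ≤ N i → ∀ T : ℝ, |T| ≤ H₀ → ∀ σ₀ : ℝ, 1 / 2 ≤ σ₀ → σ₀ ≤ 1 / 2 + c / 4 →
      (∀ s : ℝ, |s - T| ≤ H → ∫ t in s..(s + h), Dl (L i) σ₀ t ≤ η * Real.log (N i)) →
      ∀ S : Finset ℂ, (∀ s ∈ S, L i s = 0 ∧ 1 / 2 + c ≤ s.re ∧ |s.im - T| ≤ 1) →
        ∑ s ∈ S, (mult (L i) s : ℝ) ≤ ε * Real.log (N i) := by
  have hk := F.hk
  obtain ⟨η, H, Q1, hη, hH, hQ1, H1⟩ := few_zeros hm hθ0 hθ (h := h) (c := c) (ε := ε / (k + 1)) hh hc hc1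
    (by positivity)
  obtain ⟨X, hX, HX⟩ := F.cmp hm hθ0 hθ hH₀ Q1
  refine ⟨η / 2, H, X, by positivity, hH, hX, fun i hi T hT σ₀ h0 h1 hw S hS => ?_⟩
  obtain ⟨h2, h3, h4, h5⟩ := HX i hi T hT
  have h6 := H1 _ _ (F.mem i) T h2 σ₀ h0 h1 (fun s hs => (hw s hs).trans (by
    have : η / 2 * Real.log (N i) ≤ η / 2 * (2 * Real.log (Q i T)) := mul_le_mul_of_nonneg_left h4 (by positivity)
    linarith)) S hS
  refine h6.trans ?_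
  have h7 : ε / (k + 1) * Real.log (Q i T) ≤ ε / (k + 1) * ((k + 1) * Real.log (N i)) :=
    mul_le_mul_of_nonneg_left h5 (by positivity)
  have h8 : ε / (k + 1) * ((k + 1) * Real.log (N i)) = ε * Real.log (N i) := by field_simp
  linarith

/-- the law for means on bounded ranges of heights -/
theorem mean_law (F : Fam θ m L Q N C k) (hm : 1 ≤ m) (hθ0 : 0 ≤ θ) (hθ : θ < 1 / 2) {h ε q V H₀ : ℝ} (hh : 0 < h)
    (hε : 0 < ε) (hq : 0 ≤ q) (hV : 0 ≤ V) (hH₀ : 0 ≤ H₀) : ∃ η H X : ℝ, 0 < η ∧ 0 < H ∧ 1 < X ∧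
      ∀ i, X ≤ N i → ∀ T : ℝ, |T| ≤ H₀ → ∀ σ₀ : ℝ, 1 / 2 ≤ σ₀ → σ₀ ≤ 1 →
      (∀ s : ℝ, |s - T| ≤ H → ∫ t in s..(s + h), Dl (L i) σ₀ t ≤ (q + η) * h * Real.log (Q i T)) →
      ∀ σ t : ℝ, σ₀ ≤ σ → |t - T| ≤ V →
        ∫ u in t..(t + h), Real.log ‖L i ⟨σ, u⟩‖ ≤ (q * max (1 - σ) 0 + ε) * h * Real.log (Q i T) := by
  obtain ⟨η, H, Q1, hη, hH, hQ1, H1⟩ := log_law hm hθ0 hθ hh hε hq hV
  obtain ⟨X, hX, HX⟩ := F.cmp hm hθ0 hθ hH₀ Q1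
  refine ⟨η, H, X, hη, hH, hX, fun i hi T hT σ₀ h0 h1 hw σ t hσ ht => ?_⟩
  obtain ⟨h2, h3, h4, h5⟩ := HX i hi T hT
  exact H1 _ _ (F.mem i) T h2 σ₀ h0 h1 hw σ t hσ ht

/-- the Lindelöf bound on bounded ranges of heights -/
def LinB (L : ι → ℂ → ℂ) (N : ι → ℝ) : Prop := ∀ β H : ℝ, 0 < β → 0 < H → ∃ X : ℝ, ∀ i, X ≤ N i →
  ∀ T : ℝ, |T| ≤ H → ‖L i (1 / 2 + T * I)‖ ≤ N i ^ β

/-- small absolute rotation on bounded ranges of heights -/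
def FlatB (L : ι → ℂ → ℂ) (N : ι → ℝ) : Prop := ∀ δ B ε H : ℝ, 0 < δ → 0 < ε → 0 < H → ∃ X : ℝ, ∀ i, X ≤ N i →
  ∀ T σ : ℝ, |T| ≤ H → 1 / 2 + δ ≤ σ → σ ≤ B →
    ∫⁻ t in Icc T (T + 1), ENNReal.ofReal |Dl (L i) σ t| ≤ ENNReal.ofReal (ε * Real.log (N i))

/-- small signed rotation in windows of length `h` on bounded ranges of heights -/
def RotB (L : ι → ℂ → ℂ) (N : ι → ℝ) (h σ : ℝ) : Prop := ∀ ε H : ℝ, 0 < ε → 0 < H → ∃ X : ℝ, ∀ i, X ≤ N i →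
  ∀ T : ℝ, |T| ≤ H → ∫ t in T..(T + h), Dl (L i) σ t ≤ ε * Real.log (N i)

theorem flatB_of_lin (F : Fam θ m L Q N C k) (hm : 1 ≤ m) (hθ0 : 0 ≤ θ) (hθ : θ < 1 / 2) (hL : LinB L N) :
    FlatB L N := by
  intro δ B ε H hδ hε hH
  obtain ⟨c, H', X, hc, hH', hX, H1⟩ := flat_law F hm hθ0 hθ (δ := δ) (B := B) (ε := ε) (H₀ := H) hδ hε hH.le
  obtain ⟨X', HX'⟩ := hL c (H + H') hc (by positivity)
  refine ⟨max X X', fun i hi T σ hT h0 h1 => ?_⟩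
  refine H1 i ((le_max_left _ _).trans hi) T hT (fun t ht => ?_) σ h0 h1
  refine HX' i ((le_max_right _ _).trans hi) t ?_
  have h2 : |t| ≤ |t - T| + |T| := by
    have := abs_add_le (t - T) T
    rwa [sub_add_cancel] at this
  linarith

theorem rotB_of_flat (F : Fam θ m L Q N C k) (hm : 1 ≤ m) (hθ0 : 0 ≤ θ) (hθ : θ < 1 / 2) (hL : FlatB L N) {h σ : ℝ}
    (hh : 0 < h) (hσ : 1 / 2 < σ) : RotB L N h σ := by
  intro ε H hε hH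
  obtain ⟨n, hn⟩ := exists_nat_ge h
  have hn0 : (0:ℝ) < n := by linarith
  obtain ⟨X, HX⟩ := hL (σ - 1 / 2) σ (ε / n) (H + n) (by linarith) (by positivity) (by positivity)
  refine ⟨X, fun i hi T hT => ?_⟩
  have hlN : 0 ≤ Real.log (N i) := Real.log_nonneg (F.one i)
  have h2 := win_simple (g := Dl (L i) σ) (X := ε / n * Real.log (N i)) (by positivity) (T := T) n (fun j hj => by
    refine HX i hi (T + j) σ ?_ (by linarith) le_rfl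
    have h3 : (j : ℝ) ≤ n := by exact_mod_cast hj.le
    calc |T + j| ≤ |T| + |(j : ℝ)| := abs_add_le _ _
      _ ≤ H + n := by rw [abs_of_nonneg (by positivity : (0:ℝ) ≤ j)]; linarith)
  have e1 : (n : ℝ) * (ε / n * Real.log (N i)) = ε * Real.log (N i) := by field_simp
  rw [e1] at h2
  have h1 := abs_int_le (g := Dl (L i) σ) (a := T) (b := T + h) (c := T) (d := T + n) (X := ε * Real.log (N i))
    (by positivity) (Dl_integrable hm hθ0 hθ (F.mem i) σ _ _) (by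
      rw [Set.uIoc_of_le (by linarith)]
      exact fun t ht => ⟨ht.1.le, ht.2.trans (by linarith)⟩) h2
  exact (le_abs_self _).trans h1

/-- **the criterion** -/
theorem crit_rot (F : Fam θ m L Q N C k) (hm : 1 ≤ m) (hθ0 : 0 ≤ θ) (hθ : θ < 1 / 2) {h : ℝ} (hh : 0 < h)
    (hr : ∀ δ : ℝ, 0 < δ → ∃ σ : ℝ, 1 / 2 ≤ σ ∧ σ ≤ 1 / 2 + δ ∧ RotB L N h σ) : LinB L N := by
  intro β H₀ hβ hH₀
  obtain ⟨c, H, X, hc, hH, hX, H1⟩ := rot_law F hm hθ0 hθ hβ hh hH₀.le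
  obtain ⟨σ, h0, h1, h2⟩ := hr c hc
  obtain ⟨X', HX'⟩ := h2 c (H₀ + H) hc (by positivity)
  refine ⟨max X X', fun i hi T hT => ?_⟩
  by_contra hcon
  push Not at hcon
  obtain ⟨s, hs, h3⟩ := H1 i ((le_max_left _ _).trans hi) T hT hcon.le σ h0 h1
  have h4 := HX' i ((le_max_right _ _).trans hi) s (by
    have h2 : |s| ≤ |s - T| + |T| := by
      have := abs_add_le (s - T) T
      rwa [sub_add_cancel] at this
    linarith)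
  linarith

end Pool.Agent.V7H88.NF
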